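import Pool.Agent.H515.RD.Ind

/-! # Permutation modules -/

set_option autoImplicit false
set_option linter.unusedSectionVars false
set_option linter.deprecated false

namespace Pool.Agent.H515.RD

open LinearMap

section
variable {G A X : Type} [Group G] [Finite G] [AddCommGroup A] [MulAction G X]

/-- the action on the permutation module -/
@[instance_reducible] noncomputable def pAct (G X : Type) [Group G] [MulAction G X] :
    DistribMulAction G (X →₀ ℤ) where
  smul g f := Finsupp.mapDomain (fun x => g • x) f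
  one_smul f := by
    change Finsupp.mapDomain (fun x => (1 : G) • x) f = f
    have h : (fun x : X => (1 : G) • x) = id := by
      ext x
      exact one_smul G x
    rw [h, Finsupp.mapDomain_id]
  mul_smul g h f := by
    change Finsupp.mapDomain (fun x => (g * h) • x) f =
      Finsupp.mapDomain (fun x => g • x) (Finsupp.mapDomain (fun x => h • x) f)
    rw [← Finsupp.mapDomain_comp]
    congr 1
    ext x
    exact mul_smul g h x
  smul_zero g := Finsupp.mapDomain_zero
  smul_add g f f' := Finsupp.mapDomain_add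

theorem pAct_single (g : G) (x : X) (n : ℤ) :
    letI := pAct G X; g • (Finsupp.single x n : X →₀ ℤ) = Finsupp.single (g • x) n :=
  Finsupp.mapDomain_single

theorem trace_perm [Finite X] (g : G) :
    letI := pAct G X; trace ℤ (X →₀ ℤ) (ac (X →₀ ℤ) g) = (Nat.card {x : X // g • x = x} : ℤ) := by
  classical
  have hft : Fintype X := Fintype.ofFinite X
  let _ := pAct G X
  change trace ℤ (X →₀ ℤ) (ac (X →₀ ℤ) g) = (Nat.card {x : X // g • x = x} : ℤ)
  rw [LinearMap.trace_eq_matrix_trace ℤ (Finsupp.basisSingleOne (R := ℤ) (ι := X)), Matrix.trace,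
    Nat.card_eq_fintype_card, Fintype.card_subtype, Finset.card_filter, Nat.cast_sum]
  refine Finset.sum_congr rfl fun x _ => ?_
  rw [Matrix.diag_apply, LinearMap.toMatrix_apply]
  have h1 : ac (X →₀ ℤ) g (Finsupp.basisSingleOne (R := ℤ) x) = Finsupp.single (g • x) 1 := by
    rw [Finsupp.coe_basisSingleOne, ac_apply]
    exact pAct_single g x 1
  rw [h1]
  change (Finsupp.single (g • x) (1 : ℤ)) x = _
  rw [Finsupp.single_apply]
  split_ifs <;> rfl

theorem trace_nD {L : Type} [AddCommGroup L] [DistribMulAction G L] (D : Subgroup G) (x : G) :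
    trace ℤ L (ac L x ∘ₗ nD L D) = ∑ d ∈ DD D, trace ℤ L (ac L (x * d)) := by
  have e2 : ac L x ∘ₗ nD L D = ∑ d ∈ DD D, ac L (x * d) := by
    ext y
    rw [LinearMap.comp_apply, nD_apply, LinearMap.sum_apply, ac_apply, Finset.smul_sum]
    exact Finset.sum_congr rfl fun d _ => (mul_smul x d y).symm
  rw [e2, map_sum]

/-- the equivariant functions with values in `S` -/
def EF (X : Type) [MulAction G X] (t : G →* AddMonoid.End A) (S : AddSubgroup A) : Type :=
  {f : X → A // (∀ (g : G) (x : X), f (g • x) = t g (f x)) ∧ ∀ x, f x ∈ S}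

theorem card_EF (t : G →* AddMonoid.End A) (S : AddSubgroup A) :
    letI := pAct G X; Nat.card (ES (X →₀ ℤ) t S) = Nat.card (EF X t S) := by
  classical
  let _ := pAct G X
  change Nat.card (ES (X →₀ ℤ) t S) = Nat.card (EF X t S)
  have hs : ∀ (g : G) (x : X) (n : ℤ), g • (Finsupp.single x n : X →₀ ℤ) =
      Finsupp.single (g • x) n := fun g x n => pAct_single g x n
  refine Nat.card_congr (Equiv.ofBijective (fun φ : ES (X →₀ ℤ) t S =>
    (⟨fun x => (φ : (X →₀ ℤ) →+ A) (Finsupp.single x 1), fun g x => ?_, fun x => φ.2.2 _⟩ :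
      EF X t S)) ⟨fun φ φ' h => ?_, fun f => ?_⟩)
  · change (φ : (X →₀ ℤ) →+ A) (Finsupp.single (g • x) 1) =
      t g ((φ : (X →₀ ℤ) →+ A) (Finsupp.single x 1))
    rw [← hs, φ.2.1]
  · apply Subtype.ext
    apply Finsupp.addHom_ext
    intro x n
    have h1 : (φ : (X →₀ ℤ) →+ A) (Finsupp.single x 1) =
        (φ' : (X →₀ ℤ) →+ A) (Finsupp.single x 1) := congrFun (congrArg Subtype.val h) x
    have h2 : (Finsupp.single x n : X →₀ ℤ) = n • Finsupp.single x 1 := by
      rw [Finsupp.smul_single, smul_eq_mul, mul_one]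
    rw [h2, map_zsmul, map_zsmul, h1]
  · have hφ : ∀ x n, (Finsupp.liftAddHom (fun x => (zmultiplesHom A) (f.1 x)) :
        (X →₀ ℤ) →+ A) (Finsupp.single x n) = n • f.1 x := by
      intro x n
      rw [Finsupp.liftAddHom_apply_single]
      rfl
    refine ⟨⟨Finsupp.liftAddHom (fun x => (zmultiplesHom A) (f.1 x)), fun g x => ?_, fun x => ?_⟩,
      ?_⟩
    · induction x using Finsupp.induction_linear with
      | zero => rw [smul_zero, map_zero, map_zero]
      | add a b ha hb => rw [smul_add, map_add, map_add, map_add, ha, hb]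
      | single x n => rw [hs, hφ, hφ, f.2.1, map_zsmul]
    · induction x using Finsupp.induction_linear with
      | zero => rw [map_zero]; exact S.zero_mem
      | add a b ha hb => rw [map_add]; exact S.add_mem ha hb
      | single x n => rw [hφ]; exact S.zsmul_mem (f.2.2 x) n
    · apply Subtype.ext
      ext x
      change (Finsupp.liftAddHom (fun x => (zmultiplesHom A) (f.1 x)) :
        (X →₀ ℤ) →+ A) (Finsupp.single x 1) = f.1 x
      rw [hφ, one_smul]

end

section
variable {G A J : Type} [Group G] [Finite G] [AddCommGroup A] [Finite J] (X : J → Type)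
  [∀ j, Finite (X j)] [∀ j, MulAction G (X j)]

theorem card_EF_sigma (t : G →* AddMonoid.End A) (S : AddSubgroup A) :
    Nat.card (EF (Σ j, X j) t S) = Nat.card (∀ j, EF (X j) t S) := by
  refine Nat.card_congr
    { toFun := fun f j => ⟨fun x => f.1 ⟨j, x⟩, fun g x => f.2.1 g ⟨j, x⟩, fun x => f.2.2 _⟩
      invFun := fun f => ⟨fun x => (f x.1).1 x.2, fun g x => (f x.1).2.1 g x.2,
        fun x => (f x.1).2.2 x.2⟩
      left_inv := fun f => rfl
      right_inv := fun f => rfl }

theorem card_fix_sigma (g : G) : Nat.card {z : Σ j, X j // g • z = z} =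
    Nat.card (Σ j, {x : X j // g • x = x}) := by
  refine Nat.card_congr
    { toFun := fun z => ⟨z.1.1, z.1.2, ?_⟩
      invFun := fun z => ⟨⟨z.1, z.2.1⟩, ?_⟩
      left_inv := fun z => rfl
      right_inv := fun z => rfl }
  · obtain ⟨⟨j, x⟩, hz⟩ := z
    have h1 : (⟨j, g • x⟩ : Σ j, X j) = ⟨j, x⟩ := hz
    exact eq_of_heq (Sigma.mk.inj h1).2
  · obtain ⟨j, x, hx⟩ := z
    change (⟨j, g • x⟩ : Σ j, X j) = ⟨j, x⟩
    rw [hx]

end

/-- **Relations.** -/
theorem relation {G A ι : Type} [Group G] [Finite G] [AddCommGroup A] [Fintype ι]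
    (X : ι → Type) [∀ i, Finite (X i)] [∀ i, MulAction G (X i)] {p e : ℕ} (hp : p.Prime)
    (hG : (Nat.card G).Coprime p) {t : G →* AddMonoid.End A} {S : AddSubgroup A}
    (hSt : ∀ g, ∀ a ∈ S, t g a ∈ S) (hSp : ∀ a ∈ S, p ^ e • a = 0) (hSf : Finite S)
    (Ds : Set (Subgroup G))
    (hV : ∀ (L : Type) [AddCommGroup L] [DistribMulAction G L] [Module.Free ℤ L]
      [Module.Finite ℤ L], (∀ D ∈ Ds, nD L D = 0) → ∀ φ ∈ ES L t S, φ = 0) (a : ι → ℤ)
    (ha : ∀ D ∈ Ds, ∀ x : G, ∑ i, a i *
      ∑ d ∈ DD D, (Nat.card {y : X i // (x * d) • y = y} : ℤ) = 0) :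
    ∑ i, a i * (padicValNat p (Nat.card (EF (X i) t S)) : ℤ) = 0 := by
  classical
  have hfp : Fact p.Prime := ⟨hp⟩
  -- the number of functions
  have hfin : ∀ i, Finite (EF (X i) t S) := by
    intro i
    have h1 : Function.Injective (fun (f : EF (X i) t S) (x : X i) => (⟨f.1 x, f.2.2 x⟩ : S)) := by
      intro f f' h
      apply Subtype.ext
      ext x
      exact congrArg Subtype.val (congrFun h x)
    exact Finite.of_injective _ h1
  have hne : ∀ i, Nonempty (EF (X i) t S) := fun i =>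
    ⟨⟨fun _ => 0, fun g _ => (map_zero (t g)).symm, fun _ => S.zero_mem⟩⟩
  have hpos : ∀ i, Nat.card (EF (X i) t S) ≠ 0 := fun i => by
    have := hfin i
    have := hne i
    exact Nat.card_pos.ne'
  -- the numbers for multiplicities
  have key : ∀ n : ι → ℕ, (letI := pAct G (Σ j : (Σ i, Fin (n i)), X j.1);
      Nat.card (ES ((Σ j : (Σ i, Fin (n i)), X j.1) →₀ ℤ) t S) =
        ∏ i, Nat.card (EF (X i) t S) ^ n i ∧ ∀ (D : Subgroup G) (x : G),
      trace ℤ ((Σ j : (Σ i, Fin (n i)), X j.1) →₀ ℤ)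
        (ac ((Σ j : (Σ i, Fin (n i)), X j.1) →₀ ℤ) x ∘ₗ
          nD ((Σ j : (Σ i, Fin (n i)), X j.1) →₀ ℤ) D) =
        ∑ i, (n i : ℤ) * ∑ d ∈ DD D, (Nat.card {y : X i // (x * d) • y = y} : ℤ)) := by
    intro n
    let Y : (Σ i, Fin (n i)) → Type := fun j => X j.1
    let _ := pAct G (Σ j, Y j)
    refine ⟨?_, fun D x => ?_⟩
    · have h1 : Nat.card (ES ((Σ j, Y j) →₀ ℤ) t S) = Nat.card (EF (Σ j, Y j) t S) :=
        card_EF t S
      refine h1.trans ?_
      rw [card_EF_sigma Y t S, Nat.card_pi, Fintype.prod_sigma]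
      exact Finset.prod_congr rfl fun i _ => by
        change ∏ _k : Fin (n i), Nat.card (EF (X i) t S) = _
        rw [Finset.prod_const, Finset.card_univ, Fintype.card_fin]
    · rw [trace_nD]
      have h1 : ∀ g : G, trace ℤ ((Σ j, Y j) →₀ ℤ) (ac ((Σ j, Y j) →₀ ℤ) g) =
          ∑ i, (n i : ℤ) * (Nat.card {y : X i // g • y = y} : ℤ) := by
        intro g
        have h2 := trace_perm (G := G) (X := Σ j, Y j) g
        refine h2.trans ?_
        have hft : ∀ j, Fintype {x : Y j // g • x = x} := fun j => Fintype.ofFinite _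
        rw [card_fix_sigma Y g, Nat.card_sigma, Nat.cast_sum, Fintype.sum_sigma]
        refine Finset.sum_congr rfl fun i _ => ?_
        change ∑ _k : Fin (n i), (Nat.card {y : X i // g • y = y} : ℤ) = _
        rw [Finset.sum_const, Finset.card_univ, Fintype.card_fin, nsmul_eq_mul]
      rw [Finset.sum_congr rfl fun d _ => h1 (x * d), Finset.sum_comm]
      exact Finset.sum_congr rfl fun i _ => by rw [Finset.mul_sum]
  -- the comparison
  obtain ⟨k1, k2⟩ := key fun i => (a i).toNat
  obtain ⟨l1, l2⟩ := key fun i => (-a i).toNat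
  let _ := pAct G (Σ j : (Σ i, Fin ((a i).toNat)), X j.1)
  let _ := pAct G (Σ j : (Σ i, Fin ((-a i).toNat)), X j.1)
  have h1 := card_eq hp hG hSt hSp Ds hV _ ((Σ j : (Σ i, Fin ((a i).toNat)), X j.1) →₀ ℤ)
    ((Σ j : (Σ i, Fin ((-a i).toNat)), X j.1) →₀ ℤ) rfl fun D hD x => by
      rw [k2 D x, l2 D x, ← sub_eq_zero, ← Finset.sum_sub_distrib, ← ha D hD x]
      refine Finset.sum_congr rfl fun i _ => ?_
      rw [← sub_mul]
      congr 1
      omega
  rw [k1, l1] at h1
  have h2 := congrArg (padicValNat p) h1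
  have hv : ∀ n : ι → ℕ, padicValNat p (∏ i, Nat.card (EF (X i) t S) ^ n i) =
      ∑ i, n i * padicValNat p (Nat.card (EF (X i) t S)) := by
    intro n
    have h0 : ∀ s : Finset ι, padicValNat p (∏ i ∈ s, Nat.card (EF (X i) t S) ^ n i) =
        ∑ i ∈ s, n i * padicValNat p (Nat.card (EF (X i) t S)) := by
      intro s
      induction s using Finset.induction_on with
      | empty => rw [Finset.prod_empty, Finset.sum_empty, padicValNat.one]
      | insert i s hi ih =>
        rw [Finset.prod_insert hi, Finset.sum_insert hi, padicValNat.mul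
          (pow_ne_zero _ (hpos i)) (Finset.prod_ne_zero_iff.2 fun j _ => pow_ne_zero _ (hpos j)),
          ih, padicValNat.pow]
    exact h0 Finset.univ
  rw [hv, hv] at h2
  have h3 : (∑ i, ((a i).toNat * padicValNat p (Nat.card (EF (X i) t S)) : ℕ) : ℤ) =
      (∑ i, ((-a i).toNat * padicValNat p (Nat.card (EF (X i) t S)) : ℕ) : ℤ) := by
    rw [← Nat.cast_sum, ← Nat.cast_sum, h2]
  rw [← sub_eq_zero, ← Finset.sum_sub_distrib] at h3
  rw [← h3]
  refine Finset.sum_congr rfl fun i _ => ?_
  rw [Nat.cast_mul, Nat.cast_mul, ← sub_mul]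
  congr 1
  omega

end Pool.Agent.H515.RD
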