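import Pool.Agent.H515.RD.Gal
import Pool.Agent.H515.RD.Perm
import Pool.Agent.H515.ClN

/-! # Fixed classes -/

set_option autoImplicit false
set_option linter.unusedSectionVars false
set_option linter.deprecated false

namespace Pool.Agent.H515.RD

open NumberField IsDedekindDomain Pool.Agent.Q5.BR Pool.Agent.Q92.AR Pool.Agent.Q106.AR
open Pool.Agent.TeamU (act mem_act)
open Pool.Agent.H515.CH (UU PP cn ri DC sb sb_mk eqv cls mr map_ne Xt cn_injective cn_sD' nmD_sD'
  ri_eq_one under_act' cn_prinHom nb jb nb_jb nm_cn)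

section
variable {F E : Type} [Field F] [NumberField F] [Field E] [NumberField E] [Algebra F E]

theorem xt_one (g : E ≃ₐ[F] E) : Xt (k := F) (k' := F) (F := F) (F' := E) g (1 : F ≃ₐ[F] F) :=
  fun x => g.commutes x

theorem cn_fix (g : E ≃ₐ[F] E) (D : Dv F) : sD g (cn F E D) = cn F E D := by
  rw [← cn_sD' (xt_one g), Pool.Agent.Q182.AR.sD_one]
  rfl

theorem nm_fix (g : E ≃ₐ[F] E) (D : Dv E) : nmD F E (sD g D) = nmD F E D := by
  rw [nmD_sD' (xt_one g), Pool.Agent.Q182.AR.sD_one]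
  rfl

theorem inv_nm_zero [IsGalois F E] {X : Dv E} (h : ∀ g : E ≃ₐ[F] E, sD g X = X)
    (h0 : nmD F E X = 0) : X = 0 := by
  ext w
  have h1 := DFunLike.congr_fun h0 (w.under (𝓞 F))
  rw [Pool.Agent.Q149.AR.nmD_apply, Finsupp.zero_apply] at h1
  have h2 : ∀ w' ∈ above E (w.under (𝓞 F)), (rdeg F w' : ℤ) * X w' = (rdeg F w' : ℤ) * X w := by
    intro w' hw'
    obtain ⟨g, hg⟩ := Pool.Agent.TeamU.exists_act (k := F) (P := w) (Q := w')
      (v := w.under (𝓞 F)) rfl (congrArg HeightOneSpectrum.asIdeal (mem_above.1 hw'))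
    have h3 := Pool.Agent.Q225.AR.sD_act g X w
    rw [h, hg] at h3
    rw [h3]
  rw [Finset.sum_congr rfl h2, ← Finset.sum_mul, mul_eq_zero] at h1
  rcases h1 with h1 | h1
  · exfalso
    have h3 : 0 < ∑ w' ∈ above E (w.under (𝓞 F)), (rdeg F w' : ℤ) :=
      Finset.sum_pos (fun w' _ => by exact_mod_cast Pool.Agent.H515.CH.rdeg_pos' w')
        ⟨w, mem_above.2 rfl⟩
    exact absurd h1 h3.ne'
  · exact h1

theorem cn_nm [IsGalois F E] (D : Dv E) :
    cn F E (nmD F E D) = ∑ g : E ≃ₐ[F] E, sD g D := by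
  classical
  rw [← sub_eq_zero]
  refine inv_nm_zero (F := F) (fun g => ?_) ?_
  · rw [map_sub, cn_fix, map_sum]
    congr 1
    refine Fintype.sum_equiv (Equiv.mulLeft g) _ _ fun h => ?_
    change sD g (sD h D) = sD (g * h) D
    rw [Pool.Agent.Q182.AR.sD_mul]
    rfl
  · rw [map_sub, nm_cn, map_sum, Finset.sum_congr rfl fun g _ => nm_fix g D, Finset.sum_const,
      Finset.card_univ, ← Nat.card_eq_fintype_card, IsGalois.card_aut_eq_finrank, sub_self]

theorem jb_nb [IsGalois F E] (y : DC E) : jb F E (nb F E y) = ∑ g : E ≃ₐ[F] E, sb g y := by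
  obtain ⟨D, rfl⟩ := QuotientAddGroup.mk_surjective y
  change (QuotientAddGroup.mk (cn F E (nmD F E D)) : DC E) = _
  rw [cn_nm]
  exact map_sum (QuotientAddGroup.mk' (PP E)) _ _

theorem sb_jb (g : E ≃ₐ[F] E) (x : DC F) : sb g (jb F E x) = jb F E x := by
  obtain ⟨D, rfl⟩ := QuotientAddGroup.mk_surjective x
  exact congrArg (QuotientAddGroup.mk : Dv E → DC E) (cn_fix g D)

theorem card_fix_tors [IsGalois F E] {p e : ℕ} (hc : (Module.finrank F E).Coprime p) :
    Nat.card {x : DC F // p ^ e • x = 0} =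
      Nat.card {y : DC E // p ^ e • y = 0 ∧ ∀ g : E ≃ₐ[F] E, sb g y = y} := by
  obtain ⟨u, hu⟩ := exists_inv (e := e) hc
  refine Nat.card_congr (Equiv.ofBijective (fun x => ⟨jb F E x.1, ?_, fun g => sb_jb g x.1⟩)
    ⟨fun x x' h => ?_, fun y => ?_⟩)
  · rw [← map_nsmul, x.2, map_zero]
  · apply Subtype.ext
    have h1 : jb F E x.1 = jb F E x'.1 := congrArg Subtype.val h
    have h2 := congrArg (nb F E) h1
    rw [nb_jb, nb_jb] at h2
    rw [← hu _ x.2, h2, hu _ x'.2]
  · have h1 : jb F E (nb F E y.1) = Module.finrank F E • y.1 := by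
      rw [jb_nb, Finset.sum_congr rfl fun g _ => y.2.2 g, Finset.sum_const, Finset.card_univ,
        ← Nat.card_eq_fintype_card, IsGalois.card_aut_eq_finrank]
    refine ⟨⟨u • nb F E y.1, ?_⟩, ?_⟩
    · rw [smul_comm, ← map_nsmul, y.2.1, map_zero, smul_zero]
    · apply Subtype.ext
      change jb F E (u • nb F E y.1) = y.1
      rw [map_zsmul, h1, hu _ y.2.1]

theorem card_tors (p e : ℕ) : Nat.card {c : ClassGroup (𝓞 F) // c ^ (p ^ e) = 1} =
    Nat.card {x : DC F // p ^ e • x = 0} := by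
  refine Nat.card_congr (Equiv.ofBijective (fun c => ⟨(eqv F).symm (Additive.ofMul c.1), ?_⟩)
    ⟨fun c c' h => ?_, fun x => ?_⟩)
  · rw [← map_nsmul, ← ofMul_pow, c.2, ofMul_one, map_zero]
  · apply Subtype.ext
    exact Additive.ofMul.injective ((eqv F).symm.injective (congrArg Subtype.val h))
  · refine ⟨⟨(eqv F x.1).toMul, ?_⟩, ?_⟩
    · rw [← toMul_nsmul, ← map_nsmul, x.2, map_zero, toMul_zero]
    · apply Subtype.ext
      change (eqv F).symm (Additive.ofMul (eqv F x.1).toMul) = x.1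
      rw [ofMul_toMul, AddEquiv.symm_apply_apply]

end

/-- equivariant functions on a transitive set -/
theorem card_EF_trans {G A X : Type} [Group G] [AddCommGroup A] [MulAction G X]
    (t : G →* AddMonoid.End A) (S : AddSubgroup A) (hSt : ∀ g, ∀ a ∈ S, t g a ∈ S) (x0 : X)
    (h : ∀ x : X, ∃ g : G, g • x0 = x) :
    Nat.card (EF X t S) = Nat.card {a : A // a ∈ S ∧ ∀ g : G, g • x0 = x0 → t g a = a} := by
  refine Nat.card_congr (Equiv.ofBijective (fun f => ⟨f.1 x0, f.2.2 x0, fun g hg => ?_⟩)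
    ⟨fun f f' hff => ?_, fun a => ?_⟩)
  · rw [← f.2.1, hg]
  · apply Subtype.ext
    ext x
    obtain ⟨g, rfl⟩ := h x
    have h1 : f.1 x0 = f'.1 x0 := congrArg Subtype.val hff
    rw [f.2.1, f'.2.1, h1]
  · choose r hr using h
    have key : ∀ g : G, t (r (g • x0)) a.1 = t g a.1 := by
      intro g
      have h1 : t (g⁻¹ * r (g • x0)) a.1 = a.1 := by
        apply a.2.2
        rw [mul_smul, hr, inv_smul_smul]
      have h2 : r (g • x0) = g * (g⁻¹ * r (g • x0)) := by rw [mul_inv_cancel_left]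
      rw [h2, map_mul]
      exact congrArg (t g) h1
    refine ⟨⟨fun x => t (r x) a.1, fun g x => ?_, fun x => hSt _ _ a.2.1⟩, ?_⟩
    · obtain ⟨h', rfl⟩ : ∃ h', h' • x0 = x := ⟨r x, hr x⟩
      change t (r (g • h' • x0)) a.1 = t g (t (r (h' • x0)) a.1)
      rw [← mul_smul, key, key, map_mul]
      rfl
    · apply Subtype.ext
      change t (r x0) a.1 = a.1
      have h1 := key 1
      rw [one_smul, map_one] at h1
      exact h1

end Pool.Agent.H515.RD
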