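import Pool.Agent.H515.RD.Gen

/-! # The relations between the class groups -/

set_option autoImplicit false
set_option linter.unusedSectionVars false
set_option linter.deprecated false

namespace Pool.Agent.H515.RD

open NumberField IsDedekindDomain Pool.Agent.Q5.BR Pool.Agent.Q92.AR Pool.Agent.Q106.AR
open Pool.Agent.TeamU (act mem_act)
open Pool.Agent.H515.CH (UU PP cn ri DC sb sb_mk eqv cls mr map_ne Xt cn_injective cn_sD' nmD_sD'
  ri_eq_one under_act' cn_prinHom nb jb nb_jb nm_cn Sqr sqr_comp gal_comp)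
open Pool.Agent.H515.EQ (tC mem_of_coprime)

theorem act_congr {M N B : Type} [Field M] [NumberField M] [Field N] [NumberField N] [Field B]
    [NumberField B] [Algebra M B] [Algebra N B] {g : B ≃ₐ[M] B} {g' : B ≃ₐ[N] B}
    (h : ∀ x, g x = g' x) (w : HeightOneSpectrum (𝓞 B)) : act g w = act g' w := by
  ext x
  rw [mem_act, mem_act]
  have e : g.toRingEquiv = g'.toRingEquiv := RingEquiv.ext h
  rw [e]

theorem sb_congr {M N B : Type} [Field M] [NumberField M] [Field N] [NumberField N] [Field B]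
    [NumberField B] [Algebra M B] [Algebra N B] {g : B ≃ₐ[M] B} {g' : B ≃ₐ[N] B}
    (h : ∀ x, g x = g' x) (y : DC B) : sb g y = sb g' y := by
  obtain ⟨D, rfl⟩ := QuotientAddGroup.mk_surjective y
  rw [sb_mk, sb_mk]
  congr 1
  ext w
  obtain ⟨w', rfl⟩ := Pool.Agent.Q225.AR.act_surj g w
  rw [Pool.Agent.Q225.AR.sD_act, act_congr h, Pool.Agent.Q225.AR.sD_act]

/-- the action on the embeddings -/
@[instance_reducible] def embAct (k K F : Type) [Field k] [Field K] [Field F] [Algebra k K]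
    [Algebra k F] : MulAction (F ≃ₐ[k] F) (K →ₐ[k] F) where
  smul g σ := (g : F →ₐ[k] F).comp σ
  one_smul _ := rfl
  mul_smul _ _ _ := rfl

theorem exists_aut_gen {k K F : Type} [Field k] [Field K] [Field F] [Algebra k K] [Algebra k F]
    [Normal k F] (u v : K →ₐ[k] F) : ∃ g : F ≃ₐ[k] F, ∀ x, g (u x) = v x := by
  let _ : Algebra K F := (u : K →+* F).toAlgebra
  have hu : IsScalarTower k K F := IsScalarTower.of_algebraMap_eq fun x => (u.commutes x).symm
  exact ⟨AlgEquiv.ofBijective (v.liftNormal F) (Algebra.IsAlgebraic.algHom_bijective _),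
    fun x => v.liftNormal_commutes F x⟩

theorem base_of_gen {p : ℕ} (hp : p.Prime) {k F : Type} [Field k] [NumberField k] [Field F]
    [NumberField F] [Algebra k F] (hG : (Nat.card (F ≃ₐ[k] F)).Coprime p)
    (Ds : Set (Subgroup (F ≃ₐ[k] F)))
    (hcl : ∀ x : DC F, (∃ j, p ^ j • x = 0) → x ∈ AddSubgroup.closure
      {y : DC F | ∃ D ∈ Ds, ∀ g ∈ D, sb g y = y}) {L : Type} [AddCommGroup L] [Module.Free ℤ L]
    [Module.Finite ℤ L] [DistribMulAction (F ≃ₐ[k] F) L] (hL : ∀ D ∈ Ds, nD L D = 0) :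
    BaseK p (MonoidHom.id (F ≃ₐ[k] F)) L := by
  intro c hc x hx
  obtain ⟨v, M, hM, hv⟩ := Nat.exists_eq_pow_mul_and_not_dvd (classNumber_pos F).ne' p hp.ne_one
  have hMc : M.Coprime p := ((Nat.Prime.coprime_iff_not_dvd hp).2 hM).symm
  have h0 : ∀ y : DC F, p ^ v • (M • y) = 0 := by
    intro y
    rw [smul_smul, ← hv, ← Pool.Agent.H515.CH.card_DC]
    exact card_nsmul_eq_zero'
  have h1 := gen_zero (tC (MonoidHom.id (F ≃ₐ[k] F)))
    {y : DC F | ∃ D ∈ Ds, ∀ g ∈ D, sb g y = y} (fun y hy => by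
      obtain ⟨D, hD, hDy⟩ := hy
      exact ⟨D, hL D hD, hDy⟩) (M • c) (fun g x => by
      change M • c (g • x) = sb g (M • c x)
      rw [hc, map_nsmul]
      rfl) (fun x => hcl _ ⟨v, h0 _⟩) x
  have h2 : (Nat.card (F ≃ₐ[k] F) * Nat.card (F ≃ₐ[k] F) * M) • c x = 0 := by
    rw [mul_smul]
    exact h1
  obtain ⟨j, hj⟩ := hx
  have hcop : (Nat.card (F ≃ₐ[k] F) * Nat.card (F ≃ₐ[k] F) * M).Coprime (p ^ j) :=
    Nat.Coprime.pow_right _ (Nat.Coprime.mul_left (Nat.Coprime.mul_left hG hG) hMc)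
  exact mem_of_coprime (S := ⊥) hcop (by rw [h2]; exact zero_mem _) (by rw [hj]; exact zero_mem _)

/-- **The relations.** -/
theorem rel_types {ι : Type} [Fintype ι] {p n : ℕ} (hp : p.Prime) (hp2 : p ≠ 2)
    {k T F B : Type} [Field k] [NumberField k] [Field T] [NumberField T] [Field F] [NumberField F]
    [Field B] [NumberField B] [Algebra k T] [Algebra k F] [Algebra k B] [Algebra T B] [Algebra F B]
    [IsScalarTower k T B] [IsScalarTower k F B] [IsGalois k T] [IsGalois k F]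
    (htop : IntermediateField.adjoin F (Set.range (algebraMap T B)) = ⊤)
    (hn : Module.finrank k T = p ^ n) (hc : (Module.finrank k F).Coprime p)
    (K M : ι → Type) [∀ i, Field (K i)] [∀ i, NumberField (K i)] [∀ i, Algebra k (K i)]
    [∀ i, Algebra (K i) F] [∀ i, IsScalarTower k (K i) F] [∀ i, Field (M i)]
    [∀ i, NumberField (M i)] [∀ i, Algebra (M i) B] [∀ i, Algebra T (M i)]
    [∀ i, IsScalarTower T (M i) B]
    (hM : ∀ i (g : B ≃ₐ[T] B), (∀ x : M i, g (algebraMap (M i) B x) = algebraMap (M i) B x) ↔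
      ∀ x : K i, g (algebraMap F B (algebraMap (K i) F x)) = algebraMap F B (algebraMap (K i) F x))
    (a : ι → ℤ) (ha0 : ∑ i, a i = 0)
    (ha : ∀ w : HeightOneSpectrum (𝓞 F), ¬ Unramified T (w.under (𝓞 k)) → ∀ x : F ≃ₐ[k] F,
      ∑ i, a i * (Nat.card {z : (K i →ₐ[k] F) × (F ≃ₐ[k] F) //
        act z.2 w = w ∧ ∀ y, x (z.2 (z.1 y)) = z.1 y} : ℤ) = 0)
    (hcl : ∀ x : DC F, (∃ j, p ^ j • x = 0) → x ∈ AddSubgroup.closure
      {y : DC F | (∀ g : F ≃ₐ[k] F, sb g y = y) ∨ ∃ w : HeightOneSpectrum (𝓞 F),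
        ¬ Unramified T (w.under (𝓞 k)) ∧ ∀ g : F ≃ₐ[k] F, act g w = w → sb g y = y}) (e : ℕ) :
    ∑ i, a i * (padicValNat p (Nat.card {c : ClassGroup (𝓞 (M i)) // c ^ (p ^ e) = 1}) : ℤ) = 0 := by
  classical
  obtain ⟨S, h1, h2⟩ := sqr_comp (k := k) (k' := F) (F := T) (F' := B) (adj_swap htop)
    (by rw [hn]; exact (Nat.Coprime.pow_right _ hc).symm)
  have hG : (Nat.card (F ≃ₐ[k] F)).Coprime p := by
    rw [IsGalois.card_aut_eq_finrank]
    exact hc
  have hTB : IsGalois T B := gal_comp (k := k) (k' := F) (F := T) (F' := B) (adj_swap htop)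
  -- the lifts
  choose t ht using S.ext
  let σ : (F ≃ₐ[k] F) →* (B ≃ₐ[T] B) := MonoidHom.mk' t fun g g' => by
    have h3 : (t g * t g')⁻¹ * t (g * g') = 1 := by
      apply S.inj
      intro x
      change (t g * t g').symm (t (g * g') (algebraMap F B x)) = _
      rw [AlgEquiv.symm_apply_eq, ht]
      change _ = t g (t g' (algebraMap F B x))
      rw [ht, ht]
      rfl
    rw [inv_mul_eq_one] at h3
    exact h3.symm
  have hσ : ∀ (g : F ≃ₐ[k] F) (x : F), σ g (algebraMap F B x) = algebraMap F B (g x) := ht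
  have hσu : ∀ (g : B ≃ₐ[T] B) (h : F ≃ₐ[k] F),
      (∀ x, g (algebraMap F B x) = algebraMap F B (h x)) → g = σ h := by
    intro g h hg
    have h3 : (σ h)⁻¹ * g = 1 := by
      apply S.inj
      intro x
      change (σ h).symm (g (algebraMap F B x)) = _
      rw [AlgEquiv.symm_apply_eq, hσ, hg]
    rw [inv_mul_eq_one] at h3
    exact h3.symm
  -- the groups
  let st : HeightOneSpectrum (𝓞 F) → Subgroup (F ≃ₐ[k] F) :=
    fun w => stab (MonoidHom.id (F ≃ₐ[k] F)) w
  let Ds : Set (Subgroup (F ≃ₐ[k] F)) :=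
    {D | D = ⊤ ∨ ∃ w : HeightOneSpectrum (𝓞 F), ¬ Unramified T (w.under (𝓞 k)) ∧ D = st w}
  let tt : (F ≃ₐ[k] F) →* AddMonoid.End (DC B) := tC σ
  have htt : ∀ g y, tt g y = sb (σ g) y := fun _ _ => rfl
  let SS : AddSubgroup (DC B) := (DistribMulAction.toAddMonoidHom (DC B) (p ^ e)).ker
  have hSS : ∀ y, y ∈ SS ↔ p ^ e • y = 0 := fun y => Iff.rfl
  have hSt : ∀ g, ∀ y ∈ SS, tt g y ∈ SS := by
    intro g y hy
    rw [hSS] at hy ⊢
    rw [← map_nsmul, hy, map_zero]
  let act1 : ∀ i, MulAction (F ≃ₐ[k] F) (K i →ₐ[k] F) := fun i => embAct k (K i) F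
  have hfin : ∀ i, Finite (K i →ₐ[k] F) := fun i => inferInstance
  have htr : ∀ i, ∀ u v : K i →ₐ[k] F, ∃ g : F ≃ₐ[k] F, g • u = v := by
    intro i u v
    obtain ⟨g, hg⟩ := exists_aut_gen u v
    exact ⟨g, AlgHom.ext hg⟩
  let x0 : ∀ i, K i →ₐ[k] F := fun i => IsScalarTower.toAlgHom k (K i) F
  -- the relation
  have hrel := relation (fun i => K i →ₐ[k] F) hp hG (t := tt) (S := SS) hSt
    (fun y hy => hy) inferInstance Ds (fun L _ _ _ _ hL φ hφ => by
      have hb := base_of_gen hp hG Ds (fun x hx => by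
        refine AddSubgroup.closure_mono ?_ (hcl x hx)
        rintro y (hy | ⟨w, hw, hy⟩)
        · exact ⟨⊤, Or.inl rfl, fun g _ => hy g⟩
        · exact ⟨st w, Or.inr ⟨w, hw, rfl⟩, hy⟩) (L := L) hL
      have hv := vanish_gal (L := L) hp hp2 hG
        (fun x hx => no_fixed (hL ⊤ (Or.inl rfl)) fun g _ => hx g) n k T F B htop hn hc
        (MonoidHom.id (F ≃ₐ[k] F)) σ hσ
        (fun w hw x hx => no_fixed (hL (st w) (Or.inr ⟨w, hw, rfl⟩)) hx) hb
      ext x
      exact hv φ (fun g x => hφ.1 g x) x ⟨e, hφ.2 x⟩) a (fun D hD x => by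
      rcases hD with rfl | ⟨w, hw, rfl⟩
      · have h3 : ∀ i, ∑ d ∈ DD (⊤ : Subgroup (F ≃ₐ[k] F)),
            (Nat.card {y : K i →ₐ[k] F // (x * d) • y = y} : ℤ) = (Nat.card (F ≃ₐ[k] F) : ℤ) := by
          intro i
          have : Nonempty (K i →ₐ[k] F) := ⟨x0 i⟩
          rw [← Nat.cast_sum, sum_fix (htr i) x]
        rw [Finset.sum_congr rfl fun i _ => by rw [h3 i], ← Finset.sum_mul, ha0, zero_mul]
      · rw [← ha w hw x]
        refine Finset.sum_congr rfl fun i _ => ?_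
        rw [← Nat.cast_sum, ← card_pairs (st w) x]
        congr 2
        refine Nat.card_congr (Equiv.subtypeEquivRight fun z => ?_)
        refine and_congr Iff.rfl ?_
        rw [DFunLike.ext_iff]
        rfl)
  rw [← hrel]
  refine Finset.sum_congr rfl fun i _ => ?_
  congr 3
  -- the fixed classes
  have hMB : IsGalois (M i) B := IsGalois.tower_top_of_isGalois T (M i) B
  have hMc : (Module.finrank (M i) B).Coprime p := by
    refine Nat.Coprime.coprime_dvd_left ?_ hc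
    rw [← h1]
    exact ⟨_, ((mul_comm _ _).trans (Module.finrank_mul_finrank T (M i) B)).symm⟩
  rw [card_tors, card_fix_tors (E := B) hMc, card_EF_trans tt SS hSt (x0 i) (htr i (x0 i))]
  refine Nat.card_congr (Equiv.subtypeEquivRight fun y => and_congr Iff.rfl ?_)
  have hstab : ∀ g : F ≃ₐ[k] F, g • x0 i = x0 i ↔
      ∀ x : K i, g (algebraMap (K i) F x) = algebraMap (K i) F x := by
    intro g
    rw [DFunLike.ext_iff]
    rfl
  constructor
  · intro hy g hg
    rw [hstab] at hg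
    have h3 : ∀ x : M i, σ g (algebraMap (M i) B x) = algebraMap (M i) B x := by
      rw [hM]
      intro x
      rw [hσ, hg]
    let g' : B ≃ₐ[M i] B := { (σ g) with commutes' := h3 }
    rw [htt]
    rw [← sb_congr (g := g') (g' := σ g) (fun x => rfl) y]
    exact hy g'
  · intro hy g
    let g1 : B ≃ₐ[T] B := g.restrictScalars T
    obtain ⟨h, hh⟩ := S.res g1
    have h3 : g1 = σ h := hσu g1 h hh
    have h4 : ∀ x : M i, g1 (algebraMap (M i) B x) = algebraMap (M i) B x := fun x => g.commutes x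
    rw [hM] at h4
    have h5 : h • x0 i = x0 i := by
      rw [hstab]
      intro x
      apply (algebraMap F B).injective
      rw [← hσ, ← h3]
      exact h4 x
    have h6 := hy h h5
    rw [htt, ← h3] at h6
    rw [sb_congr (g := g) (g' := g1) (fun x => rfl) y]
    exact h6

end Pool.Agent.H515.RD
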