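import Pool.Agent.H515.RD.Gen

/-! # Generation by fixed elements -/

set_option autoImplicit false
set_option linter.unusedSectionVars false
set_option linter.deprecated false

namespace Pool.Agent.H515.RD

open LinearMap
open Pool.Agent.H515.EQ (lift mem_of_coprime)

section
variable {G A : Type} [Group G] [Finite G] [AddCommGroup A]

/-- the induced action on a quotient -/
def tq (t : G →* AddMonoid.End A) (S' : AddSubgroup A) (hS' : ∀ g, ∀ a ∈ S', t g a ∈ S') :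
    G →* AddMonoid.End (A ⧸ S') where
  toFun g := QuotientAddGroup.map S' S' (t g : A →+ A) fun a ha => hS' g a ha
  map_one' := by
    refine DFunLike.ext _ _ fun x => ?_
    obtain ⟨a, rfl⟩ := QuotientAddGroup.mk_surjective x
    change (QuotientAddGroup.mk (t 1 a) : A ⧸ S') = _
    rw [map_one]
    rfl
  map_mul' g h := by
    refine DFunLike.ext _ _ fun x => ?_
    obtain ⟨a, rfl⟩ := QuotientAddGroup.mk_surjective x
    change (QuotientAddGroup.mk (t (g * h) a) : A ⧸ S') = _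
    rw [map_mul]
    rfl

/-- **Generation.** -/
theorem generation {p e : ℕ} (hp : p.Prime) (hG : (Nat.card G).Coprime p)
    {t : G →* AddMonoid.End A} {S : AddSubgroup A} (hSt : ∀ g, ∀ a ∈ S, t g a ∈ S)
    (hSp : ∀ a ∈ S, p ^ e • a = 0) (Ds : Set (Subgroup G))
    (hV : ∀ (L : Type) [AddCommGroup L] [DistribMulAction G L] [Module.Free ℤ L]
      [Module.Finite ℤ L], (∀ D ∈ Ds, nD L D = 0) → ∀ φ ∈ ES L t S, φ = 0)
    (S' : AddSubgroup A) (hS' : ∀ g, ∀ a ∈ S', t g a ∈ S')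
    (hfix : ∀ D ∈ Ds, ∀ a ∈ S, (∀ g ∈ D, t g a = a) → a ∈ S') : S ≤ S' := by
  classical
  have hft : Fintype G := Fintype.ofFinite G
  let t' := tq t S' hS'
  have ht' : ∀ g (a : A), t' g (QuotientAddGroup.mk a) = QuotientAddGroup.mk (t g a) :=
    fun _ _ => rfl
  let π : A →+ A ⧸ S' := QuotientAddGroup.mk' S'
  let Q : AddSubgroup (A ⧸ S') := S.map π
  have hQt : ∀ g, ∀ a ∈ Q, t' g a ∈ Q := by
    rintro g _ ⟨a, ha, rfl⟩
    exact ⟨t g a, hSt g a ha, rfl⟩
  have hQp : ∀ a ∈ Q, p ^ e • a = 0 := by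
    rintro _ ⟨a, ha, rfl⟩
    rw [← map_nsmul, hSp a ha, map_zero]
  -- no fixed elements
  have hcopD : ∀ D : Subgroup G, (DD D).card.Coprime (p ^ e) := fun D =>
    Nat.Coprime.pow_right _ (Nat.Coprime.coprime_dvd_left (card_DD D) hG)
  have hQD : ∀ D ∈ Ds, ∀ a ∈ Q, (∀ g ∈ D, t' g a = a) → a = 0 := by
    rintro D hD _ ⟨a, ha, rfl⟩ hfa
    have h1 : ∑ d ∈ DD D, t d a ∈ S' := by
      refine hfix D hD _ (S.sum_mem fun d _ => hSt d a ha) fun g hg => ?_
      rw [map_sum]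
      refine Finset.sum_bij (fun d _ => g * d) (fun d hd => ?_) (fun a _ b _ h => ?_)
        (fun b hb => ⟨g⁻¹ * b, ?_, ?_⟩) fun d _ => ?_
      · exact mem_DD.2 (D.mul_mem hg (mem_DD.1 hd))
      · exact mul_left_cancel h
      · exact mem_DD.2 (D.mul_mem (D.inv_mem hg) (mem_DD.1 hb))
      · rw [mul_inv_cancel_left]
      · rw [map_mul]
        rfl
    have h2 : (DD D).card • π a = 0 := by
      have h3 : π (∑ d ∈ DD D, t d a) = 0 := (QuotientAddGroup.eq_zero_iff _).2 h1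
      rw [map_sum] at h3
      rw [← h3, ← Finset.sum_const]
      exact Finset.sum_congr rfl fun d hd => (hfa d (mem_DD.1 hd)).symm
    exact mem_of_coprime (S := ⊥) (hcopD D) (by rw [h2]; exact zero_mem _)
      (by rw [← map_nsmul, hSp a ha, map_zero]; exact zero_mem _)
  -- no homomorphisms
  have hVQ : ∀ (L : Type) [AddCommGroup L] [DistribMulAction G L] [Module.Free ℤ L]
      [Module.Finite ℤ L], (∀ D ∈ Ds, nD L D = 0) → ∀ φ ∈ ES L t' Q, φ = 0 := by
    intro L _ _ _ _ hL φ hφ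
    let σ : S →+ A ⧸ S' := π.comp S.subtype
    obtain ⟨χ, hχ⟩ := lift σ φ (fun x => by
      obtain ⟨a, ha, hax⟩ := hφ.2 x
      exact ⟨⟨a, ha⟩, hax⟩)
    have hχ' : ∀ x, π ((χ x : S) : A) = φ x := fun x => DFunLike.congr_fun hχ x
    obtain ⟨ψ, h1, -, h2⟩ := exists_avg (e := e) hG hSt (S.subtype.comp χ) (fun x => (χ x).2)
    have h3 := hV L hL ψ h1
    ext x
    have h4 := h2 (A ⧸ S') π x ?_ ?_
    · rw [h3] at h4
      change π 0 = π ((χ x : S) : A) at h4
      rw [hχ', map_zero] at h4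
      exact h4.symm
    · intro g
      change π (t g ((χ (g⁻¹ • x) : S) : A)) = π ((χ x : S) : A)
      have h5 : π (t g ((χ (g⁻¹ • x) : S) : A)) = t' g (π ((χ (g⁻¹ • x) : S) : A)) := rfl
      rw [h5, hχ', hχ', hφ.1]
      change (t' g * t' g⁻¹) (φ x) = φ x
      rw [← map_mul, mul_inv_cancel, map_one]
      rfl
    · change p ^ e • π ((χ x : S) : A) = 0
      rw [← map_nsmul, hSp _ (χ x).2, map_zero]
  -- the regular representation
  let act1 : DistribMulAction G (G →₀ ℤ) := pAct G G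
  let J : AddSubgroup (G →₀ ℤ) := ⨆ D : Ds, AddSubgroup.closure
    {y | ∃ (g : G) (z : G →₀ ℤ), y = g • nD (G →₀ ℤ) D.1 z}
  have hJm : ∀ D ∈ Ds, ∀ (g : G) (z : G →₀ ℤ), g • nD (G →₀ ℤ) D z ∈ J := fun D hD g z =>
    (le_iSup (fun D : Ds => AddSubgroup.closure
      {y | ∃ (g : G) (z : G →₀ ℤ), y = g • nD (G →₀ ℤ) D.1 z}) ⟨D, hD⟩)
      (AddSubgroup.subset_closure ⟨g, z, rfl⟩)
  have hJind : ∀ {P : (G →₀ ℤ) → Prop}, P 0 → (∀ x y, P x → P y → P (x + y)) →
      (∀ x, P x → P (-x)) → (∀ D ∈ Ds, ∀ (g : G) (z : G →₀ ℤ), P (g • nD (G →₀ ℤ) D z)) →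
      ∀ x ∈ J, P x := by
    intro P h0 ha hn hm x hx
    let PP : AddSubgroup (G →₀ ℤ) :=
      { carrier := {x | P x}
        zero_mem' := h0
        add_mem' := fun {a b} ha' hb' => ha a b ha' hb'
        neg_mem' := fun {a} ha' => hn a ha' }
    have h1 : J ≤ PP := by
      refine iSup_le fun D => ?_
      rw [AddSubgroup.closure_le]
      rintro _ ⟨g, z, rfl⟩
      exact hm D.1 D.2 g z
    exact h1 hx
  have hJg : ∀ (g : G), ∀ x ∈ J, g • x ∈ J := by
    intro g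
    refine hJind ?_ (fun x y hx hy => ?_) (fun x hx => ?_) fun D hD h z => ?_
    · rw [smul_zero]
      exact J.zero_mem
    · rw [smul_add]
      exact J.add_mem hx hy
    · rw [smul_neg]
      exact J.neg_mem hx
    · rw [← mul_smul]
      exact hJm D hD _ z
  let _ : DistribMulAction G J := subAct J hJg
  have hSat : ∀ (g : G), ∀ x ∈ Sat J, g • x ∈ Sat J := by
    rintro g x ⟨n, hn, hnx⟩
    exact ⟨n, hn, by rw [smul_comm]; exact hJg g _ hnx⟩
  let _ : DistribMulAction G (Sat J) := subAct (Sat J) hSat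
  let _ : DistribMulAction G ((G →₀ ℤ) ⧸ Sat J) := quoAct (Sat J) hSat
  obtain ⟨fJ, mJ⟩ := free_sub J
  obtain ⟨fS, mS⟩ := free_sub (Sat J)
  obtain ⟨fC, mC⟩ := free_quo J
  obtain ⟨N, hN0, hN⟩ := sat_exp J
  have htr : ∀ D ∈ Ds, ∀ x : G, trace ℤ (G →₀ ℤ) (ac (G →₀ ℤ) x ∘ₗ nD (G →₀ ℤ) D) =
      trace ℤ J (ac J x ∘ₗ nD J D) := by
    intro D hD x
    let i' : Sat J →ₗ[ℤ] (G →₀ ℤ) := (Sat J).subtype.toIntLinearMap
    let π' : (G →₀ ℤ) →ₗ[ℤ] ((G →₀ ℤ) ⧸ Sat J) := (QuotientAddGroup.mk' (Sat J)).toIntLinearMap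
    have hIJ : J ≤ Sat J := fun x hx => ⟨1, one_ne_zero, by rw [one_smul]; exact hx⟩
    let j : J →ₗ[ℤ] Sat J := (AddSubgroup.inclusion hIJ).toIntLinearMap
    have k5 : ∀ (g : G) x, i' (g • x) = g • i' x := fun g x => rfl
    have k6 : ∀ (g : G) x, π' (g • x) = g • π' x := fun g x => rfl
    have j3 : ∀ (g : G) x, j (g • x) = g • j x := fun g x => rfl
    have h2 := trace_exact i' π' Subtype.val_injective QuotientAddGroup.mk_surjective
      (fun x hx => ⟨⟨x, (QuotientAddGroup.eq_zero_iff x).1 hx⟩, rfl⟩)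
      (fun y => (QuotientAddGroup.eq_zero_iff _).2 y.2) (ac (Sat J) x ∘ₗ nD (Sat J) D)
      (ac (G →₀ ℤ) x ∘ₗ nD (G →₀ ℤ) D) 0 (fun y => by
        rw [LinearMap.comp_apply, LinearMap.comp_apply, ac_apply, ac_apply, k5, nD_comm i' k5])
      (fun y => by
        rw [LinearMap.zero_apply, LinearMap.comp_apply, ac_apply, k6]
        have h3 : π' (nD (G →₀ ℤ) D y) = 0 := by
          refine (QuotientAddGroup.eq_zero_iff _).2 (hIJ ?_)
          have h4 := hJm D hD 1 y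
          rwa [one_smul] at h4
        rw [h3, smul_zero])
    have h3 := trace_index j (fun a b hab =>
      Subtype.ext (congrArg (fun z : Sat J => (z : G →₀ ℤ)) hab)) (N : ℤ)
      (by exact_mod_cast hN0) (fun x => ⟨⟨N • (x : G →₀ ℤ), hN x x.2⟩,
        Subtype.ext (natCast_zsmul (x : G →₀ ℤ) N).symm⟩) (ac J x ∘ₗ nD J D)
      (ac (Sat J) x ∘ₗ nD (Sat J) D) (fun y => by
        rw [LinearMap.comp_apply, LinearMap.comp_apply, ac_apply, ac_apply, j3, nD_comm j j3])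
    rw [h2, map_zero, add_zero, h3]
  have h1 := card_eq hp hG hQt hQp Ds hVQ _ (G →₀ ℤ) J rfl htr
  -- no homomorphism from `J`
  have h2 : Nat.card (ES J t' Q) = 1 := by
    refine es_bot fun φ hφ => ?_
    have h3 : ∀ x ∈ J, ∃ hx : x ∈ J, φ ⟨x, hx⟩ = 0 := by
      refine hJind ⟨J.zero_mem, ?_⟩ (fun x y hx hy => ?_) (fun x hx => ?_)
        fun D hD g z => ?_
      · exact map_zero φ
      · obtain ⟨h, hx'⟩ := hx
        obtain ⟨h', hy'⟩ := hy
        refine ⟨J.add_mem h h', ?_⟩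
        have h4 : (⟨x + y, J.add_mem h h'⟩ : J) = ⟨x, h⟩ + ⟨y, h'⟩ := rfl
        rw [h4, map_add, hx', hy', add_zero]
      · obtain ⟨h, hx'⟩ := hx
        refine ⟨J.neg_mem h, ?_⟩
        have h5 : (⟨-x, J.neg_mem h⟩ : J) = - ⟨x, h⟩ := rfl
        rw [h5, map_neg, hx', neg_zero]
      · have h4 : nD (G →₀ ℤ) D z ∈ J := by
          have h5 := hJm D hD 1 z
          rwa [one_smul] at h5
        refine ⟨hJm D hD g z, ?_⟩
        have h5 : (⟨g • nD (G →₀ ℤ) D z, hJm D hD g z⟩ : J) =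
          g • (⟨nD (G →₀ ℤ) D z, h4⟩ : J) := rfl
        rw [h5, hφ.1, hQD D hD _ (hφ.2 _) fun d hd => ?_, map_zero]
        rw [← hφ.1]
        congr 1
        apply Subtype.ext
        exact nD_fixed D z hd
    ext x
    obtain ⟨hx, h⟩ := h3 x.1 x.2
    exact h
  rw [h2, card_EF] at h1
  -- an element outside gives two equivariant functions
  intro a ha
  by_contra hna
  have hfin : Finite (EF G t' Q) := Nat.finite_of_card_ne_zero (by rw [h1]; exact one_ne_zero)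
  have hsub := (Nat.card_eq_one_iff_unique.1 h1).1
  let f1 : EF G t' Q := ⟨fun _ => 0, fun g x => (map_zero _).symm, fun x => Q.zero_mem⟩
  let f2 : EF G t' Q := ⟨fun g => t' g (π a), fun g x => by
    change t' (g * x) (π a) = t' g (t' x (π a))
    rw [map_mul]
    rfl, fun x => hQt x _ ⟨a, ha, rfl⟩⟩
  have h4 : f1 = f2 := Subsingleton.elim _ _
  have h5 : (0 : A ⧸ S') = t' 1 (π a) := congrFun (congrArg Subtype.val h4) 1
  rw [map_one] at h5
  exact hna ((QuotientAddGroup.eq_zero_iff a).1 h5.symm)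

end

end Pool.Agent.H515.RD
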