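import Pool.Agent.H515.RD.Asm
import Pool.Agent.H515.RD.Gen2
import Pool.Agent.H515.EQ.Fin

/-! # Generation of the class groups; the translation to ideals -/

set_option autoImplicit false
set_option linter.unusedSectionVars false
set_option linter.deprecated false

namespace Pool.Agent.H515.RD

open NumberField IsDedekindDomain Pool.Agent.Q5.BR Pool.Agent.Q92.AR Pool.Agent.Q106.AR
open Pool.Agent.TeamU (act mem_act)
open Pool.Agent.H515.CH (UU PP cn ri DC sb sb_mk eqv cls mr map_ne Xt cn_injective cn_sD' nmD_sD'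
  ri_eq_one under_act' cn_prinHom nb jb nb_jb nm_cn Sqr sqr_comp gal_comp)
open Pool.Agent.H515.EQ (tC mem_of_coprime)

/-- **Generation.** -/
theorem gen_types {p n : ℕ} (hp : p.Prime) (hp2 : p ≠ 2)
    {k T F B : Type} [Field k] [NumberField k] [Field T] [NumberField T] [Field F] [NumberField F]
    [Field B] [NumberField B] [Algebra k T] [Algebra k F] [Algebra k B] [Algebra T B] [Algebra F B]
    [IsScalarTower k T B] [IsScalarTower k F B] [IsGalois k T] [IsGalois k F]
    (htop : IntermediateField.adjoin F (Set.range (algebraMap T B)) = ⊤)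
    (hn : Module.finrank k T = p ^ n) (hc : (Module.finrank k F).Coprime p)
    (hcl : ∀ x : DC F, (∃ j, p ^ j • x = 0) → x ∈ AddSubgroup.closure
      {y : DC F | (∀ g : F ≃ₐ[k] F, sb g y = y) ∨ ∃ w : HeightOneSpectrum (𝓞 F),
        ¬ Unramified T (w.under (𝓞 k)) ∧ ∀ g : F ≃ₐ[k] F, act g w = w → sb g y = y}) (e : ℕ)
    (y : DC B) (hy : p ^ e • y = 0) : y ∈ AddSubgroup.closure
      {y : DC B | (∀ g : B ≃ₐ[T] B, sb g y = y) ∨ ∃ w : HeightOneSpectrum (𝓞 F),
        ¬ Unramified T (w.under (𝓞 k)) ∧ ∀ (g : B ≃ₐ[T] B) (h : F ≃ₐ[k] F),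
          (∀ x, g (algebraMap F B x) = algebraMap F B (h x)) → act h w = w → sb g y = y} := by
  classical
  obtain ⟨S, h1, h2⟩ := sqr_comp (k := k) (k' := F) (F := T) (F' := B) (adj_swap htop)
    (by rw [hn]; exact (Nat.Coprime.pow_right _ hc).symm)
  have hG : (Nat.card (F ≃ₐ[k] F)).Coprime p := by
    rw [IsGalois.card_aut_eq_finrank]
    exact hc
  have hTB : IsGalois T B := gal_comp (k := k) (k' := F) (F := T) (F' := B) (adj_swap htop)
  -- the lifts
  choose t ht using S.ext
  let σ : (F ≃ₐ[k] F) →* (B ≃ₐ[T] B) := MonoidHom.mk' t fun g g' => by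
    have h3 : (t g * t g')⁻¹ * t (g * g') = 1 := by
      apply S.inj
      intro x
      change (t g * t g').symm (t (g * g') (algebraMap F B x)) = _
      rw [AlgEquiv.symm_apply_eq, ht]
      change _ = t g (t g' (algebraMap F B x))
      rw [ht, ht]
      rfl
    rw [inv_mul_eq_one] at h3
    exact h3.symm
  have hσ : ∀ (g : F ≃ₐ[k] F) (x : F), σ g (algebraMap F B x) = algebraMap F B (g x) := ht
  have hσu : ∀ (g : B ≃ₐ[T] B) (h : F ≃ₐ[k] F),
      (∀ x, g (algebraMap F B x) = algebraMap F B (h x)) → g = σ h := by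
    intro g h hg
    have h3 : (σ h)⁻¹ * g = 1 := by
      apply S.inj
      intro x
      change (σ h).symm (g (algebraMap F B x)) = _
      rw [AlgEquiv.symm_apply_eq, hσ, hg]
    rw [inv_mul_eq_one] at h3
    exact h3.symm
  -- the groups
  let st : HeightOneSpectrum (𝓞 F) → Subgroup (F ≃ₐ[k] F) :=
    fun w => stab (MonoidHom.id (F ≃ₐ[k] F)) w
  have hst : ∀ w g, g ∈ st w ↔ act g w = w := fun w g => Iff.rfl
  let Ds : Set (Subgroup (F ≃ₐ[k] F)) :=
    {D | D = ⊤ ∨ ∃ w : HeightOneSpectrum (𝓞 F), ¬ Unramified T (w.under (𝓞 k)) ∧ D = st w}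
  let tt : (F ≃ₐ[k] F) →* AddMonoid.End (DC B) := tC σ
  have htt : ∀ g y, tt g y = sb (σ g) y := fun _ _ => rfl
  let SS : AddSubgroup (DC B) := (DistribMulAction.toAddMonoidHom (DC B) (p ^ e)).ker
  have hSS : ∀ y, y ∈ SS ↔ p ^ e • y = 0 := fun y => Iff.rfl
  have hSt : ∀ g, ∀ y ∈ SS, tt g y ∈ SS := by
    intro g y hy
    rw [hSS] at hy ⊢
    rw [← map_nsmul, hy, map_zero]
  have key := generation hp hG (t := tt) (S := SS) hSt (fun y hy => hy) Ds (fun L _ _ _ _ hL φ hφ => by
      have hb := base_of_gen hp hG Ds (fun x hx => by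
        refine AddSubgroup.closure_mono ?_ (hcl x hx)
        rintro y (hy | ⟨w, hw, hy⟩)
        · exact ⟨⊤, Or.inl rfl, fun g _ => hy g⟩
        · exact ⟨st w, Or.inr ⟨w, hw, rfl⟩, hy⟩) (L := L) hL
      have hv := vanish_gal (L := L) hp hp2 hG
        (fun x hx => no_fixed (hL ⊤ (Or.inl rfl)) fun g _ => hx g) n k T F B htop hn hc
        (MonoidHom.id (F ≃ₐ[k] F)) σ hσ
        (fun w hw x hx => no_fixed (hL (st w) (Or.inr ⟨w, hw, rfl⟩)) hx) hb
      ext x
      exact hv φ (fun g x => hφ.1 g x) x ⟨e, hφ.2 x⟩)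
    (AddSubgroup.closure
      {y : DC B | (∀ g : B ≃ₐ[T] B, sb g y = y) ∨ ∃ w : HeightOneSpectrum (𝓞 F),
        ¬ Unramified T (w.under (𝓞 k)) ∧ ∀ (g : B ≃ₐ[T] B) (h : F ≃ₐ[k] F),
          (∀ x, g (algebraMap F B x) = algebraMap F B (h x)) → act h w = w → sb g y = y}) ?_ ?_
  · exact key hy
  · intro g a ha
    induction ha using AddSubgroup.closure_induction with
    | mem x hx =>
      rcases hx with hx | ⟨w, hw, hx⟩
      · rw [htt, hx (σ g)]
        exact AddSubgroup.subset_closure (Or.inl hx)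
      · refine AddSubgroup.subset_closure (Or.inr ⟨act g w, ?_, fun g' h hg hh => ?_⟩)
        · have e1 : (act g w).under (𝓞 k) = w.under (𝓞 k) :=
            Pool.Agent.Q225.AR.under_act _ _
          rw [e1]
          exact hw
        · have h3 : g' = σ h := hσu g' h hg
          rw [h3, ← htt]
          have h4 : act (g⁻¹ * h * g) w = w := by
            rw [Pool.Agent.TeamU.act_mul, Pool.Agent.TeamU.act_mul, hh,
              ← Pool.Agent.TeamU.act_mul, inv_mul_cancel, Pool.Agent.TeamU.act_one]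
          have h5 := hx (σ (g⁻¹ * h * g)) (g⁻¹ * h * g) (hσ _) h4
          rw [← htt] at h5
          have h6 : (tt h * tt g) x = tt g (tt (g⁻¹ * h * g) x) := by
            change _ = (tt g * tt (g⁻¹ * h * g)) x
            rw [← map_mul, ← map_mul, mul_assoc, mul_inv_cancel_left]
          rw [h5] at h6
          exact h6
    | zero => rw [map_zero]; exact zero_mem _
    | add x y _ _ hx hy => rw [map_add]; exact add_mem hx hy
    | neg x _ hx => rw [map_neg]; exact neg_mem hx
  · rintro D (rfl | ⟨w, hw, rfl⟩) a ha hfa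
    · refine AddSubgroup.subset_closure (Or.inl fun g => ?_)
      obtain ⟨h, hh⟩ := S.res g
      rw [hσu g h hh, ← htt]
      exact hfa h (Subgroup.mem_top _)
    · refine AddSubgroup.subset_closure (Or.inr ⟨w, hw, fun g h hg hh => ?_⟩)
      rw [hσu g h hg, ← htt]
      exact hfa h ((hst w h).2 hh)

/-- the automorphism `g` fixes the class `c` -/
def Fix {M : Type} [Field M] [NumberField M] (g : M →+* M) (c : ClassGroup (𝓞 M)) : Prop :=
  ∀ I J : nonZeroDivisors (Ideal (𝓞 M)),
    (J : Ideal (𝓞 M)) = Ideal.map (RingOfIntegers.mapRingHom g) I →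
      ClassGroup.mk0 I = c → ClassGroup.mk0 J = c

/-- the class as a class of divisors -/
noncomputable def dcl {M : Type} [Field M] [NumberField M] (c : ClassGroup (𝓞 M)) : DC M :=
  (eqv M).symm (Additive.ofMul c)

theorem dcl_mk0 {M : Type} [Field M] [NumberField M] (I : nonZeroDivisors (Ideal (𝓞 M))) :
    dcl (ClassGroup.mk0 I) = QuotientAddGroup.mk (dvI (I : Ideal (𝓞 M))) := by
  rw [dcl, Pool.Agent.H515.EQ.ofMul_mk0, AddEquiv.symm_apply_apply]

theorem dcl_inj {M : Type} [Field M] [NumberField M] {c d : ClassGroup (𝓞 M)}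
    (h : dcl c = dcl d) : c = d :=
  Additive.ofMul.injective ((eqv M).symm.injective h)

theorem dcl_surj {M : Type} [Field M] [NumberField M] (y : DC M) : ∃ c, dcl c = y :=
  ⟨(eqv M y).toMul, (eqv M).symm_apply_apply y⟩

theorem dcl_mul {M : Type} [Field M] [NumberField M] (c d : ClassGroup (𝓞 M)) :
    dcl (c * d) = dcl c + dcl d := (eqv M).symm.map_add _ _

theorem dcl_one {M : Type} [Field M] [NumberField M] : dcl (1 : ClassGroup (𝓞 M)) = 0 :=
  (eqv M).symm.map_zero

theorem dcl_inv {M : Type} [Field M] [NumberField M] (c : ClassGroup (𝓞 M)) :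
    dcl c⁻¹ = - dcl c := (eqv M).symm.map_neg _

theorem dcl_pow {M : Type} [Field M] [NumberField M] (c : ClassGroup (𝓞 M)) (m : ℕ) :
    dcl (c ^ m) = m • dcl c := (eqv M).symm.toAddMonoidHom.map_nsmul _ _

theorem fix_iff {k M : Type} [Field k] [NumberField k] [Field M] [NumberField M] [Algebra k M]
    (g : M ≃ₐ[k] M) (c : ClassGroup (𝓞 M)) : Fix (g : M →+* M) c ↔ sb g (dcl c) = dcl c := by
  constructor
  · intro h
    obtain ⟨I, hI⟩ := ClassGroup.mk0_surjective c
    have hI0 : (I : Ideal (𝓞 M)) ≠ ⊥ := nonZeroDivisors.ne_zero I.2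
    have h1 := h I ⟨_, mem_nonZeroDivisors_of_ne_zero (map_ne (g : M →+* M) hI0)⟩ rfl hI
    have h2 := congrArg dcl h1
    rw [dcl_mk0] at h2
    rw [← hI, dcl_mk0, sb_mk, ← Pool.Agent.H515.CH.dvI_map _ _ hI0]
    rw [← hI, dcl_mk0] at h2
    exact h2
  · intro h I J hJ hI
    have hI0 : (I : Ideal (𝓞 M)) ≠ ⊥ := nonZeroDivisors.ne_zero I.2
    apply dcl_inj
    rw [dcl_mk0, hJ, Pool.Agent.H515.CH.dvI_map _ _ hI0, ← sb_mk, ← dcl_mk0, hI, h]

theorem clo {M : Type} [Field M] [NumberField M] {P : ClassGroup (𝓞 M) → Prop}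
    {Q : DC M → Prop} (h : ∀ c, P c ↔ Q (dcl c)) (c : ClassGroup (𝓞 M)) :
    c ∈ Subgroup.closure {c | P c} ↔ dcl c ∈ AddSubgroup.closure {y | Q y} := by
  constructor
  · intro hc
    induction hc using Subgroup.closure_induction with
    | mem x hx => exact AddSubgroup.subset_closure ((h x).1 hx)
    | one => rw [dcl_one]; exact zero_mem _
    | mul x y _ _ hx hy => rw [dcl_mul]; exact add_mem hx hy
    | inv x _ hx => rw [dcl_inv]; exact neg_mem hx
  · intro hc
    have key : ∀ y ∈ AddSubgroup.closure {y | Q y}, ∀ c, dcl c = y →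
        c ∈ Subgroup.closure {c | P c} := by
      intro y hy
      induction hy using AddSubgroup.closure_induction with
      | mem x hx =>
        rintro c rfl
        exact Subgroup.subset_closure ((h c).2 hx)
      | zero =>
        intro c hc
        have : c = 1 := dcl_inj (by rw [hc, dcl_one])
        rw [this]
        exact one_mem _
      | add x y _ _ hx hy =>
        intro c hc
        obtain ⟨c1, h1⟩ := dcl_surj x
        obtain ⟨c2, h2⟩ := dcl_surj y
        have : c = c1 * c2 := dcl_inj (by rw [hc, dcl_mul, h1, h2])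
        rw [this]
        exact mul_mem (hx c1 h1) (hy c2 h2)
      | neg x _ hx =>
        intro c hc
        obtain ⟨c1, h1⟩ := dcl_surj x
        have : c = c1⁻¹ := dcl_inj (by rw [hc, dcl_inv, h1])
        rw [this]
        exact inv_mem (hx c1 h1)
    exact key _ hc c rfl

end Pool.Agent.H515.RD
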