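import Mathlib

/-! # Traces on lattices with an action of a finite group -/

set_option autoImplicit false
set_option linter.unusedSectionVars false
set_option linter.deprecated false

namespace Pool.Agent.H515.RD

open LinearMap

section
variable {K L I : Type} [AddCommGroup K] [AddCommGroup L] [AddCommGroup I]
  [Module.Free ℤ K] [Module.Finite ℤ K] [Module.Free ℤ L] [Module.Finite ℤ L]
  [Module.Free ℤ I] [Module.Finite ℤ I]

/-- a splitting of a short exact sequence -/
theorem exists_split (i : K →ₗ[ℤ] L) (π : L →ₗ[ℤ] I) (hi : Function.Injective i)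
    (hπ : Function.Surjective π) (hex : ∀ x, π x = 0 → ∃ y, i y = x) (hz : ∀ y, π (i y) = 0) :
    ∃ (s : I →ₗ[ℤ] L) (r : L →ₗ[ℤ] K), (∀ y, π (s y) = y) ∧ (∀ y, r (i y) = y) ∧
      (∀ y, r (s y) = 0) ∧ ∀ x, i (r x) + s (π x) = x := by
  obtain ⟨s, hs⟩ := Module.projective_lifting_property π LinearMap.id hπ
  have hs' : ∀ y, π (s y) = y := fun y => LinearMap.congr_fun hs y
  have h1 : ∀ x, ∃ y, i y = x - s (π x) := fun x => hex _ (by rw [map_sub, hs', sub_self])
  choose r0 hr0 using h1
  let r : L →ₗ[ℤ] K :=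
    { toFun := r0
      map_add' := fun x y => by
        apply hi
        rw [map_add, hr0, hr0, hr0, map_add, map_add]
        abel
      map_smul' := fun c x => by
        apply hi
        rw [map_smul, hr0, hr0, map_smul, map_smul, smul_sub]
        rfl }
  have hr : ∀ x, i (r x) = x - s (π x) := hr0
  refine ⟨s, r, hs', fun y => hi ?_, fun y => hi ?_, fun x => ?_⟩
  · rw [hr, hz, map_zero, sub_zero]
  · rw [hr, hs', sub_self, map_zero]
  · rw [hr, sub_add_cancel]

theorem trace_exact (i : K →ₗ[ℤ] L) (π : L →ₗ[ℤ] I) (hi : Function.Injective i)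
    (hπ : Function.Surjective π) (hex : ∀ x, π x = 0 → ∃ y, i y = x) (hz : ∀ y, π (i y) = 0)
    (fK : K →ₗ[ℤ] K) (fL : L →ₗ[ℤ] L) (fI : I →ₗ[ℤ] I) (h1 : ∀ x, fL (i x) = i (fK x))
    (h2 : ∀ x, π (fL x) = fI (π x)) :
    trace ℤ L fL = trace ℤ K fK + trace ℤ I fI := by
  obtain ⟨s, r, a1, a2, a3, a4⟩ := exists_split i π hi hπ hex hz
  have e0 : fL = (fL ∘ₗ i) ∘ₗ r + (fL ∘ₗ s) ∘ₗ π := by
    ext x
    change fL x = fL (i (r x)) + fL (s (π x))
    rw [← map_add, a4]
  have e1 : trace ℤ L ((fL ∘ₗ i) ∘ₗ r) = trace ℤ K fK := by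
    rw [LinearMap.trace_comp_comm' r (fL ∘ₗ i)]
    congr 1
    ext x
    change r (fL (i x)) = fK x
    rw [h1, a2]
  have e2 : trace ℤ L ((fL ∘ₗ s) ∘ₗ π) = trace ℤ I fI := by
    rw [LinearMap.trace_comp_comm' π (fL ∘ₗ s)]
    congr 1
    ext x
    change π (fL (s x)) = fI x
    rw [h2, a1]
  rw [e0, map_add, e1, e2]

theorem trace_index (j : L →ₗ[ℤ] I) (hj : Function.Injective j) (N : ℤ) (hN : N ≠ 0)
    (hr : ∀ y, ∃ x, j x = N • y) (fL : L →ₗ[ℤ] L) (fI : I →ₗ[ℤ] I)
    (h1 : ∀ x, fI (j x) = j (fL x)) : trace ℤ I fI = trace ℤ L fL := by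
  choose k0 hk0 using hr
  let k : I →ₗ[ℤ] L :=
    { toFun := k0
      map_add' := fun x y => by
        apply hj
        rw [map_add, hk0, hk0, hk0, smul_add]
      map_smul' := fun c x => by
        apply hj
        rw [map_smul, hk0, hk0, RingHom.id_apply, smul_comm] }
  have hk : ∀ y, j (k y) = N • y := hk0
  have hk' : ∀ x, k (j x) = N • x := fun x => hj (by rw [hk, map_smul])
  have e1 : N • trace ℤ I fI = N • trace ℤ L fL := by
    rw [← map_smul, ← map_smul]
    have h2 : N • fI = (j ∘ₗ fL) ∘ₗ k := by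
      ext y
      change N • fI y = j (fL (k y))
      rw [← h1, hk, map_smul]
    have h3 : N • fL = k ∘ₗ (j ∘ₗ fL) := by
      ext y
      change N • fL y = k (j (fL y))
      rw [hk']
    rw [h2, h3, LinearMap.trace_comp_comm']
  exact smul_right_injective ℤ hN e1

end

section
variable {L M X : Type} [AddCommGroup L] [AddCommGroup M] [Module.Free ℤ L] [Module.Finite ℤ L]
  [Module.Free ℤ M] [Module.Finite ℤ M]

theorem trace_orth (s : Finset X) (A : X → M →ₗ[ℤ] M) (B : X → L →ₗ[ℤ] L)
    (h : ∀ (u : L →ₗ[ℤ] M) (y : L), ∑ x ∈ s, A x (u (B x y)) = 0) :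
    ∑ x ∈ s, trace ℤ M (A x) * trace ℤ L (B x) = 0 := by
  classical
  let b := Module.Free.chooseBasis ℤ L
  let c := Module.Free.chooseBasis ℤ M
  have hA : ∀ x, trace ℤ M (A x) = ∑ i, c.repr (A x (c i)) i := by
    intro x
    rw [LinearMap.trace_eq_matrix_trace ℤ c, Matrix.trace]
    exact Finset.sum_congr rfl fun i _ => by rw [Matrix.diag_apply, LinearMap.toMatrix_apply]
  have hB : ∀ x, trace ℤ L (B x) = ∑ i, b.repr (B x (b i)) i := by
    intro x
    rw [LinearMap.trace_eq_matrix_trace ℤ b, Matrix.trace]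
    exact Finset.sum_congr rfl fun i _ => by rw [Matrix.diag_apply, LinearMap.toMatrix_apply]
  have h1 : ∀ i j, ∑ x ∈ s, c.repr (A x (c i)) i * b.repr (B x (b j)) j = 0 := by
    intro i j
    have h2 := h ((b.coord j).smulRight (c i)) (b j)
    have h3 := congrArg (fun z => c.repr z i) h2
    simp only [map_sum, map_zero, Finsupp.coe_finset_sum, Finset.sum_apply,
      LinearMap.smulRight_apply, map_smul, Finsupp.coe_smul, Pi.smul_apply, smul_eq_mul,
      Finsupp.coe_zero, Pi.zero_apply, Module.Basis.coord_apply] at h3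
    rw [← h3]
    exact Finset.sum_congr rfl fun x _ => mul_comm _ _
  calc ∑ x ∈ s, trace ℤ M (A x) * trace ℤ L (B x)
      = ∑ x ∈ s, ∑ i, ∑ j, c.repr (A x (c i)) i * b.repr (B x (b j)) j := by
        refine Finset.sum_congr rfl fun x _ => ?_
        rw [hA, hB, Finset.sum_mul_sum]
    _ = ∑ i, ∑ j, ∑ x ∈ s, c.repr (A x (c i)) i * b.repr (B x (b j)) j := by
        rw [Finset.sum_comm]
        exact Finset.sum_congr rfl fun i _ => Finset.sum_comm
    _ = 0 := Finset.sum_eq_zero fun i _ => Finset.sum_eq_zero fun j _ => h1 i j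

end

section
variable {G L : Type} [Group G] [Finite G] [AddCommGroup L] [DistribMulAction G L]

/-- the action of `g` -/
def ac (L : Type) [AddCommGroup L] [DistribMulAction G L] (g : G) : L →ₗ[ℤ] L :=
  (DistribMulAction.toAddMonoidHom L g).toIntLinearMap

theorem ac_apply (g : G) (x : L) : ac L g x = g • x := rfl

theorem ac_mul (g h : G) : ac L (g * h) = ac L g ∘ₗ ac L h := by
  ext x
  exact mul_smul g h x

/-- the elements of a subgroup -/
noncomputable def DD (D : Subgroup G) : Finset G := (Set.toFinite (D : Set G)).toFinset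

theorem mem_DD {D : Subgroup G} {g : G} : g ∈ DD D ↔ g ∈ D := by
  unfold DD
  rw [Set.Finite.mem_toFinset]
  rfl

/-- the norm element of a subgroup -/
noncomputable def nD (L : Type) [AddCommGroup L] [DistribMulAction G L] (D : Subgroup G) :
    L →ₗ[ℤ] L := ∑ d ∈ DD D, ac L d

theorem nD_apply (D : Subgroup G) (x : L) : nD L D x = ∑ d ∈ DD D, d • x := by
  unfold nD
  rw [LinearMap.sum_apply]
  rfl

theorem nD_fixed (D : Subgroup G) (x : L) {g : G} (hg : g ∈ D) : g • nD L D x = nD L D x := by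
  rw [nD_apply, Finset.smul_sum]
  refine Finset.sum_bij (fun d _ => g * d) (fun d hd => ?_) (fun a _ b _ h => ?_)
    (fun b hb => ⟨g⁻¹ * b, ?_, ?_⟩) fun d _ => ?_
  · exact mem_DD.2 (D.mul_mem hg (mem_DD.1 hd))
  · exact mul_left_cancel h
  · exact mem_DD.2 (D.mul_mem (D.inv_mem hg) (mem_DD.1 hb))
  · rw [mul_inv_cancel_left]
  · rw [mul_smul]

theorem nD_of_fixed (D : Subgroup G) {x : L} (h : ∀ g ∈ D, g • x = x) :
    nD L D x = (DD D).card • x := by
  rw [nD_apply, Finset.sum_congr rfl fun d hd => h d (mem_DD.1 hd), Finset.sum_const]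

theorem card_DD_pos (D : Subgroup G) : 0 < (DD D).card :=
  Finset.card_pos.2 ⟨1, mem_DD.2 D.one_mem⟩

theorem nD_nD (D : Subgroup G) (x : L) : nD L D (nD L D x) = (DD D).card • nD L D x :=
  nD_of_fixed D fun _ hg => nD_fixed D x hg

end

section
variable {G L M : Type} [Group G] [Finite G] [AddCommGroup L] [Module.Free ℤ L]
  [Module.Finite ℤ L] [DistribMulAction G L] [AddCommGroup M] [Module.Free ℤ M]
  [Module.Finite ℤ M] [DistribMulAction G M]

/-- the trace of the norm element is zero only if there are no invariants -/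
theorem nD_zero_of_trace (D : Subgroup G) (h : trace ℤ L (nD L D) = 0) : nD L D = 0 := by
  let N := nD L D
  have h1 := trace_exact (K := LinearMap.ker N) (L := L) (I := LinearMap.range N)
    (LinearMap.ker N).subtype N.rangeRestrict (Submodule.subtype_injective _)
    (LinearMap.surjective_rangeRestrict N)
    (fun x hx => ⟨⟨x, by
      rw [LinearMap.mem_ker]
      exact congrArg Subtype.val hx⟩, rfl⟩)
    (fun y => Subtype.ext (LinearMap.mem_ker.1 y.2)) 0 N (((DD D).card : ℤ) • LinearMap.id)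
    (fun x => by
      change N x.1 = ((0 : LinearMap.ker N) : L)
      rw [LinearMap.mem_ker.1 x.2]
      rfl)
    (fun x => by
      apply Subtype.ext
      change nD L D (nD L D x) = ((((DD D).card : ℤ) • (N.rangeRestrict x) : LinearMap.range N) : L)
      rw [nD_nD, Submodule.coe_smul, natCast_zsmul]
      rfl)
  rw [map_zero, zero_add, map_smul, LinearMap.trace_id] at h1
  change trace ℤ L (nD L D) = _ at h1
  rw [h, smul_eq_mul] at h1
  have h2 : ((DD D).card : ℤ) ≠ 0 := by exact_mod_cast (card_DD_pos D).ne'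
  have h3 : (Module.finrank ℤ (LinearMap.range N) : ℤ) = 0 := by
    rcases mul_eq_zero.1 h1.symm with h | h
    · exact absurd h h2
    · exact h
  have h4 : Module.finrank ℤ (LinearMap.range N) = 0 := by exact_mod_cast h3
  have h5 : LinearMap.range N = ⊥ := by
    rw [← Submodule.finrank_eq_zero (R := ℤ)]
    exact h4
  exact LinearMap.range_eq_bot.1 h5

/-- the trace of the inverse -/
theorem trace_inv (g : G) : trace ℤ L (ac L g⁻¹) = trace ℤ L (ac L g) := by
  classical
  have hft : Fintype G := Fintype.ofFinite G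
  let b := Module.Free.chooseBasis ℤ L
  let β : L →ₗ[ℤ] Module.Dual ℤ L :=
    ∑ h : G, ∑ i, ((b.coord i) ∘ₗ ac L h).smulRight ((b.coord i) ∘ₗ ac L h)
  have hβ : ∀ x y, β x y = ∑ h : G, ∑ i, b.coord i (h • x) * b.coord i (h • y) := by
    intro x y
    simp only [β, LinearMap.sum_apply, LinearMap.smulRight_apply, LinearMap.smul_apply,
      LinearMap.comp_apply, ac_apply, smul_eq_mul]
  have hinj : Function.Injective β := by
    rw [injective_iff_map_eq_zero]
    intro x hx
    have h1 : β x x = 0 := by rw [hx]; rfl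
    rw [hβ] at h1
    have h2 := (Finset.sum_eq_zero_iff_of_nonneg fun h _ => Finset.sum_nonneg fun i _ =>
      mul_self_nonneg _).1 h1 1 (Finset.mem_univ _)
    have h3 := (Finset.sum_eq_zero_iff_of_nonneg fun i _ => mul_self_nonneg _).1 h2
    apply b.repr.injective
    ext i
    have h4 := mul_self_eq_zero.1 (h3 i (Finset.mem_univ _))
    rw [one_smul] at h4
    rw [map_zero]
    exact h4
  have hrank : Module.finrank ℤ (LinearMap.range β) = Module.finrank ℤ (Module.Dual ℤ L) := by
    rw [LinearMap.finrank_range_of_inj hinj]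
    exact (Module.finrank_linearMap_self ℤ ℤ L).symm
  have hfin : Finite (Module.Dual ℤ L ⧸ LinearMap.range β) :=
    Submodule.finiteQuotientOfFreeOfRankEq _ hrank
  have h1 := trace_index β hinj (Nat.card (Module.Dual ℤ L ⧸ LinearMap.range β) : ℤ)
    (by exact_mod_cast Nat.card_pos.ne') (fun φ => by
      have h2 : (Nat.card (Module.Dual ℤ L ⧸ LinearMap.range β) : ℤ) •
          (Submodule.Quotient.mk φ : Module.Dual ℤ L ⧸ LinearMap.range β) = 0 := by
        rw [natCast_zsmul]
        exact card_nsmul_eq_zero'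
      rw [← Submodule.Quotient.mk_smul, Submodule.Quotient.mk_eq_zero] at h2
      exact h2) (ac L g⁻¹) (Module.Dual.transpose (R := ℤ) (ac L g)) (fun x => by
      ext y
      change β x (g • y) = β (g⁻¹ • x) y
      rw [hβ, hβ]
      refine Fintype.sum_equiv (Equiv.mulRight g) _ _ fun h => ?_
      refine Finset.sum_congr rfl fun i _ => ?_
      change _ = b.coord i ((h * g) • g⁻¹ • x) * b.coord i ((h * g) • y)
      rw [mul_smul, mul_smul, smul_inv_smul])
  rw [← h1, LinearMap.trace_transpose']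

/-- **The main step**: two lattices with the same traces on the ideal of `D`, the first one with
`D`-invariants, are not disjoint. -/
theorem exists_hom (D : Subgroup G) (h : ∀ x : G, trace ℤ L (ac L x ∘ₗ nD L D) =
    trace ℤ M (ac M x ∘ₗ nD M D)) (hD : nD L D ≠ 0) :
    ∃ u : L →ₗ[ℤ] M, (∀ (g : G) (x : L), u (g • x) = g • u x) ∧ u ≠ 0 := by
  classical
  have hft : Fintype G := Fintype.ofFinite G
  by_contra hcon
  push Not at hcon
  have h1 := trace_orth (L := L) (M := M) (Finset.univ : Finset G)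
    (fun x => ac M x ∘ₗ nD M D) (fun x => nD L D ∘ₗ ac L x⁻¹) fun u y => by
      let v : L →ₗ[ℤ] M := ∑ x : G, (ac M x ∘ₗ nD M D) ∘ₗ u ∘ₗ (nD L D ∘ₗ ac L x⁻¹)
      have hv : ∀ y, v y = ∑ x : G, x • nD M D (u (nD L D (x⁻¹ • y))) := by
        intro y
        simp only [v, LinearMap.sum_apply, LinearMap.comp_apply, ac_apply]
      have hv0 := hcon v fun g x => by
        rw [hv, hv, Finset.smul_sum]
        symm
        refine Fintype.sum_equiv (Equiv.mulLeft g) _ _ fun h => ?_
        change _ = (g * h) • nD M D (u (nD L D ((g * h)⁻¹ • g • x)))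
        rw [mul_inv_rev, mul_smul, mul_smul, inv_smul_smul]
      have h2 := LinearMap.congr_fun hv0 y
      rw [hv] at h2
      exact h2
  have h2 : ∀ x : G, trace ℤ L (nD L D ∘ₗ ac L x⁻¹) = trace ℤ L (ac L x ∘ₗ nD L D) := by
    intro x
    have e1 : nD L D ∘ₗ ac L x⁻¹ = ∑ d ∈ DD D, ac L (d * x⁻¹) := by
      ext y
      rw [LinearMap.comp_apply, nD_apply, LinearMap.sum_apply]
      exact Finset.sum_congr rfl fun d _ => (mul_smul d x⁻¹ y).symm
    have e2 : ac L x ∘ₗ nD L D = ∑ d ∈ DD D, ac L (x * d) := by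
      ext y
      rw [LinearMap.comp_apply, nD_apply, LinearMap.sum_apply, ac_apply, Finset.smul_sum]
      exact Finset.sum_congr rfl fun d _ => (mul_smul x d y).symm
    rw [e1, e2, map_sum, map_sum]
    refine Finset.sum_bij (fun d _ => d⁻¹) (fun d hd => ?_) (fun a _ b _ h => ?_)
      (fun b hb => ⟨b⁻¹, ?_, ?_⟩) fun d _ => ?_
    · exact mem_DD.2 (D.inv_mem (mem_DD.1 hd))
    · exact inv_injective h
    · exact mem_DD.2 (D.inv_mem (mem_DD.1 hb))
    · exact inv_inv b
    · rw [← trace_inv, mul_inv_rev, inv_inv]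
  have h3 : ∑ x : G, trace ℤ L (ac L x ∘ₗ nD L D) * trace ℤ L (ac L x ∘ₗ nD L D) = 0 := by
    rw [← h1]
    exact Finset.sum_congr rfl fun x _ => by rw [h2, ← h]
  have h4 := (Finset.sum_eq_zero_iff_of_nonneg fun x _ => mul_self_nonneg _).1 h3 1
    (Finset.mem_univ _)
  have h5 := mul_self_eq_zero.1 h4
  apply hD
  apply nD_zero_of_trace
  rw [← h5]
  congr 1
  ext y
  rw [LinearMap.comp_apply, ac_apply, one_smul]

end

end Pool.Agent.H515.RD
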