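import Pool.Agent.H515.EQ.Asm
import Pool.Agent.H515.Ind
import Pool.Agent.H515.RD.Tr

/-! # Composita, again -/

set_option autoImplicit false
set_option linter.unusedSectionVars false
set_option linter.deprecated false

namespace Pool.Agent.H515.RD

open NumberField IsDedekindDomain Pool.Agent.Q5.BR Pool.Agent.Q92.AR Pool.Agent.Q106.AR
open Pool.Agent.TeamU (act mem_act)
open Pool.Agent.Q182.AR (upA)
open Pool.Agent.H515.CH (UU PP cn ri DC sb sb_mk eqv cls mr map_ne Xt cn_injective cn_sD'
  ri_eq_one under_act' cn_prinHom Sqr sqr_comp gal_comp unram_sq unram_top exists_normal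
  realRam_bot realRam_top)
open Pool.Agent.H515.EQ (RamHyp ClsHyp Eqv tD tD_apply lift act_comm vanish)

section
variable {k k' F F' : Type} [Field k] [Field k'] [Field F] [Field F'] [Algebra k k'] [Algebra k F]
  [Algebra k F'] [Algebra k' F'] [Algebra F F'] [IsScalarTower k k' F'] [IsScalarTower k F F']

theorem ext_comp (h : IntermediateField.adjoin F (Set.range (algebraMap k' F')) = ⊤)
    (f g : F' →+* F') (h1 : ∀ x : F, f (algebraMap F F' x) = g (algebraMap F F' x))
    (h2 : ∀ x : k', f (algebraMap k' F' x) = g (algebraMap k' F' x)) (x : F') : f x = g x := by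
  let S : IntermediateField F F' :=
    { carrier := {x | f x = g x}
      mul_mem' := fun {a b} ha hb => by
        have ha' : f a = g a := ha
        have hb' : f b = g b := hb
        change f (a * b) = g (a * b)
        rw [map_mul, map_mul, ha', hb']
      add_mem' := fun {a b} ha hb => by
        have ha' : f a = g a := ha
        have hb' : f b = g b := hb
        change f (a + b) = g (a + b)
        rw [map_add, map_add, ha', hb']
      algebraMap_mem' := h1
      inv_mem' := fun a ha => by
        have ha' : f a = g a := ha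
        change f a⁻¹ = g a⁻¹
        rw [map_inv₀, map_inv₀, ha'] }
  have h3 : IntermediateField.adjoin F (Set.range (algebraMap k' F')) ≤ S := by
    rw [IntermediateField.adjoin_le_iff]
    rintro _ ⟨y, rfl⟩
    exact h2 y
  rw [h] at h3
  exact h3 (IntermediateField.mem_top (x := x))

theorem adj_swap (h : IntermediateField.adjoin F (Set.range (algebraMap k' F')) = ⊤) :
    IntermediateField.adjoin k' (Set.range (algebraMap F F')) = ⊤ := by
  let T := IntermediateField.adjoin k' (Set.range (algebraMap F F'))
  let S : IntermediateField F F' :=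
    { carrier := (T : Set F')
      mul_mem' := fun {a b} ha hb => T.mul_mem ha hb
      add_mem' := fun {a b} ha hb => T.add_mem ha hb
      algebraMap_mem' := fun x => IntermediateField.subset_adjoin k' _ ⟨x, rfl⟩
      inv_mem' := fun a ha => T.inv_mem ha }
  have h3 : IntermediateField.adjoin F (Set.range (algebraMap k' F')) ≤ S := by
    rw [IntermediateField.adjoin_le_iff]
    rintro _ ⟨y, rfl⟩
    exact T.algebraMap_mem y
  rw [h] at h3
  rw [eq_top_iff]
  intro x _
  exact h3 (IntermediateField.mem_top (x := x))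

theorem gal_total [CharZero k] [Algebra.IsAlgebraic k F'] [IsGalois k k'] [IsGalois k F]
    (h : IntermediateField.adjoin F (Set.range (algebraMap k' F')) = ⊤) : IsGalois k F' := by
  let T := IntermediateField.adjoin k
    (Set.range (algebraMap F F') ∪ Set.range (algebraMap k' F'))
  let S : IntermediateField F F' :=
    { carrier := (T : Set F')
      mul_mem' := fun {a b} ha hb => T.mul_mem ha hb
      add_mem' := fun {a b} ha hb => T.add_mem ha hb
      algebraMap_mem' := fun x => IntermediateField.subset_adjoin k _ (Or.inl ⟨x, rfl⟩)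
      inv_mem' := fun a ha => T.inv_mem ha }
  have h3 : IntermediateField.adjoin F (Set.range (algebraMap k' F')) ≤ S := by
    rw [IntermediateField.adjoin_le_iff]
    rintro _ ⟨y, rfl⟩
    exact IntermediateField.subset_adjoin k _ (Or.inr ⟨y, rfl⟩)
  rw [h] at h3
  have hn : Normal k F' := by
    refine ⟨fun x => ?_⟩
    refine IntermediateField.splits_of_mem_adjoin (F := k) (L := F') (K := F')
      (S := Set.range (algebraMap F F') ∪ Set.range (algebraMap k' F')) ?_ (x := x)
      (h3 (IntermediateField.mem_top (x := x)))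
    rintro _ (⟨y, rfl⟩ | ⟨y, rfl⟩)
    · refine ⟨Algebra.IsIntegral.isIntegral _, ?_⟩
      have h1 : ((minpoly k y).map (algebraMap k F)).Splits := Normal.splits inferInstance y
      rw [minpoly.algebraMap_eq (algebraMap F F').injective, IsScalarTower.algebraMap_eq k F F',
        ← Polynomial.map_map]
      exact h1.map _
    · refine ⟨Algebra.IsIntegral.isIntegral _, ?_⟩
      have h1 : ((minpoly k y).map (algebraMap k k')).Splits := Normal.splits inferInstance y
      rw [minpoly.algebraMap_eq (algebraMap k' F').injective, IsScalarTower.algebraMap_eq k k' F',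
        ← Polynomial.map_map]
      exact h1.map _
  exact ⟨⟩

end

/-- real places are unramified in Galois extensions of odd degree -/
theorem realRam_odd {F E : Type} [Field F] [NumberField F] [Field E] [NumberField E] [Algebra F E]
    [IsGalois F E] (ho : Odd (Module.finrank F E)) : IsEmpty (RealRam F E) := by
  refine ⟨fun x => ?_⟩
  obtain ⟨φ, hφ⟩ := x
  apply hφ
  let a : Algebra F ℂ := ((algebraMap ℝ ℂ).comp φ).toAlgebra
  obtain ⟨ψ⟩ : Nonempty (E →ₐ[F] ℂ) := ⟨IsAlgClosed.lift⟩
  have hψ : ∀ x : F, ψ (algebraMap F E x) = ((φ x : ℝ) : ℂ) := fun x => ψ.commutes x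
  let b : Algebra E ℂ := (ψ : E →+* ℂ).toAlgebra
  have hab : IsScalarTower F E ℂ := IsScalarTower.of_algebraMap_eq fun x => (ψ.commutes x).symm
  let ψ' : E →ₐ[F] ℂ := { (starRingEnd ℂ).comp (ψ : E →+* ℂ) with
    commutes' := fun x => by
      change starRingEnd ℂ (ψ (algebraMap F E x)) = ((φ x : ℝ) : ℂ)
      rw [hψ]
      exact Complex.conj_ofReal _ }
  let r : E →ₐ[F] E := ψ'.restrictNormal E
  have hr : ∀ x, ψ (r x) = starRingEnd ℂ (ψ x) := fun x => ψ'.restrictNormal_commutes E x
  let g : E ≃ₐ[F] E := AlgEquiv.ofBijective r (Algebra.IsAlgebraic.algHom_bijective r)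
  have hg : ∀ x, ψ (g x) = starRingEnd ℂ (ψ x) := hr
  have hg2 : g ^ 2 = 1 := by
    ext x
    apply ψ.toRingHom.injective
    change ψ ((g ^ 2) x) = ψ x
    rw [pow_two]
    change ψ (g (g x)) = ψ x
    rw [hg, hg, Complex.conj_conj]
  have hg1 : g = 1 := by
    have h1 : orderOf g ∣ 2 := orderOf_dvd_of_pow_eq_one hg2
    have h2 : orderOf g ∣ Module.finrank F E := by
      rw [← IsGalois.card_aut_eq_finrank]
      exact orderOf_dvd_natCard g
    have h3 : orderOf g ∣ Nat.gcd 2 (Module.finrank F E) := Nat.dvd_gcd h1 h2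
    have h4 : Nat.gcd 2 (Module.finrank F E) = 1 := (Nat.coprime_two_left (n := _)).2 ho
    rw [h4, Nat.dvd_one, orderOf_eq_one_iff] at h3
    exact h3
  have hreal : NumberField.ComplexEmbedding.IsReal (ψ : E →+* ℂ) := by
    rw [NumberField.ComplexEmbedding.isReal_iff]
    ext x
    have h1 := hg x
    rw [hg1] at h1
    exact h1.symm
  refine ⟨hreal.embedding, ?_⟩
  ext x
  apply Complex.ofReal_injective
  change ((hreal.embedding (algebraMap F E x) : ℝ) : ℂ) = ((φ x : ℝ) : ℂ)
  rw [NumberField.ComplexEmbedding.IsReal.coe_embedding_apply hreal]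
  exact hψ x

section
variable {H L : Type} [Group H] [Finite H] [AddCommGroup L] [DistribMulAction H L]

theorem func_of (D : Subgroup H) (h0 : ∀ x : L, (∀ h ∈ D, h • x = x) → x = 0) (l : L →+ ℤ)
    (hl : ∀ h ∈ D, ∀ x, l (h • x) = l x) : l = 0 := by
  ext x
  have h1 : nD L D x = 0 := h0 _ fun h hh => nD_fixed D x hh
  rw [nD_apply] at h1
  have h2 := congrArg l h1
  rw [map_sum, map_zero, Finset.sum_congr rfl fun d hd => hl d (mem_DD.1 hd) x, Finset.sum_const,
    smul_eq_zero] at h2
  rcases h2 with h2 | h2
  · exact absurd h2 (card_DD_pos D).ne'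
  · exact h2

end

section
variable {k F : Type} [Field k] [NumberField k] [Field F] [NumberField F] [Algebra k F] {H : Type}
  [Group H]

/-- the decomposition group -/
def stab (ρ : H →* (F ≃ₐ[k] F)) (w : HeightOneSpectrum (𝓞 F)) : Subgroup H where
  carrier := {h | act (ρ h) w = w}
  mul_mem' := fun {a b} ha hb => by
    change act (ρ (a * b)) w = w
    rw [map_mul, Pool.Agent.TeamU.act_mul]
    have ha' : act (ρ a) w = w := ha
    have hb' : act (ρ b) w = w := hb
    rw [hb', ha']
  one_mem' := by
    change act (ρ 1) w = w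
    rw [map_one]
    exact Pool.Agent.TeamU.act_one w
  inv_mem' := fun {a} ha => by
    have ha' : act (ρ a) w = w := ha
    change act (ρ a⁻¹) w = w
    conv_lhs => rw [← ha']
    rw [← Pool.Agent.TeamU.act_mul, map_inv, inv_mul_cancel, Pool.Agent.TeamU.act_one]

theorem mem_stab {ρ : H →* (F ≃ₐ[k] F)} {w : HeightOneSpectrum (𝓞 F)} {h : H} :
    h ∈ stab ρ w ↔ act (ρ h) w = w := Iff.rfl

/-- no equivariant homomorphism to the `p`-part of the class group -/
def BaseK (p : ℕ) (ρ : H →* (F ≃ₐ[k] F)) (L : Type) [AddCommGroup L] [DistribMulAction H L] :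
    Prop :=
  ∀ c : L →+ DC F, (∀ (h : H) (x : L), c (h • x) = sb (ρ h) (c x)) →
    ∀ x, (∃ j, p ^ j • c x = 0) → c x = 0

end

end Pool.Agent.H515.RD
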