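import Pool.Agent.H515.EQ.Alg
import Pool.Agent.H515.RD.Tr
import Pool.Agent.H515.FinAlg

/-! # The number of equivariant homomorphisms from a lattice -/

set_option autoImplicit false
set_option linter.unusedSectionVars false
set_option linter.deprecated false

namespace Pool.Agent.H515.RD

open Pool.Agent.H515.EQ (avg avg_apply avg_mem Eqv comp_avg avg_of_mem mem_of_coprime lift)
open Pool.Agent.H515.CH (card_map_ker)

section
variable {G A B K L I : Type} [Group G] [Finite G] [AddCommGroup A] [AddCommGroup B]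
  [AddCommGroup K] [DistribMulAction G K] [AddCommGroup L] [DistribMulAction G L]
  [AddCommGroup I] [DistribMulAction G I]

/-- the equivariant homomorphisms with values in `S` -/
def ES (L : Type) [AddCommGroup L] [DistribMulAction G L] (t : G →* AddMonoid.End A)
    (S : AddSubgroup A) : AddSubgroup (L →+ A) where
  carrier := {φ | (∀ (h : G) (x : L), φ (h • x) = t h (φ x)) ∧ ∀ x, φ x ∈ S}
  add_mem' {a b} ha hb := ⟨fun h x => by
    change a (h • x) + b (h • x) = t h (a x + b x)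
    rw [ha.1, hb.1, map_add], fun x => S.add_mem (ha.2 x) (hb.2 x)⟩
  zero_mem' := ⟨fun h x => by
    change (0 : A) = t h 0
    rw [map_zero], fun x => S.zero_mem⟩
  neg_mem' {a} ha := ⟨fun h x => by
    change - a (h • x) = t h (- a x)
    rw [ha.1, map_neg], fun x => S.neg_mem (ha.2 x)⟩

theorem exists_inv {c p e : ℕ} (h : c.Coprime p) : ∃ u : ℤ, ∀ {A : Type} [AddCommGroup A] (a : A),
    p ^ e • a = 0 → u • c • a = a := by
  have hc : c.Coprime (p ^ e) := Nat.Coprime.pow_right e h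
  refine ⟨Nat.gcdA c (p ^ e), fun {A} _ a ha => ?_⟩
  have h2 := Nat.gcd_eq_gcd_ab c (p ^ e)
  rw [hc.gcd_eq_one] at h2
  have h3 : (Nat.gcdA c (p ^ e)) • (c • a) + (Nat.gcdB c (p ^ e)) • ((p ^ e) • a) = a := by
    rw [← natCast_zsmul, ← natCast_zsmul, smul_smul, smul_smul, ← add_smul, mul_comm _ (c : ℤ),
      mul_comm _ ((p ^ e : ℕ) : ℤ), ← h2]
    simp
  rw [ha, smul_zero, add_zero] at h3
  exact h3

/-- the normalised average -/
theorem exists_avg {p e : ℕ} (hG : (Nat.card G).Coprime p) {t : G →* AddMonoid.End A}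
    {S : AddSubgroup A} (hSt : ∀ g, ∀ a ∈ S, t g a ∈ S)
    (φ : L →+ A) (hφ : ∀ x, φ x ∈ S) :
    ∃ φ' ∈ ES L t S, (∀ x, (∀ g : G, t g (φ (g⁻¹ • x)) = φ x) → p ^ e • φ x = 0 → φ' x = φ x) ∧
      ∀ (C : Type) [AddCommGroup C] (σ : A →+ C) (x : L),
        (∀ g : G, σ (t g (φ (g⁻¹ • x))) = σ (φ x)) → p ^ e • σ (φ x) = 0 → σ (φ' x) = σ (φ x) := by
  classical
  have hft : Fintype G := Fintype.ofFinite G
  rw [Nat.card_eq_fintype_card] at hG
  obtain ⟨u, hu⟩ := exists_inv (e := e) hG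
  have hmem := avg_mem t φ
  refine ⟨u • avg t φ, ⟨fun h x => ?_, fun x => ?_⟩, fun x hx hpx => ?_, fun C _ σ x hx hpx => ?_⟩
  · change u • avg t φ (h • x) = t h (u • avg t φ x)
    rw [hmem h x, map_zsmul]
  · change u • avg t φ x ∈ S
    rw [avg_apply]
    exact S.zsmul_mem (S.sum_mem fun g _ => hSt g _ (hφ _)) u
  · change u • avg t φ x = φ x
    rw [avg_apply, Finset.sum_congr rfl fun g _ => hx g, Finset.sum_const, Finset.card_univ]
    exact hu _ hpx
  · change σ (u • avg t φ x) = σ (φ x)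
    rw [avg_apply, map_zsmul, map_sum, Finset.sum_congr rfl fun g _ => hx g, Finset.sum_const,
      Finset.card_univ]
    exact hu _ hpx

/-- extension of equivariant homomorphisms -/
theorem ext_eqv {p e : ℕ} (hG : (Nat.card G).Coprime p) {t : G →* AddMonoid.End A}
    {S : AddSubgroup A} (hSt : ∀ g, ∀ a ∈ S, t g a ∈ S) (hSp : ∀ a ∈ S, p ^ e • a = 0)
    (i : K →+ L) (hi : ∀ (g : G) x, i (g • x) = g • i x) {ψ : K →+ A} (hψ : ψ ∈ ES K t S)
    (φ : L →+ A) (hφ : ∀ x, φ x ∈ S) (h : ∀ x, φ (i x) = ψ x) :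
    ∃ φ' ∈ ES L t S, ∀ x, φ' (i x) = ψ x := by
  obtain ⟨φ', h1, h2, -⟩ := exists_avg (e := e) hG hSt φ hφ
  refine ⟨φ', h1, fun x => ?_⟩
  rw [h2 (i x) (fun g => ?_) (hSp _ (hφ _)), h]
  rw [← hi, h, h, hψ.1]
  change (t g * t g⁻¹) (ψ x) = ψ x
  rw [← map_mul, mul_inv_cancel, map_one]
  rfl

/-- an isomorphism onto a subgroup of homomorphisms -/
theorem card_congr_map {X Y : Type} [AddCommGroup X] [AddCommGroup Y] (f : X →+ Y)
    (hf : Function.Injective f) (Z : AddSubgroup X) : Nat.card (Z.map f) = Nat.card Z :=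
  (Nat.card_congr (Z.equivMapOfInjective f hf).toEquiv).symm

/-- composition on the right -/
def cr (A : Type) [AddCommGroup A] (i : K →+ L) : (L →+ A) →+ (K →+ A) where
  toFun φ := φ.comp i
  map_zero' := rfl
  map_add' _ _ := rfl

/-- **Exactness in the lattice.** -/
theorem card_exact {p e : ℕ} (hG : (Nat.card G).Coprime p) {t : G →* AddMonoid.End A}
    {S : AddSubgroup A} (hSt : ∀ g, ∀ a ∈ S, t g a ∈ S) (hSp : ∀ a ∈ S, p ^ e • a = 0)
    [Module.Free ℤ I]
    (i : K →+ L) (π : L →+ I) (hi : Function.Injective i) (hπ : Function.Surjective π)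
    (hex : ∀ x, π x = 0 → ∃ y, i y = x) (hz : ∀ y, π (i y) = 0)
    (hig : ∀ (g : G) x, i (g • x) = g • i x) (hπg : ∀ (g : G) x, π (g • x) = g • π x) :
    Nat.card (ES L t S) = Nat.card (ES K t S) * Nat.card (ES I t S) := by
  obtain ⟨s, hs⟩ := Module.projective_lifting_property π.toIntLinearMap LinearMap.id hπ
  have hs' : ∀ y, π (s y) = y := fun y => LinearMap.congr_fun hs y
  have h1 : ∀ x, ∃ y, i y = x - s (π x) := fun x => hex _ (by rw [map_sub, hs', sub_self])
  choose r0 hr0 using h1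
  let r : L →+ K :=
    { toFun := r0
      map_zero' := by
        apply hi
        rw [hr0, map_zero, map_zero, map_zero, sub_zero]
      map_add' := fun x y => by
        apply hi
        rw [map_add, hr0, hr0, hr0, map_add, map_add]
        abel }
  have hr : ∀ x, i (r x) = x - s (π x) := hr0
  have hri : ∀ y, r (i y) = y := fun y => hi (by rw [hr, hz, map_zero, sub_zero])
  rw [card_map_ker (cr A i) (ES L t S), mul_comm]
  congr 1
  · congr 2
    ext ψ
    constructor
    · rintro ⟨φ, hφ, rfl⟩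
      refine ⟨fun g x => ?_, fun x => hφ.2 _⟩
      change φ (i (g • x)) = t g (φ (i x))
      rw [hig, hφ.1]
    · intro hψ
      obtain ⟨φ, h2, h3⟩ := ext_eqv hG hSt hSp i hig hψ (ψ.comp r) (fun x => hψ.2 _)
        (fun x => congrArg ψ (hri x))
      exact ⟨φ, h2, AddMonoidHom.ext h3⟩
  · rw [← card_congr_map (cr A π) (fun a b hab => by
      ext y
      obtain ⟨x, rfl⟩ := hπ y
      exact DFunLike.congr_fun hab x) (ES I t S)]
    congr 2
    ext φ
    constructor
    · rintro ⟨hk, hφ⟩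
      have hk' : ∀ x, φ (i x) = 0 := fun x => DFunLike.congr_fun hk x
      have hφs : ∀ x, φ (s (π x)) = φ x := by
        intro x
        have h2 : s (π x) = x - i (r x) := by rw [hr, sub_sub_cancel]
        rw [h2, map_sub, hk', sub_zero]
      refine ⟨φ.comp s.toAddMonoidHom, ⟨fun g y => ?_, fun y => hφ.2 _⟩, AddMonoidHom.ext fun x =>
        hφs x⟩
      obtain ⟨x, rfl⟩ := hπ y
      change φ (s (g • π x)) = t g (φ (s (π x)))
      rw [← hπg, hφs, hφs, hφ.1]
    · rintro ⟨ψ, hψ, rfl⟩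
      refine ⟨AddMonoidHom.ext fun x => ?_, fun g x => ?_, fun x => hψ.2 _⟩
      · change ψ (π (i x)) = 0
        rw [hz, map_zero]
      · change ψ (π (g • x)) = t g (ψ (π x))
        rw [hπg, hψ.1]

/-- the elements of `S` killed by `p` -/
def Sk (p : ℕ) (S : AddSubgroup A) : AddSubgroup A :=
  S ⊓ (DistribMulAction.toAddMonoidHom A p).ker

/-- the multiples of the elements of `S` -/
def Sm (p : ℕ) (S : AddSubgroup A) : AddSubgroup A := S.map (DistribMulAction.toAddMonoidHom A p)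

/-- **Exactness in the coefficients.** -/
theorem card_coeff {p e : ℕ} (hG : (Nat.card G).Coprime p) {t : G →* AddMonoid.End A}
    {S : AddSubgroup A} (hSt : ∀ g, ∀ a ∈ S, t g a ∈ S) (hSp : ∀ a ∈ S, p ^ e • a = 0)
    [Module.Free ℤ L] :
    Nat.card (ES L t S) = Nat.card (ES L t (Sk p S)) * Nat.card (ES L t (Sm p S)) := by
  rw [card_map_ker (DistribMulAction.toAddMonoidHom (L →+ A) p) (ES L t S)]
  congr 1
  · congr 2
    ext φ
    constructor
    · rintro ⟨hk, hφ⟩
      exact ⟨hφ.1, fun x => ⟨hφ.2 x, DFunLike.congr_fun hk x⟩⟩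
    · intro hφ
      exact ⟨AddMonoidHom.ext fun x => (hφ.2 x).2, hφ.1, fun x => (hφ.2 x).1⟩
  · congr 2
    ext ψ
    constructor
    · rintro ⟨φ, hφ, rfl⟩
      refine ⟨fun g x => ?_, fun x => ⟨φ x, hφ.2 x, rfl⟩⟩
      change p • φ (g • x) = t g (p • φ x)
      rw [hφ.1, map_nsmul]
    · intro hψ
      let σ : S →+ A := (DistribMulAction.toAddMonoidHom A p).comp S.subtype
      obtain ⟨χ, hχ⟩ := lift σ ψ (fun x => by
        obtain ⟨a, ha, hax⟩ := hψ.2 x
        exact ⟨⟨a, ha⟩, hax⟩)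
      have hχ' : ∀ x, p • ((χ x : S) : A) = ψ x := fun x => DFunLike.congr_fun hχ x
      obtain ⟨φ, h1, -, h2⟩ := exists_avg (e := e) hG hSt (S.subtype.comp χ) (fun x => (χ x).2)
      refine ⟨φ, h1, AddMonoidHom.ext fun x => ?_⟩
      have h3 := h2 A (DistribMulAction.toAddMonoidHom A p) x ?_ ?_
      · exact h3.trans (hχ' x)
      · intro g
        change p • t g ((χ (g⁻¹ • x) : S) : A) = p • ((χ x : S) : A)
        rw [← map_nsmul, hχ', hχ', hψ.1]
        change (t g * t g⁻¹) (ψ x) = ψ x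
        rw [← map_mul, mul_inv_cancel, map_one]
        rfl
      · change p ^ e • (p • ((χ x : S) : A)) = 0
        rw [smul_comm, hSp _ (χ x).2, smul_zero]

end

section
variable {G A L L' : Type} [Group G] [Finite G] [AddCommGroup A] [AddCommGroup L]
  [DistribMulAction G L] [AddCommGroup L'] [DistribMulAction G L']

/-- extension of homomorphisms modulo `p` -/
theorem ext_p {p : ℕ} (hp : p.Prime) {S : AddSubgroup A}
    (j : L' →+ L) (k : L →+ L') (hj : Function.Injective j) (hjk : ∀ x, j (k x) = p • x)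
    (ψ : L' →+ A) (hψ : ∀ x, ψ x ∈ S) (h0 : ∀ x, ψ (k x) = 0) :
    ∃ φ : L →+ A, (∀ x, φ x ∈ S) ∧ ∀ x, φ (j x) = ψ x := by
  have hfp : Fact p.Prime := ⟨hp⟩
  have hkj : ∀ x, k (j x) = p • x := fun x => hj (by rw [hjk, map_nsmul])
  let V := L ⧸ (j.comp k).range
  let V' := L' ⧸ k.range
  have hV : ∀ v : V, p • v = 0 := by
    intro v
    obtain ⟨x, rfl⟩ := QuotientAddGroup.mk_surjective v
    rw [← QuotientAddGroup.mk_nsmul, QuotientAddGroup.eq_zero_iff]
    exact ⟨x, hjk x⟩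
  have hV' : ∀ v : V', p • v = 0 := by
    intro v
    obtain ⟨x, rfl⟩ := QuotientAddGroup.mk_surjective v
    rw [← QuotientAddGroup.mk_nsmul, QuotientAddGroup.eq_zero_iff]
    exact ⟨j x, hkj x⟩
  let _ : Module (ZMod p) V := AddCommGroup.zmodModule hV
  let _ : Module (ZMod p) V' := AddCommGroup.zmodModule hV'
  let f : V' →+ V := QuotientAddGroup.map _ _ j (by
    rintro _ ⟨x, rfl⟩
    exact ⟨x, rfl⟩)
  have hf : Function.Injective f := by
    rw [injective_iff_map_eq_zero]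
    intro v hv
    obtain ⟨x, rfl⟩ := QuotientAddGroup.mk_surjective v
    have h1 : (QuotientAddGroup.mk (j x) : V) = 0 := hv
    rw [QuotientAddGroup.eq_zero_iff] at h1
    obtain ⟨y, hy⟩ := h1
    rw [QuotientAddGroup.eq_zero_iff]
    exact ⟨y, hj hy⟩
  obtain ⟨r, hr⟩ : ∃ r : V →+ V', ∀ v, r (f v) = v := by
    obtain ⟨r, hr⟩ := (AddMonoidHom.toZModLinearMap p f).exists_leftInverse_of_injective
      (LinearMap.ker_eq_bot.2 hf)
    exact ⟨r.toAddMonoidHom, fun v => LinearMap.congr_fun hr v⟩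
  let ψ' : V' →+ A := QuotientAddGroup.lift k.range ψ (by
    rintro _ ⟨x, rfl⟩
    exact h0 x)
  refine ⟨ψ'.comp (r.comp (QuotientAddGroup.mk' _)), fun x => ?_, fun x => ?_⟩
  · obtain ⟨y, hy⟩ := QuotientAddGroup.mk_surjective (r (QuotientAddGroup.mk x : V))
    change ψ' (r (QuotientAddGroup.mk x : V)) ∈ S
    rw [← hy]
    exact hψ y
  · change ψ' (r (f (QuotientAddGroup.mk x))) = ψ x
    rw [hr]
    rfl

theorem card_pp {p : ℕ} (hp : p.Prime) (hG : (Nat.card G).Coprime p) {t : G →* AddMonoid.End A}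
    {S : AddSubgroup A} (hSt : ∀ g, ∀ a ∈ S, t g a ∈ S) (hSp : ∀ a ∈ S, p • a = 0)
    (j : L' →+ L) (k : L →+ L') (hj : Function.Injective j) (hk : Function.Injective k)
    (hjk : ∀ x, j (k x) = p • x) (hjg : ∀ (g : G) x, j (g • x) = g • j x)
    (hkg : ∀ (g : G) x, k (g • x) = g • k x) : Nat.card (ES L' t S) = Nat.card (ES L t S) := by
  have hkj : ∀ x, k (j x) = p • x := fun x => hj (by rw [hjk, map_nsmul])
  have hSp' : ∀ a ∈ S, p ^ 1 • a = 0 := by rw [pow_one]; exact hSp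
  have key : ∀ {M M' : Type} [AddCommGroup M] [DistribMulAction G M] [AddCommGroup M']
      [DistribMulAction G M'] (j : M' →+ M) (k : M →+ M'), Function.Injective j →
      (∀ x, j (k x) = p • x) → (∀ (g : G) x, j (g • x) = g • j x) →
      (ES M t S).map (cr A j) = (cr A k).ker ⊓ ES M' t S := by
    intro M M' _ _ _ _ j k hj hjk hjg
    ext ψ
    constructor
    · rintro ⟨φ, hφ, rfl⟩
      refine ⟨AddMonoidHom.ext fun x => ?_, fun g x => ?_, fun x => hφ.2 _⟩
      · change φ (j (k x)) = 0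
        rw [hjk, map_nsmul]
        exact hSp _ (hφ.2 x)
      · change φ (j (g • x)) = t g (φ (j x))
        rw [hjg, hφ.1]
    · rintro ⟨hk0, hψ⟩
      obtain ⟨φ, h1, h2⟩ := ext_p hp j k hj hjk ψ hψ.2 fun x => DFunLike.congr_fun hk0 x
      obtain ⟨φ', h3, h4⟩ := ext_eqv hG hSt hSp' j hjg hψ φ h1 h2
      exact ⟨φ', h3, AddMonoidHom.ext h4⟩
  rw [card_map_ker (cr A j) (ES L t S), card_map_ker (cr A k) (ES L' t S),
    key j k hj hjk hjg, key k j hk hkj hkg, mul_comm]

end

end Pool.Agent.H515.RD
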