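import Pool.Agent.H515.RD.Qmain

/-! # The final forms -/

set_option autoImplicit false
set_option linter.unusedSectionVars false
set_option linter.deprecated false

namespace Pool.Agent.H515.RD

open NumberField IsDedekindDomain Pool.Agent.Q5.BR Pool.Agent.Q92.AR Pool.Agent.Q106.AR
open Pool.Agent.TeamU (act mem_act)
open Pool.Agent.H515.CH (DC sb sb_mk eqv cls mr map_ne mem_under gal_comp)

theorem tors_large {G : Type} [CommGroup G] [Finite G] {p e : ℕ} (hp : p.Prime)
    (he : padicValNat p (Nat.card G) ≤ e) :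
    padicValNat p (Nat.card {c : G // c ^ (p ^ e) = 1}) = padicValNat p (Nat.card G) := by
  have hfp : Fact p.Prime := ⟨hp⟩
  have hG0 : Nat.card G ≠ 0 := Nat.card_pos.ne'
  let f : G →* G := powMonoidHom (p ^ e)
  have h1 : Nat.card f.range * Nat.card f.ker = Nat.card G := by
    rw [← Subgroup.card_mul_index f.ker, Subgroup.index_ker, mul_comm]
  have h2 : ¬ p ∣ Nat.card f.range := by
    intro h
    obtain ⟨y, hy⟩ := exists_prime_orderOf_dvd_card' p h
    obtain ⟨x, hx⟩ := y.2
    obtain ⟨v, m, hm, hv⟩ := Nat.exists_eq_pow_mul_and_not_dvd hG0 p hp.ne_one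
    have hve : v ≤ e := by
      refine le_trans ?_ he
      rw [hv, padicValNat.mul (pow_ne_zero _ hp.ne_zero) (by rintro rfl; exact hm (dvd_zero p)),
        padicValNat.prime_pow]
      exact Nat.le_add_right _ _
    have h5 : (y : G) ^ m = 1 := by
      rw [← hx]
      change (x ^ (p ^ e)) ^ m = 1
      rw [← pow_mul]
      have h6 : Nat.card G ∣ p ^ e * m := by
        rw [hv]
        exact Nat.mul_dvd_mul_right (Nat.pow_dvd_pow p hve) m
      obtain ⟨d, hd⟩ := h6
      rw [hd, pow_mul, pow_card_eq_one', one_pow]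
    have h7 : orderOf (y : G) ∣ m := orderOf_dvd_of_pow_eq_one h5
    rw [Subgroup.orderOf_coe, hy] at h7
    exact hm h7
  have h3 : Nat.card f.ker = Nat.card {c : G // c ^ (p ^ e) = 1} := rfl
  rw [← h3, ← h1, padicValNat.mul (by
    intro h
    rw [h, zero_mul] at h1
    exact hG0 h1.symm) (by
    intro h
    rw [h, mul_zero] at h1
    exact hG0 h1.symm), padicValNat.eq_zero_of_not_dvd h2, zero_add]

end Pool.Agent.H515.RD
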