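import Pool.Agent.H515.RD.Cmp

/-! # Vanishing in Galois `p`-extensions -/

set_option autoImplicit false
set_option linter.unusedSectionVars false
set_option linter.deprecated false

namespace Pool.Agent.H515.RD

open NumberField IsDedekindDomain Pool.Agent.Q5.BR Pool.Agent.Q92.AR Pool.Agent.Q106.AR
open Pool.Agent.TeamU (act mem_act)
open Pool.Agent.Q182.AR (upA)
open Pool.Agent.Q280.AR (under_under rdeg_tower)
open Pool.Agent.H515.CH (UU PP cn ri DC sb sb_mk eqv cls mr map_ne Xt cn_injective cn_sD'
  ri_eq_one under_act' cn_prinHom Sqr sqr_comp gal_comp unram_sq unram_top exists_normal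
  realRam_bot realRam_top)
open Pool.Agent.H515.EQ (RamHyp ClsHyp Eqv tD tD_apply lift act_comm vanish)

section
variable {k : Type} [Field k] [NumberField k]

theorem act_pow_eqK {F : Type} [Field F] [NumberField F] {B : Type} [Field B] [NumberField B]
    [Algebra k B] [Algebra F B] [Algebra k F] [IsScalarTower k F B] {s : B ≃ₐ[k] B}
    {g : B ≃ₐ[F] B} (hsg : ∀ x, g (s x) = s (g x))
    {w : HeightOneSpectrum (𝓞 B)} (h : act g w = act s w) (m : ℕ) :
    act (g ^ m) w = act (s ^ m) w := by
  induction m with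
  | zero => rw [pow_zero, pow_zero, Pool.Agent.TeamU.act_one, Pool.Agent.TeamU.act_one]
  | succ m ih =>
    have h1 : ∀ x, (g ^ m) (s x) = s ((g ^ m) x) := by
      intro x
      clear ih
      induction m generalizing x with
      | zero => rfl
      | succ m ih =>
        rw [pow_succ]
        change (g ^ m) (g (s x)) = s ((g ^ m) (g x))
        rw [hsg, ih]
    rw [pow_succ (a := g), pow_succ' (a := s), Pool.Agent.TeamU.act_mul, h,
      Pool.Agent.TeamU.act_mul, ← ih, act_comm h1]

/-- an automorphism of order prime to `p` which fixes the prime below fixes the prime -/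
theorem act_fixK {F : Type} [Field F] [NumberField F] {B : Type} [Field B] [NumberField B]
    [Algebra k B] [Algebra F B] [Algebra k F] [IsScalarTower k F B] [IsGalois F B] {p m : ℕ} (hm : Module.finrank F B = p ^ m)
    {s : B ≃ₐ[k] B} (hs : ∀ (g : B ≃ₐ[F] B) x, g (s x) = s (g x)) {o : ℕ} (ho : s ^ o = 1)
    (hop : o.Coprime p) {w : HeightOneSpectrum (𝓞 B)}
    (hw : (act s w).under (𝓞 F) = w.under (𝓞 F)) : act s w = w := by
  obtain ⟨g, hg⟩ := Pool.Agent.TeamU.exists_act (k := F) (P := w) (Q := act s w)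
    (v := w.under (𝓞 F)) rfl (congrArg HeightOneSpectrum.asIdeal hw)
  have h1 := act_pow_eqK (hs g) hg o
  rw [ho, Pool.Agent.TeamU.act_one] at h1
  have h2 : g ^ (p ^ m) = 1 := by
    have h3 := pow_card_eq_one' (G := B ≃ₐ[F] B) (x := g)
    rw [IsGalois.card_aut_eq_finrank, hm] at h3
    exact h3
  have h4 : g ∈ Subgroup.zpowers (g ^ o) := by
    have h5 : (orderOf g).Coprime o :=
      Nat.Coprime.coprime_dvd_left (orderOf_dvd_of_pow_eq_one h2)
        (Nat.Coprime.pow_left _ hop.symm)
    obtain ⟨j, hj⟩ := exists_pow_eq_self_of_coprime h5.symm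
    exact ⟨j, by simpa using hj⟩
  have hall : ∀ j : ℕ, act ((g ^ o) ^ j) w = w := by
    intro j
    induction j with
    | zero => rw [pow_zero, Pool.Agent.TeamU.act_one]
    | succ j ih => rw [pow_succ, Pool.Agent.TeamU.act_mul, h1, ih]
  obtain ⟨j, hj⟩ := (isOfFinOrder_of_finite (g ^ o)).mem_powers_iff_mem_zpowers.2 h4
  have hj' : (g ^ o) ^ j = g := hj
  rw [← hg, ← hj', hall]

theorem clsHypK {p : ℕ} (hp : p.Prime) {F B : Type} [Field F] [NumberField F] [Field B]
    [NumberField B] [Algebra k F] [Algebra k B] [Algebra F B] [IsScalarTower k F B]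
    {H : Type} [Group H] [Finite H] (ρ : H →* (F ≃ₐ[k] F))
    {L : Type} [AddCommGroup L] [Module.Free ℤ L] [DistribMulAction H L] (s : H →* (B ≃ₐ[k] B))
    (hs : ∀ (h : H) (x : F), s h (algebraMap F B x) = algebraMap F B (ρ h x))
    (hb : BaseK p ρ L) : ∃ M : ℕ, M.Coprime p ∧ ClsHyp s F L M := by
  classical
  have hft : Fintype H := Fintype.ofFinite H
  obtain ⟨v, M, hM, hv⟩ := Nat.exists_eq_pow_mul_and_not_dvd (classNumber_pos F).ne' p hp.ne_one
  refine ⟨M, ((Nat.Prime.coprime_iff_not_dvd hp).2 hM).symm, ?_⟩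
  intro φ hφ hr x
  obtain ⟨φ0, hφ0⟩ := lift (cn F B) φ hr
  have h0 : ∀ x, cn F B (φ0 x) = φ x := fun x => DFunLike.congr_fun hφ0 x
  have heq : ∀ (h : H) (x : L), φ0 (h • x) = sD (ρ h) (φ0 x) := by
    intro h x
    apply cn_injective (E := B)
    have hx : Xt (k := k) (k' := F) (F := k) (F' := B) (s h) (ρ h) := hs h
    rw [h0, hφ h x, tD_apply, ← h0, cn_sD' hx]
  let c : L →+ DC F := M • (QuotientAddGroup.mk' (PP F)).comp φ0
  have hc : ∀ x, c x = M • (QuotientAddGroup.mk (φ0 x) : DC F) := fun x => rfl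
  have h1 := hb c (fun h x => by
    rw [hc, hc, heq, map_nsmul, sb_mk]) x ⟨v, by
    rw [hc, smul_smul, ← hv, ← Pool.Agent.H515.CH.card_DC]
    exact card_nsmul_eq_zero'⟩
  rw [hc, ← QuotientAddGroup.mk_nsmul, QuotientAddGroup.eq_zero_iff] at h1
  obtain ⟨d, hd⟩ := h1
  refine ⟨d, ?_⟩
  rw [cn_prinHom, hd, map_nsmul, h0]

end

section
variable {p : ℕ} {H L : Type} [Group H] [Finite H] [AddCommGroup L] [DistribMulAction H L]
  [Module.Free ℤ L] [Module.Finite ℤ L]

/-- **Vanishing in cyclic `p`-extensions.** -/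
theorem vanish_cyc (hp : p.Prime) (hp2 : p ≠ 2) (hH : (Nat.card H).Coprime p)
    {k k' F F' : Type} [Field k] [NumberField k] [Field k'] [NumberField k'] [Field F]
    [NumberField F] [Field F'] [NumberField F'] [Algebra k k'] [Algebra k F] [Algebra k F']
    [Algebra k' F'] [Algebra F F'] [IsScalarTower k k' F'] [IsScalarTower k F F'] [IsGalois k k']
    [IsGalois k F] (htop : IntermediateField.adjoin F (Set.range (algebraMap k' F')) = ⊤) {m : ℕ}
    (hm : Module.finrank k k' = p ^ m) (hc : (Module.finrank k F).Coprime p)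
    (hcyc : IsCyclic (k' ≃ₐ[k] k')) (ρ : H →* (F ≃ₐ[k] F)) (σ : H →* (F' ≃ₐ[k'] F'))
    (hσ : ∀ (h : H) (x : F), σ h (algebraMap F F' x) = algebraMap F F' (ρ h x))
    (hdec : ∀ w : HeightOneSpectrum (𝓞 F), ¬ Unramified k' (w.under (𝓞 k)) →
      ∀ x : L, (∀ h : H, act (ρ h) w = w → h • x = x) → x = 0)
    (hinv : ∀ x : L, (∀ h : H, h • x = x) → x = 0) (hb : BaseK p ρ L) : BaseK p σ L := by
  classical
  have hft : Fintype H := Fintype.ofFinite H
  have hHc : (Fintype.card H).Coprime p := by rw [← Nat.card_eq_fintype_card]; exact hH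
  have hc' : (Module.finrank k F).Coprime (Module.finrank k k') := by
    rw [hm]
    exact Nat.Coprime.pow_right _ hc
  obtain ⟨S, hn, hm'⟩ := sqr_comp htop hc'
  have hG : IsGalois F F' := gal_comp (k := k) htop
  have hGt : IsGalois k F' := gal_total htop
  obtain ⟨τ, hτ⟩ := hcyc
  obtain ⟨γ, hγτ⟩ := S.ext τ
  have hγ := S.gen hγτ hτ
  -- the action over `k`
  let s : H →* (F' ≃ₐ[k] F') := MonoidHom.mk' (fun h => (σ h).restrictScalars k) fun a b => by
    rw [map_mul]
    rfl
  have hs : ∀ (h : H) (x : F), s h (algebraMap F F' x) = algebraMap F F' (ρ h x) := hσ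
  have hs' : ∀ (h : H) (x : k'), s h (algebraMap k' F' x) = algebraMap k' F' x :=
    fun h x => (σ h).commutes x
  have hcom : ∀ (g : F' ≃ₐ[F] F') (h : H) (x : F'), g (s h x) = s h (g x) := by
    intro g h x
    obtain ⟨r, hr⟩ := S.res g
    refine ext_comp htop ((g : F' →+* F').comp (s h : F' →+* F'))
      ((s h : F' →+* F').comp (g : F' →+* F')) (fun y => ?_) (fun y => ?_) x
    · change g (s h (algebraMap F F' y)) = s h (g (algebraMap F F' y))
      rw [hs, g.commutes, g.commutes, hs]
    · change g (s h (algebraMap k' F' y)) = s h (g (algebraMap k' F' y))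
      rw [hs', hr, hs']
  have hodd : Odd (Module.finrank F F') := by
    rw [hn, hm]
    exact (hp.odd_of_ne_two hp2).pow
  have hR := realRam_odd (F := F) (E := F') hodd
  obtain ⟨M, hM, hcl⟩ := clsHypK hp ρ s hs hb
  have hnm : Module.finrank F F' = p ^ m := by rw [hn, hm]
  have hram : RamHyp s F L := by
    intro w hw l hl
    refine func_of (stab s w) (fun x hx => ?_) l hl
    refine hdec (w.under (𝓞 F)) (fun hu => hw ?_) x fun h hh => hx h ?_
    · rw [under_under k F F' w] at hu
      exact unram_sq S w hu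
    · refine act_fixK (F := F) hnm (s := s h) (fun g x => hcom g h x) (o := Nat.card H) ?_ hH ?_
      · rw [← map_pow, pow_card_eq_one', map_one]
      · have hx : Xt (k := k) (k' := F) (F := k) (F' := F') (s h) (ρ h) := hs h
        rw [under_act' hx, hh]
  intro c hc x hx
  exact vanish s γ hγ (fun h x => hcom γ h x) hR hp hnm hHc hM hcl
    (fun l hl => func_of ⊤ (fun x hx => hinv x fun h => hx h trivial) l fun h _ => hl h) hram c
    hc x hx

/-- **Vanishing in Galois `p`-extensions.** -/
theorem vanish_gal (hp : p.Prime) (hp2 : p ≠ 2) (hH : (Nat.card H).Coprime p)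
    (hinv : ∀ x : L, (∀ h : H, h • x = x) → x = 0) (n : ℕ) : ∀ (k k' F F' : Type) [Field k]
    [NumberField k] [Field k'] [NumberField k'] [Field F] [NumberField F] [Field F']
    [NumberField F'] [Algebra k k'] [Algebra k F] [Algebra k F'] [Algebra k' F'] [Algebra F F']
    [IsScalarTower k k' F'] [IsScalarTower k F F'] [IsGalois k k'] [IsGalois k F],
    IntermediateField.adjoin F (Set.range (algebraMap k' F')) = ⊤ →
    Module.finrank k k' = p ^ n → (Module.finrank k F).Coprime p →
    ∀ (ρ : H →* (F ≃ₐ[k] F)) (σ : H →* (F' ≃ₐ[k'] F')),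
    (∀ (h : H) (x : F), σ h (algebraMap F F' x) = algebraMap F F' (ρ h x)) →
    (∀ w : HeightOneSpectrum (𝓞 F), ¬ Unramified k' (w.under (𝓞 k)) →
      ∀ x : L, (∀ h : H, act (ρ h) w = w → h • x = x) → x = 0) →
    BaseK p ρ L → BaseK p σ L := by
  have hfp : Fact p.Prime := ⟨hp⟩
  induction n with
  | zero =>
    intro k k' F F' _ _ _ _ _ _ _ _ _ _ _ _ _ _ _ _ _ htop hpn hc ρ σ hσ hdec hb
    have hcard : Nat.card (k' ≃ₐ[k] k') = 1 := by
      rw [IsGalois.card_aut_eq_finrank, hpn, pow_zero]
    have hsub : Subsingleton (k' ≃ₐ[k] k') := (Nat.card_eq_one_iff_unique.1 hcard).1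
    exact vanish_cyc hp hp2 hH htop hpn hc isCyclic_of_subsingleton ρ σ hσ hdec hinv hb
  | succ n ih =>
    intro k k' F F' _ _ _ _ _ _ _ _ _ _ _ _ _ _ _ _ _ htop hpn hc ρ σ hσ hdec hb
    have hG : IsGalois F F' := gal_comp (k := k) htop
    have hcard : Nat.card (k' ≃ₐ[k] k') = p ^ (n + 1) := by
      rw [IsGalois.card_aut_eq_finrank, hpn]
    obtain ⟨N, hNn, hNc⟩ := exists_normal p n hcard
    let k1 : IntermediateField k k' := IntermediateField.fixedField N
    have hk1N : NumberField k1 := NumberField.of_module_finite k k1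
    have hk1G : IsGalois k k1 := IsGalois.of_fixedField_normal_subgroup N
    have hk1T : IsGalois k1 k' := IsGalois.tower_top_of_isGalois k k1 k'
    have hk1f : Module.finrank k1 k' = p ^ n := by
      rw [← hNc]
      exact IntermediateField.finrank_fixedField_eq_card N
    have hk1b : Module.finrank k k1 = p := by
      have h1 := Module.finrank_mul_finrank k k1 k'
      rw [hk1f, hpn, pow_succ'] at h1
      exact Nat.eq_of_mul_eq_mul_right (pow_pos hp.pos n) h1
    let T : Set F' := Set.range (fun x : k1 => algebraMap k' F' (x : k'))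
    let F1 : IntermediateField F F' := IntermediateField.adjoin F T
    have hF1N : NumberField F1 := NumberField.of_module_finite F F1
    have hmem : ∀ x : k1, algebraMap k1 F' x ∈ F1 := fun x =>
      IntermediateField.subset_adjoin F T ⟨x, rfl⟩
    let _ : Algebra k1 F1 := RingHom.toAlgebra
      ((algebraMap k1 F').codRestrict F1.toSubalgebra.toSubring hmem)
    have : IsScalarTower k1 F1 F' := IsScalarTower.of_algebraMap_eq fun x => rfl
    have : IsScalarTower k k1 F1 := IsScalarTower.of_algebraMap_eq fun x => by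
      apply Subtype.ext
      change algebraMap k F' x = algebraMap k' F' (algebraMap k k' x)
      rw [← IsScalarTower.algebraMap_apply]
    have hF1top : IntermediateField.adjoin F (Set.range (algebraMap k1 F1)) = ⊤ := by
      apply IntermediateField.lift_injective F1
      rw [IntermediateField.lift_adjoin, IntermediateField.lift_top]
      change _ = IntermediateField.adjoin F T
      congr 1
      ext y
      constructor
      · rintro ⟨_, ⟨x, rfl⟩, rfl⟩
        exact ⟨x, rfl⟩
      · rintro ⟨x, rfl⟩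
        exact ⟨_, ⟨x, rfl⟩, rfl⟩
    have hc1 : (Module.finrank k F).Coprime (Module.finrank k k1) := by rw [hk1b]; exact hc
    obtain ⟨S1, hn1, hm1⟩ := sqr_comp hF1top hc1
    have hG1 : IsGalois F F1 := gal_comp (k := k) hF1top
    have hG1' : IsGalois k1 F1 := gal_comp (k := k) (k' := F) (F := k1) (F' := F1)
      (adj_swap hF1top)
    have hcyc : IsCyclic (k1 ≃ₐ[k] k1) := by
      apply isCyclic_of_prime_card (p := p)
      rw [IsGalois.card_aut_eq_finrank, hk1b]
    -- the action on `F1`
    let σ1 : H →* (F' ≃ₐ[k1] F') := MonoidHom.mk' (fun h => (σ h).restrictScalars k1)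
      fun a b => by
        rw [map_mul]
        rfl
    let ρ1 : H →* (F1 ≃ₐ[k1] F1) := (AlgEquiv.restrictNormalHom F1).comp σ1
    have hρ1 : ∀ (h : H) (x : F1), σ h (algebraMap F1 F' x) = algebraMap F1 F' (ρ1 h x) :=
      fun h x => ((σ1 h).restrictNormal_commutes F1 x).symm
    have hρ1' : ∀ (h : H) (x : F), ρ1 h (algebraMap F F1 x) = algebraMap F F1 (ρ h x) := by
      intro h x
      apply (algebraMap F1 F').injective
      rw [← hρ1, ← IsScalarTower.algebraMap_apply F F1 F', ← IsScalarTower.algebraMap_apply F F1 F']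
      exact hσ h x
    have hb1 : BaseK p ρ1 L := by
      refine vanish_cyc hp hp2 hH hF1top (m := 1) (by rw [hk1b, pow_one]) hc hcyc ρ ρ1 hρ1'
        (fun w hw => hdec w fun h => hw h.sub) hinv hb
    refine ih k1 k' F1 F' ?_ hk1f (by rw [hm1]; exact hc) ρ1 σ hρ1 ?_ hb1
    · rw [← IntermediateField.restrictScalars_eq_top_iff (K := F), eq_top_iff, ← htop,
        IntermediateField.adjoin_le_iff]
      intro x hx
      exact IntermediateField.subset_adjoin F1 _ hx
    · intro w1 hw1 x hx
      refine hdec (w1.under (𝓞 F)) (fun hu => hw1 ?_) x fun h hh => hx h ?_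
      · have h2 : Unramified k' ((w1.under (𝓞 k1)).under (𝓞 k)) := by
          rw [under_under k k1 F1 w1, ← under_under k F F1 w1]
          exact hu
        exact unram_top (F := k) h2
      · -- the decomposition groups agree
        let s1 : F1 ≃ₐ[k] F1 := (ρ1 h).restrictScalars k
        have hs1 : ∀ x : F, s1 (algebraMap F F1 x) = algebraMap F F1 (ρ h x) := hρ1' h
        have hs1' : ∀ x : k1, s1 (algebraMap k1 F1 x) = algebraMap k1 F1 x :=
          fun x => (ρ1 h).commutes x
        have hcom : ∀ (g : F1 ≃ₐ[F] F1) (x : F1), g (s1 x) = s1 (g x) := by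
          intro g x
          obtain ⟨r, hr⟩ := S1.res g
          refine ext_comp hF1top ((g : F1 →+* F1).comp (s1 : F1 →+* F1))
            ((s1 : F1 →+* F1).comp (g : F1 →+* F1)) (fun y => ?_) (fun y => ?_) x
          · change g (s1 (algebraMap F F1 y)) = s1 (g (algebraMap F F1 y))
            rw [hs1, g.commutes, g.commutes, hs1]
          · change g (s1 (algebraMap k1 F1 y)) = s1 (g (algebraMap k1 F1 y))
            rw [hs1', hr, hs1']
        have hfix : act s1 w1 = w1 := by
          refine act_fixK (F := F) (p := p) (m := 1) (by rw [hn1, hk1b, pow_one]) (s := s1) hcom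
            (o := Nat.card H) ?_ hH ?_
          · have h3 : (ρ1 h) ^ Nat.card H = 1 := by rw [← map_pow, pow_card_eq_one', map_one]
            ext1 x
            have h4 : ∀ (j : ℕ) (x : F1), (s1 ^ j) x = ((ρ1 h) ^ j) x := by
              intro j
              induction j with
              | zero => intro x; rfl
              | succ j ihj =>
                intro x
                rw [pow_succ, pow_succ]
                exact ihj (s1 x)
            rw [h4, h3]
            rfl
          · have hx : Xt (k := k) (k' := F) (F := k) (F' := F1) s1 (ρ h) := hs1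
            rw [under_act' hx, hh]
        exact hfix

end

end Pool.Agent.H515.RD
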