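import Pool.Agent.H515.RD.Fixc

/-! # Generation by fixed classes; counting -/

set_option autoImplicit false
set_option linter.unusedSectionVars false
set_option linter.deprecated false

namespace Pool.Agent.H515.RD

section
variable {G L A : Type} [Group G] [Finite G] [AddCommGroup L] [Module.Free ℤ L]
  [Module.Finite ℤ L] [DistribMulAction G L] [AddCommGroup A]

theorem no_fixed {D : Subgroup G} (h : nD L D = 0) {x : L} (hx : ∀ g ∈ D, g • x = x) : x = 0 := by
  have h1 := nD_of_fixed D hx
  rw [h] at h1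
  have h2 : ((DD D).card : ℤ) • x = 0 := by
    rw [natCast_zsmul, ← h1]
    rfl
  exact (smul_eq_zero.1 h2).resolve_left (by exact_mod_cast (card_DD_pos D).ne')

theorem card_DD (D : Subgroup G) : (DD D).card ∣ Nat.card G := by
  have h1 : (DD D).card = Nat.card D := by
    unfold DD
    rw [← Nat.card_eq_card_finite_toFinset]
    rfl
  rw [h1]
  exact Subgroup.card_subgroup_dvd_card D

theorem nD_inv (D : Subgroup G) (x : L) : ∑ d ∈ DD D, d⁻¹ • x = nD L D x := by
  rw [nD_apply]
  refine Finset.sum_bij (fun d _ => d⁻¹) (fun d hd => ?_) (fun a _ b _ h => ?_)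
    (fun b hb => ⟨b⁻¹, ?_, ?_⟩) fun d _ => rfl
  · exact mem_DD.2 (D.inv_mem (mem_DD.1 hd))
  · exact inv_injective h
  · exact mem_DD.2 (D.inv_mem (mem_DD.1 hb))
  · exact inv_inv b

theorem avg_zero [Fintype G] {D : Subgroup G} (h : nD L D = 0) (t : G →* AddMonoid.End A)
    (l : L →+ ℤ) {y : A} (hy : ∀ d ∈ D, t d y = y) (x : L) :
    Nat.card G • ∑ g : G, l (g⁻¹ • x) • t g y = 0 := by
  obtain ⟨m, hm⟩ := card_DD D
  have h1 : (DD D).card • ∑ g : G, l (g⁻¹ • x) • t g y = 0 := by
    rw [← Finset.sum_const]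
    have h2 : ∀ d ∈ DD D, ∑ g : G, l (g⁻¹ • x) • t g y = ∑ g : G, l (d⁻¹ • g⁻¹ • x) • t g y := by
      intro d hd
      symm
      refine Fintype.sum_equiv (Equiv.mulRight d) _ _ fun g => ?_
      change _ = l ((g * d)⁻¹ • x) • t (g * d) y
      rw [mul_inv_rev, mul_smul, map_mul]
      change _ = _ • t g (t d y)
      rw [hy d (mem_DD.1 hd)]
    rw [Finset.sum_congr rfl h2, Finset.sum_comm]
    refine Finset.sum_eq_zero fun g _ => ?_
    rw [← Finset.sum_smul, ← map_sum, nD_inv, h, LinearMap.zero_apply, map_zero, zero_smul]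
  rw [hm, mul_comm, mul_smul, h1, smul_zero]

/-- equivariant homomorphisms to a group generated by fixed elements -/
theorem gen_zero (t : G →* AddMonoid.End A) (Y : Set A)
    (hY : ∀ y ∈ Y, ∃ D : Subgroup G, nD L D = 0 ∧ ∀ d ∈ D, t d y = y) (φ : L →+ A)
    (hφ : ∀ (g : G) (x : L), φ (g • x) = t g (φ x)) (hc : ∀ x, φ x ∈ AddSubgroup.closure Y)
    (x : L) : (Nat.card G * Nat.card G) • φ x = 0 := by
  classical
  have hft : Fintype G := Fintype.ofFinite G
  let b := Module.Free.chooseBasis ℤ L
  have h1 : ∀ y : L, φ y = ∑ j, b.coord j y • φ (b j) := by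
    intro y
    conv_lhs => rw [← b.sum_repr y, map_sum]
    exact Finset.sum_congr rfl fun j _ => by rw [map_zsmul]; rfl
  have h2 : Nat.card G • φ x = ∑ j, ∑ g : G, b.coord j (g⁻¹ • x) • t g (φ (b j)) := by
    rw [Finset.sum_comm, Nat.card_eq_fintype_card, ← Finset.card_univ, ← Finset.sum_const]
    refine Finset.sum_congr rfl fun g _ => ?_
    have h3 : φ x = t g (φ (g⁻¹ • x)) := by rw [← hφ, smul_inv_smul]
    rw [h3, h1 (g⁻¹ • x), map_sum]
    exact Finset.sum_congr rfl fun j _ => by rw [map_zsmul]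
  rw [mul_smul, h2, Finset.smul_sum]
  refine Finset.sum_eq_zero fun j _ => ?_
  have h4 : ∀ z ∈ AddSubgroup.closure Y,
      Nat.card G • ∑ g : G, b.coord j (g⁻¹ • x) • t g z = 0 := by
    intro z hz
    induction hz using AddSubgroup.closure_induction with
    | mem y hy =>
      obtain ⟨D, hD, hDy⟩ := hY y hy
      exact avg_zero hD t (b.coord j).toAddMonoidHom hDy x
    | zero =>
      rw [Finset.sum_eq_zero fun g _ => by rw [map_zero, smul_zero], smul_zero]
    | add y z _ _ hy hz =>
      have h5 : ∑ g : G, b.coord j (g⁻¹ • x) • t g (y + z) =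
          ∑ g : G, b.coord j (g⁻¹ • x) • t g y + ∑ g : G, b.coord j (g⁻¹ • x) • t g z := by
        rw [← Finset.sum_add_distrib]
        exact Finset.sum_congr rfl fun g _ => by rw [map_add, smul_add]
      rw [h5, smul_add, hy, hz, add_zero]
    | neg y _ hy =>
      have h5 : ∑ g : G, b.coord j (g⁻¹ • x) • t g (-y) =
          - ∑ g : G, b.coord j (g⁻¹ • x) • t g y := by
        rw [← Finset.sum_neg_distrib]
        exact Finset.sum_congr rfl fun g _ => by rw [map_neg, smul_neg]
      rw [h5, smul_neg, hy, neg_zero]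
  exact h4 _ (hc _)

end

section
variable {G X : Type} [Group G] [Finite G] [Finite X] [MulAction G X]

theorem card_pairs (D : Subgroup G) (x : G) :
    Nat.card {z : X × G // z.2 ∈ D ∧ (x * z.2) • z.1 = z.1} =
      ∑ d ∈ DD D, Nat.card {y : X // (x * d) • y = y} := by
  classical
  rw [← Finset.sum_coe_sort]
  rw [← Nat.card_sigma]
  refine Nat.card_congr
    { toFun := fun z => ⟨⟨z.1.2, mem_DD.2 z.2.1⟩, ⟨z.1.1, z.2.2⟩⟩
      invFun := fun z => ⟨(z.2.1, z.1.1), mem_DD.1 z.1.2, z.2.2⟩
      left_inv := fun z => rfl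
      right_inv := fun z => rfl }

theorem sum_fix [Nonempty X] (h : ∀ x x' : X, ∃ g : G, g • x = x') (x : G) :
    ∑ d ∈ DD (⊤ : Subgroup G), Nat.card {y : X // (x * d) • y = y} = Nat.card G := by
  classical
  have hft : Fintype G := Fintype.ofFinite G
  have hfx : Fintype X := Fintype.ofFinite X
  have e0 : DD (⊤ : Subgroup G) = Finset.univ := by
    ext g
    rw [mem_DD]
    simp
  rw [e0, Fintype.sum_equiv (Equiv.mulLeft x) (fun d => Nat.card {y : X // (x * d) • y = y})
    (fun d => Nat.card {y : X // d • y = y}) (fun d => rfl)]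
  have h1 : ∑ g : G, Nat.card {y : X // g • y = y} = Nat.card (Σ g : G, {y : X // g • y = y}) :=
    (Nat.card_sigma).symm
  have h2 : Nat.card (Σ g : G, {y : X // g • y = y}) =
      Nat.card (Σ y : X, {g : G // g • y = y}) := by
    refine Nat.card_congr
      { toFun := fun z => ⟨z.2.1, z.1, z.2.2⟩
        invFun := fun z => ⟨z.2.1, z.1, z.2.2⟩
        left_inv := fun z => rfl
        right_inv := fun z => rfl }
  rw [h1, h2, Nat.card_sigma]
  have h3 : ∀ y : X, Nat.card X * Nat.card {g : G // g • y = y} = Nat.card G := by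
    intro y
    have h4 : (MulAction.stabilizer G y).index = Nat.card X := by
      rw [MulAction.index_stabilizer]
      have : MulAction.orbit G y = Set.univ := by
        ext z
        refine ⟨fun _ => trivial, fun _ => ?_⟩
        obtain ⟨g, hg⟩ := h y z
        exact ⟨g, hg⟩
      rw [this, Set.ncard_univ]
    have h5 := (MulAction.stabilizer G y).index_mul_card
    rw [h4] at h5
    exact h5
  have hX : Nat.card X ≠ 0 := Nat.card_pos.ne'
  have h6 : Nat.card X * ∑ y : X, Nat.card {g : G // g • y = y} = Nat.card X * Nat.card G := by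
    rw [Finset.mul_sum, Finset.sum_congr rfl fun y _ => h3 y, Finset.sum_const, Finset.card_univ,
      ← Nat.card_eq_fintype_card, smul_eq_mul]
  exact Nat.eq_of_mul_eq_mul_left (Nat.pos_of_ne_zero hX) h6

end

end Pool.Agent.H515.RD
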