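import Pool.Agent.H515.RD.Cnt

/-! # Lattices of finite index, and the main induction -/

set_option autoImplicit false
set_option linter.unusedSectionVars false
set_option linter.deprecated false

namespace Pool.Agent.H515.RD

open Pool.Agent.H515.EQ (avg avg_apply avg_mem Eqv comp_avg avg_of_mem mem_of_coprime lift)
open Pool.Agent.H515.CH (card_map_ker)

/-- the action on a stable subgroup -/
@[instance_reducible] def subAct {G L : Type} [Group G] [AddCommGroup L] [DistribMulAction G L] (P : AddSubgroup L)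
    (hP : ∀ (g : G), ∀ x ∈ P, g • x ∈ P) : DistribMulAction G P where
  smul g x := ⟨g • x.1, hP g x.1 x.2⟩
  one_smul x := Subtype.ext (one_smul G x.1)
  mul_smul g h x := Subtype.ext (mul_smul g h x.1)
  smul_zero g := Subtype.ext (smul_zero g)
  smul_add g x y := Subtype.ext (smul_add g x.1 y.1)

/-- the action on a quotient by a stable subgroup -/
@[instance_reducible] def quoAct {G L : Type} [Group G] [AddCommGroup L] [DistribMulAction G L] (P : AddSubgroup L)
    (hP : ∀ (g : G), ∀ x ∈ P, g • x ∈ P) : DistribMulAction G (L ⧸ P) where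
  smul g := QuotientAddGroup.map P P (DistribMulAction.toAddMonoidHom L g) fun x hx => hP g x hx
  one_smul x := by
    obtain ⟨x, rfl⟩ := QuotientAddGroup.mk_surjective x
    exact congrArg QuotientAddGroup.mk (one_smul G x)
  mul_smul g h x := by
    obtain ⟨x, rfl⟩ := QuotientAddGroup.mk_surjective x
    exact congrArg QuotientAddGroup.mk (mul_smul g h x)
  smul_zero g := congrArg QuotientAddGroup.mk (smul_zero g)
  smul_add g x y := by
    obtain ⟨x, rfl⟩ := QuotientAddGroup.mk_surjective x
    obtain ⟨y, rfl⟩ := QuotientAddGroup.mk_surjective y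
    exact congrArg QuotientAddGroup.mk (smul_add g x y)

section
variable {G A : Type} [Group G] [Finite G] [AddCommGroup A]

theorem card_cop {L L' : Type} [AddCommGroup L] [DistribMulAction G L] [AddCommGroup L']
    [DistribMulAction G L'] {p e N : ℕ} (hN : N.Coprime p) {t : G →* AddMonoid.End A}
    {S : AddSubgroup A} (hSp : ∀ a ∈ S, p ^ e • a = 0) (j : L' →+ L) (k : L →+ L')
    (hj : Function.Injective j) (hjk : ∀ x, j (k x) = N • x)
    (hjg : ∀ (g : G) x, j (g • x) = g • j x) : Nat.card (ES L' t S) = Nat.card (ES L t S) := by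
  have hkj : ∀ x, k (j x) = N • x := fun x => hj (by rw [hjk, map_nsmul])
  have hkg : ∀ (g : G) x, k (g • x) = g • k x := fun g x => hj (by
    rw [hjk, hjg, hjk, smul_comm])
  obtain ⟨u, hu⟩ := exists_inv (e := e) hN
  symm
  refine Nat.card_congr (Equiv.ofBijective (fun φ : ES L t S => (⟨(φ : L →+ A).comp j,
    fun g x => ?_, fun x => φ.2.2 _⟩ : ES L' t S)) ⟨fun φ φ' h => ?_, fun ψ => ?_⟩)
  · change (φ : L →+ A) (j (g • x)) = t g ((φ : L →+ A) (j x))
    rw [hjg, φ.2.1]
  · apply Subtype.ext
    ext x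
    have h1 : (φ : L →+ A) (j (k x)) = (φ' : L →+ A) (j (k x)) :=
      DFunLike.congr_fun (congrArg Subtype.val h) (k x)
    rw [hjk, map_nsmul, map_nsmul] at h1
    rw [← hu _ (hSp _ (φ.2.2 x)), h1, hu _ (hSp _ (φ'.2.2 x))]
  · refine ⟨⟨u • (ψ : L' →+ A).comp k, fun g x => ?_, fun x => ?_⟩, ?_⟩
    · change u • (ψ : L' →+ A) (k (g • x)) = t g (u • (ψ : L' →+ A) (k x))
      rw [hkg, ψ.2.1, map_zsmul]
    · exact S.zsmul_mem (ψ.2.2 _) u
    · apply Subtype.ext
      ext x
      change u • (ψ : L' →+ A) (k (j x)) = (ψ : L' →+ A) x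
      rw [hkj, map_nsmul, hu _ (hSp _ (ψ.2.2 x))]

/-- lattices of finite index, coefficients killed by `p` -/
theorem card_idx1 {p : ℕ} (hp : p.Prime) (hG : (Nat.card G).Coprime p)
    {t : G →* AddMonoid.End A} {S : AddSubgroup A} (hSt : ∀ g, ∀ a ∈ S, t g a ∈ S)
    (hSp : ∀ a ∈ S, p • a = 0) (N : ℕ) : ∀ {L L' : Type} [AddCommGroup L] [DistribMulAction G L]
    [AddCommGroup L'] [DistribMulAction G L'] [Module.Free ℤ L] [Module.Finite ℤ L] (j : L' →+ L),
    Function.Injective j → (∀ x, ∃ y, j y = N • x) → (∀ (g : G) x, j (g • x) = g • j x) → N ≠ 0 →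
    Nat.card (ES L' t S) = Nat.card (ES L t S) := by
  induction N using Nat.strong_induction_on with
  | _ N ih =>
  intro L L' _ _ _ _ _ _ j hj hN hjg hN0
  have hinj : ∀ (m : ℕ), m ≠ 0 → Function.Injective fun x : L => m • x := by
    intro m hm x y hxy
    have h1 : (m : ℤ) • x = (m : ℤ) • y := by
      rw [natCast_zsmul, natCast_zsmul]
      exact hxy
    exact smul_right_injective L (by exact_mod_cast hm : (m : ℤ) ≠ 0) h1
  by_cases hd : p ∣ N
  · obtain ⟨N', rfl⟩ := hd
    have hN' : N' ≠ 0 := right_ne_zero_of_mul hN0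
    let P : AddSubgroup L := j.range ⊔ (DistribMulAction.toAddMonoidHom L p).range
    have hP : ∀ (g : G), ∀ x ∈ P, g • x ∈ P := by
      intro g x hx
      obtain ⟨_, ⟨y, rfl⟩, _, ⟨z, rfl⟩, rfl⟩ := AddSubgroup.mem_sup.1 hx
      rw [smul_add]
      refine AddSubgroup.mem_sup.2 ⟨_, ⟨g • y, hjg g y⟩, _, ⟨g • z, rfl⟩, ?_⟩
      change g • j y + p • (g • z) = g • j y + g • (p • z)
      rw [smul_comm]
    let _ : DistribMulAction G P := subAct P hP
    let i : P →+ L := P.subtype
    let j1 : L' →+ P := j.codRestrict P fun y => (le_sup_left : j.range ≤ P) ⟨y, rfl⟩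
    let k : L →+ P := (DistribMulAction.toAddMonoidHom L p).codRestrict P fun y =>
      (le_sup_right : (DistribMulAction.toAddMonoidHom L p).range ≤ P) ⟨y, rfl⟩
    have hfree : Module.Free ℤ P := by
      have h : Module.Free ℤ (AddSubgroup.toIntSubmodule P) := inferInstance
      exact h
    have hfinP : Module.Finite ℤ P := by
      have h : Module.Finite ℤ (AddSubgroup.toIntSubmodule P) := inferInstance
      exact h
    have hlt : N' < p * N' := by
      have h1 := hp.two_le
      have h2 : 0 < N' := Nat.pos_of_ne_zero hN'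
      nlinarith
    rw [ih N' hlt j1 (fun a b hab => hj (congrArg Subtype.val hab)) ?_
      (fun g x => Subtype.ext (hjg g x)) hN']
    · exact card_pp hp hG hSt hSp i k Subtype.val_injective
        (fun a b hab => hinj p hp.ne_zero (congrArg Subtype.val hab)) (fun x => rfl)
        (fun g x => rfl) (fun g x => Subtype.ext (smul_comm _ _ _))
    · intro x
      obtain ⟨_, ⟨y, rfl⟩, _, ⟨z, rfl⟩, hx⟩ := AddSubgroup.mem_sup.1 x.2
      obtain ⟨w, hw⟩ := hN z
      refine ⟨N' • y + w, Subtype.ext ?_⟩
      change j (N' • y + w) = N' • (x : L)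
      rw [← hx, map_add, map_nsmul, hw, smul_add]
      congr 1
      change (p * N') • z = N' • (p • z)
      rw [smul_smul, mul_comm]
  · choose k0 hk0 using hN
    let k : L →+ L' :=
      { toFun := k0
        map_zero' := hj (by rw [hk0, smul_zero, map_zero])
        map_add' := fun x y => hj (by rw [map_add, hk0, hk0, hk0, smul_add]) }
    exact card_cop (p := p) (e := 1) ((Nat.Prime.coprime_iff_not_dvd hp).2 hd).symm
      (by rw [pow_one]; exact hSp) j k hj hk0 hjg

/-- lattices of finite index -/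
theorem card_idx {p : ℕ} (hp : p.Prime) (hG : (Nat.card G).Coprime p)
    {t : G →* AddMonoid.End A} {L L' : Type} [AddCommGroup L] [DistribMulAction G L]
    [AddCommGroup L'] [DistribMulAction G L'] [Module.Free ℤ L] [Module.Finite ℤ L]
    [Module.Free ℤ L'] (j : L' →+ L)
    (hj : Function.Injective j) (hjg : ∀ (g : G) x, j (g • x) = g • j x) {N : ℕ} (hN0 : N ≠ 0)
    (hN : ∀ x, ∃ y, j y = N • x) (e : ℕ) : ∀ {S : AddSubgroup A}, (∀ g, ∀ a ∈ S, t g a ∈ S) →
    (∀ a ∈ S, p ^ e • a = 0) → Nat.card (ES L' t S) = Nat.card (ES L t S) := by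
  induction e with
  | zero =>
    intro S _ hSp
    have h0 : ∀ a ∈ S, a = 0 := fun a ha => by
      have h := hSp a ha
      rwa [pow_zero, one_smul] at h
    have h1 : ∀ (M : Type) [AddCommGroup M] [DistribMulAction G M], ES M t S = ⊥ := by
      intro M _ _
      rw [eq_bot_iff]
      intro φ hφ
      rw [AddSubgroup.mem_bot]
      ext x
      exact h0 _ (hφ.2 x)
    rw [h1 L, h1 L', AddSubgroup.card_bot, AddSubgroup.card_bot]
  | succ e ih =>
    intro S hSt hSp
    rw [card_coeff hG hSt hSp (L := L), card_coeff hG hSt hSp (L := L')]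
    congr 1
    · have h1 : ∀ g, ∀ a ∈ Sk p S, t g a ∈ Sk p S := by
        intro g a ha
        refine ⟨hSt g a ha.1, ?_⟩
        change p • t g a = 0
        have h2 : p • a = 0 := ha.2
        rw [← map_nsmul, h2, map_zero]
      exact card_idx1 hp hG h1 (fun a ha => ha.2) N j hj hN hjg hN0
    · refine ih ?_ ?_
      · rintro g _ ⟨a, ha, rfl⟩
        refine ⟨t g a, hSt g a ha, ?_⟩
        change p • t g a = t g (p • a)
        rw [map_nsmul]
      · rintro _ ⟨a, ha, rfl⟩
        change p ^ e • (p • a) = 0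
        rw [smul_smul, ← pow_succ]
        exact hSp a ha

end

end Pool.Agent.H515.RD
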