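import Pool.Agent.H515.RD.Idx

/-! # The main induction -/

set_option autoImplicit false
set_option linter.unusedSectionVars false
set_option linter.deprecated false

namespace Pool.Agent.H515.RD

open LinearMap

section
variable {G A : Type} [Group G] [Finite G] [AddCommGroup A]

theorem nD_comm {K L : Type} [AddCommGroup K] [DistribMulAction G K] [AddCommGroup L]
    [DistribMulAction G L] (i : K →ₗ[ℤ] L) (hi : ∀ (g : G) x, i (g • x) = g • i x)
    (D : Subgroup G) (y : K) : i (nD K D y) = nD L D (i y) := by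
  rw [nD_apply, nD_apply, map_sum]
  exact Finset.sum_congr rfl fun d _ => hi d y

theorem es_bot {L : Type} [AddCommGroup L] [DistribMulAction G L] {t : G →* AddMonoid.End A}
    {S : AddSubgroup A} (h : ∀ φ ∈ ES L t S, φ = 0) : Nat.card (ES L t S) = 1 := by
  have h1 : ES L t S = ⊥ := by
    rw [eq_bot_iff]
    exact fun φ hφ => (AddSubgroup.mem_bot).2 (h φ hφ)
  rw [h1, AddSubgroup.card_bot]

theorem free_sub {L : Type} [AddCommGroup L] [Module.Free ℤ L] [Module.Finite ℤ L]
    (P : AddSubgroup L) : Module.Free ℤ P ∧ Module.Finite ℤ P := by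
  constructor
  · have h : Module.Free ℤ (AddSubgroup.toIntSubmodule P) := inferInstance
    exact h
  · have h : Module.Finite ℤ (AddSubgroup.toIntSubmodule P) := inferInstance
    exact h

/-- the saturation -/
def Sat {M : Type} [AddCommGroup M] (I : AddSubgroup M) : AddSubgroup M where
  carrier := {y | ∃ n : ℕ, n ≠ 0 ∧ n • y ∈ I}
  zero_mem' := ⟨1, one_ne_zero, by rw [smul_zero]; exact I.zero_mem⟩
  add_mem' := by
    rintro a b ⟨n, hn, hna⟩ ⟨m, hm, hmb⟩
    refine ⟨n * m, mul_ne_zero hn hm, ?_⟩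
    rw [smul_add]
    refine I.add_mem ?_ ?_
    · rw [mul_comm, mul_smul]
      exact I.nsmul_mem hna m
    · rw [mul_smul]
      exact I.nsmul_mem hmb n
  neg_mem' := by
    rintro a ⟨n, hn, hna⟩
    refine ⟨n, hn, ?_⟩
    rw [smul_neg]
    exact I.neg_mem hna

theorem free_quo {M : Type} [AddCommGroup M] [Module.Finite ℤ M] (I : AddSubgroup M) :
    Module.Free ℤ (M ⧸ Sat I) ∧ Module.Finite ℤ (M ⧸ Sat I) := by
  have hfin : Module.Finite ℤ (M ⧸ Sat I) := by
    have h : Module.Finite ℤ (M ⧸ (AddSubgroup.toIntSubmodule (Sat I))) := inferInstance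
    exact h
  have htf : ∀ (n : ℤ), n ≠ 0 → ∀ x : M ⧸ Sat I, n • x = 0 → x = 0 := by
    intro n hn x hx
    obtain ⟨y, rfl⟩ := QuotientAddGroup.mk_surjective x
    rw [← QuotientAddGroup.mk_zsmul, QuotientAddGroup.eq_zero_iff] at hx
    obtain ⟨m, hm, hmy⟩ := hx
    rw [QuotientAddGroup.eq_zero_iff]
    refine ⟨m * n.natAbs, mul_ne_zero hm (Int.natAbs_ne_zero.2 hn), ?_⟩
    rw [mul_smul]
    rcases Int.natAbs_eq n with h | h
    · have h2 : n.natAbs • y = n • y := by
        conv_rhs => rw [h]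
        rw [natCast_zsmul]
      rw [h2]
      exact hmy
    · have h2 : n.natAbs • y = - (n • y) := by
        conv_rhs => rw [h]
        rw [neg_smul, neg_neg, natCast_zsmul]
      rw [h2, smul_neg]
      exact I.neg_mem hmy
  have h3 : Module.IsTorsionFree ℤ (M ⧸ Sat I) := by
    refine Module.IsTorsionFree.mk fun n hn x y hxy => ?_
    have h4 : n • (x - y) = 0 := by rw [smul_sub, sub_eq_zero]; exact hxy
    exact sub_eq_zero.1 (htf n hn.ne_zero _ h4)
  exact ⟨Module.free_of_finite_type_torsion_free', hfin⟩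

theorem sat_exp {M : Type} [AddCommGroup M] [Module.Finite ℤ M] (I : AddSubgroup M) :
    ∃ N : ℕ, N ≠ 0 ∧ ∀ x ∈ Sat I, N • x ∈ I := by
  let T : Submodule ℤ (M ⧸ (AddSubgroup.toIntSubmodule I)) :=
    Submodule.torsion ℤ (M ⧸ (AddSubgroup.toIntSubmodule I))
  have hT : Module.Finite ℤ T := inferInstance
  have hfin : Finite T := Module.finite_of_fg_torsion T (Submodule.torsion_isTorsion)
  refine ⟨Nat.card T, Nat.card_pos.ne', ?_⟩
  rintro x ⟨n, hn, hnx⟩
  have h1 : (Submodule.Quotient.mk x : M ⧸ (AddSubgroup.toIntSubmodule I)) ∈ T := by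
    refine ⟨⟨(n : ℤ), mem_nonZeroDivisors_of_ne_zero (by exact_mod_cast hn)⟩, ?_⟩
    change (n : ℤ) • (Submodule.Quotient.mk x : M ⧸ (AddSubgroup.toIntSubmodule I)) = 0
    rw [← Submodule.Quotient.mk_smul, Submodule.Quotient.mk_eq_zero, natCast_zsmul]
    exact hnx
  have h2 : Nat.card T • (⟨_, h1⟩ : T) = 0 := card_nsmul_eq_zero'
  have h3 := congrArg Subtype.val h2
  have h4 : (Nat.card T : ℤ) • (Submodule.Quotient.mk x : M ⧸ (AddSubgroup.toIntSubmodule I)) =
      0 := by
    rw [natCast_zsmul]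
    exact h3
  rw [← Submodule.Quotient.mk_smul, Submodule.Quotient.mk_eq_zero, natCast_zsmul] at h4
  exact h4

theorem card_eq {p e : ℕ} (hp : p.Prime) (hG : (Nat.card G).Coprime p)
    {t : G →* AddMonoid.End A} {S : AddSubgroup A} (hSt : ∀ g, ∀ a ∈ S, t g a ∈ S)
    (hSp : ∀ a ∈ S, p ^ e • a = 0) (Ds : Set (Subgroup G))
    (hV : ∀ (L : Type) [AddCommGroup L] [DistribMulAction G L] [Module.Free ℤ L]
      [Module.Finite ℤ L], (∀ D ∈ Ds, nD L D = 0) → ∀ φ ∈ ES L t S, φ = 0) (n : ℕ) :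
    ∀ (L M : Type) [AddCommGroup L] [DistribMulAction G L] [Module.Free ℤ L] [Module.Finite ℤ L]
      [AddCommGroup M] [DistribMulAction G M] [Module.Free ℤ M] [Module.Finite ℤ M],
      Module.finrank ℤ L = n → (∀ D ∈ Ds, ∀ x : G, trace ℤ L (ac L x ∘ₗ nD L D) =
        trace ℤ M (ac M x ∘ₗ nD M D)) → Nat.card (ES L t S) = Nat.card (ES M t S) := by
  induction n using Nat.strong_induction_on with
  | _ n ih =>
  intro L M _ _ _ _ _ _ _ _ hn htr
  by_cases h : ∀ D ∈ Ds, nD L D = 0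
  · have hM : ∀ D ∈ Ds, nD M D = 0 := by
      intro D hD
      apply nD_zero_of_trace
      have h1 := htr D hD 1
      have e1 : ∀ (K : Type) [AddCommGroup K] [DistribMulAction G K],
          ac K (1 : G) ∘ₗ nD K D = nD K D := by
        intro K _ _
        ext y
        rw [LinearMap.comp_apply, ac_apply, one_smul]
      rw [e1 L, e1 M, h D hD, map_zero] at h1
      exact h1.symm
    rw [es_bot (hV L h), es_bot (hV M hM)]
  push Not at h
  obtain ⟨D, hD, hD0⟩ := h
  obtain ⟨u, hug, hu0⟩ := exists_hom (L := L) (M := M) D (htr D hD) hD0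
  -- kernel and image
  let u0 : L →+ M := u.toAddMonoidHom
  let K : AddSubgroup L := u0.ker
  let I : AddSubgroup M := u0.range
  have hK : ∀ (g : G), ∀ x ∈ K, g • x ∈ K := by
    intro g x hx
    change u (g • x) = 0
    have hx' : u x = 0 := hx
    rw [hug, hx', smul_zero]
  have hI : ∀ (g : G), ∀ x ∈ I, g • x ∈ I := by
    rintro g _ ⟨x, rfl⟩
    exact ⟨g • x, hug g x⟩
  have hJ : ∀ (g : G), ∀ x ∈ Sat I, g • x ∈ Sat I := by
    rintro g x ⟨n, hn, hnx⟩
    exact ⟨n, hn, by rw [smul_comm]; exact hI g _ hnx⟩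
  let _ : DistribMulAction G K := subAct K hK
  let _ : DistribMulAction G I := subAct I hI
  let _ : DistribMulAction G (Sat I) := subAct (Sat I) hJ
  let _ : DistribMulAction G (M ⧸ Sat I) := quoAct (Sat I) hJ
  obtain ⟨fK, mK⟩ := free_sub K
  obtain ⟨fI, mI⟩ := free_sub I
  obtain ⟨fJ, mJ⟩ := free_sub (Sat I)
  obtain ⟨fC, mC⟩ := free_quo I
  obtain ⟨N, hN0, hN⟩ := sat_exp I
  -- the maps
  let i : K →ₗ[ℤ] L := K.subtype.toIntLinearMap
  let π : L →ₗ[ℤ] I := u0.rangeRestrict.toIntLinearMap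
  let i' : Sat I →ₗ[ℤ] M := (Sat I).subtype.toIntLinearMap
  let π' : M →ₗ[ℤ] (M ⧸ Sat I) := (QuotientAddGroup.mk' (Sat I)).toIntLinearMap
  have hIJ : I ≤ Sat I := fun x hx => ⟨1, one_ne_zero, by rw [one_smul]; exact hx⟩
  let j : I →ₗ[ℤ] Sat I := (AddSubgroup.inclusion hIJ).toIntLinearMap
  have i1 : Function.Injective i := Subtype.val_injective
  have i2 : Function.Surjective π := u0.rangeRestrict_surjective
  have i3 : ∀ x, π x = 0 → ∃ y, i y = x := fun x hx => ⟨⟨x, congrArg Subtype.val hx⟩, rfl⟩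
  have i4 : ∀ y, π (i y) = 0 := fun y => Subtype.ext y.2
  have i5 : ∀ (g : G) x, i (g • x) = g • i x := fun g x => rfl
  have i6 : ∀ (g : G) x, π (g • x) = g • π x := fun g x => Subtype.ext (hug g x)
  have k1 : Function.Injective i' := Subtype.val_injective
  have k2 : Function.Surjective π' := QuotientAddGroup.mk_surjective
  have k3 : ∀ x, π' x = 0 → ∃ y, i' y = x := fun x hx =>
    ⟨⟨x, (QuotientAddGroup.eq_zero_iff x).1 hx⟩, rfl⟩
  have k4 : ∀ y, π' (i' y) = 0 := fun y => (QuotientAddGroup.eq_zero_iff _).2 y.2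
  have k5 : ∀ (g : G) x, i' (g • x) = g • i' x := fun g x => rfl
  have k6 : ∀ (g : G) x, π' (g • x) = g • π' x := fun g x => rfl
  have j1 : Function.Injective j := fun a b hab =>
    Subtype.ext (congrArg (fun z : Sat I => (z : M)) hab)
  have j2 : ∀ x, ∃ y, j y = (N : ℤ) • x := fun x =>
    ⟨⟨N • (x : M), hN x x.2⟩, Subtype.ext (natCast_zsmul (x : M) N).symm⟩
  have j3 : ∀ (g : G) x, j (g • x) = g • j x := fun g x => rfl
  -- the numbers
  have e1 : Nat.card (ES L t S) = Nat.card (ES K t S) * Nat.card (ES I t S) :=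
    card_exact hG hSt hSp i.toAddMonoidHom π.toAddMonoidHom i1 i2 i3 i4 i5 i6
  have e2 : Nat.card (ES M t S) = Nat.card (ES (Sat I) t S) * Nat.card (ES (M ⧸ Sat I) t S) :=
    card_exact hG hSt hSp i'.toAddMonoidHom π'.toAddMonoidHom k1 k2 k3 k4 k5 k6
  have e3 : Nat.card (ES I t S) = Nat.card (ES (Sat I) t S) :=
    card_idx hp hG j.toAddMonoidHom j1 j3 hN0 (fun x => by
      obtain ⟨y, hy⟩ := j2 x
      exact ⟨y, by rw [← natCast_zsmul]; exact hy⟩) e hSt hSp
  -- the ranks
  have r1 : (Module.finrank ℤ L : ℤ) = Module.finrank ℤ K + Module.finrank ℤ I := by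
    have h1 := trace_exact i π i1 i2 i3 i4 LinearMap.id LinearMap.id LinearMap.id
      (fun _ => rfl) (fun _ => rfl)
    rw [LinearMap.trace_id, LinearMap.trace_id, LinearMap.trace_id] at h1
    exact h1
  have r2 : 0 < Module.finrank ℤ I := by
    rw [Nat.pos_iff_ne_zero]
    intro h0
    rw [Module.finrank_zero_iff] at h0
    apply hu0
    ext x
    exact congrArg Subtype.val (h0.elim (π x) 0)
  have r3 : Module.finrank ℤ K < n := by omega
  -- the traces
  have e4 : Nat.card (ES K t S) = Nat.card (ES (M ⧸ Sat I) t S) := by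
    refine ih _ r3 K (M ⧸ Sat I) rfl fun D' hD' x => ?_
    have h1 := trace_exact i π i1 i2 i3 i4 (ac K x ∘ₗ nD K D') (ac L x ∘ₗ nD L D')
      (ac I x ∘ₗ nD I D') (fun y => by
        rw [LinearMap.comp_apply, LinearMap.comp_apply, ac_apply, ac_apply, i5, nD_comm i i5])
      (fun y => by
        rw [LinearMap.comp_apply, LinearMap.comp_apply, ac_apply, ac_apply, i6, nD_comm π i6])
    have h2 := trace_exact i' π' k1 k2 k3 k4 (ac (Sat I) x ∘ₗ nD (Sat I) D')
      (ac M x ∘ₗ nD M D') (ac (M ⧸ Sat I) x ∘ₗ nD (M ⧸ Sat I) D') (fun y => by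
        rw [LinearMap.comp_apply, LinearMap.comp_apply, ac_apply, ac_apply, k5, nD_comm i' k5])
      (fun y => by
        rw [LinearMap.comp_apply, LinearMap.comp_apply, ac_apply, ac_apply, k6, nD_comm π' k6])
    have h3 := trace_index j j1 (N : ℤ) (by exact_mod_cast hN0) j2 (ac I x ∘ₗ nD I D')
      (ac (Sat I) x ∘ₗ nD (Sat I) D') (fun y => by
        rw [LinearMap.comp_apply, LinearMap.comp_apply, ac_apply, ac_apply, j3, nD_comm j j3])
    have h4 := htr D' hD' x
    rw [h1, h2, h3] at h4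
    rw [add_comm (trace ℤ K _)] at h4
    exact add_left_cancel h4
  rw [e1, e2, e3, e4, mul_comm]

end

end Pool.Agent.H515.RD
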