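import Pool.Agent.H515.RD.Rel

/-! # The relations over `ℚ` -/

set_option autoImplicit false
set_option linter.unusedSectionVars false
set_option linter.deprecated false

namespace Pool.Agent.H515.RD

open NumberField IsDedekindDomain Pool.Agent.Q5.BR Pool.Agent.Q92.AR Pool.Agent.Q106.AR
open Pool.Agent.TeamU (act mem_act)
open Pool.Agent.H515.CH (DC sb sb_mk eqv cls mr map_ne mem_under rat_prime_unique FrobAt inc adj_top
  IsLayer cyc sub_gal sub_fin nf cyc_ab cyc_fin unram_cyc adj_roots)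
open Pool.Agent.H515.EQ (rat ratE FrobR frobR FrobAt.exists_w gal_sup)

/-- a rational prime ramified in `T` below a ramified prime -/
theorem ram_below {F T : Type} [Field F] [NumberField F] [Field T] [NumberField T]
    {w : HeightOneSpectrum (𝓞 F)} (h : ¬ Unramified T (w.under (𝓞 ℚ))) :
    ∃ l : ℕ, l.Prime ∧ (l : 𝓞 F) ∈ w.asIdeal ∧
      ∃ u : HeightOneSpectrum (𝓞 T), (l : 𝓞 T) ∈ u.asIdeal ^ 2 := by
  obtain ⟨l, hl, hlw⟩ := Pool.Agent.H515.CH.exists_prime_in w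
  refine ⟨l, hl, hlw, ?_⟩
  unfold Unramified at h
  push Not at h
  obtain ⟨u, -, hu⟩ := h
  refine ⟨u, hu ?_⟩
  have h1 : (l : 𝓞 ℚ) ∈ (w.under (𝓞 ℚ)).asIdeal := mem_under.2 hlw
  have h2 := Ideal.mem_map_of_mem (algebraMap (𝓞 ℚ) (𝓞 T)) h1
  rwa [map_natCast] at h2

/-- **The relations over `ℚ`.** -/
theorem rel_Q {ι : Type} [Fintype ι] {p n : ℕ} (hp : p.Prime) (hp2 : p ≠ 2)
    {F T : IntermediateField ℚ ℂ} [NumberField F] [NumberField T] (hFg : IsGalois ℚ F)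
    (hTg : IsGalois ℚ T) (hn : Module.finrank ℚ T = p ^ n)
    (hc : (Module.finrank ℚ F).Coprime p) (hcl : ¬ p ∣ classNumber F)
    (K : ι → IntermediateField ℚ ℂ) [∀ i, NumberField (K i)] (hK : ∀ i, K i ≤ F)
    [∀ i, NumberField ↥(K i ⊔ T)] (a : ι → ℤ) (ha0 : ∑ i, a i = 0)
    (hram : ∀ l : ℕ, l.Prime → (∃ u : HeightOneSpectrum (𝓞 T), (l : 𝓞 T) ∈ u.asIdeal ^ 2) →
      ∃ g : F ≃+* F, RelF (F := F) (fun i => K i) a g ∧ FrobR l g) (e : ℕ) :
    ∑ i, a i * (padicValNat p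
      (Nat.card {c : ClassGroup (𝓞 ↥(K i ⊔ T)) // c ^ (p ^ e) = 1}) : ℤ) = 0 := by
  classical
  have hBf : NumberField ↥(F ⊔ T) :=
    nf (Pool.Agent.H515.CH.sup_fin inferInstance inferInstance)
  have a2 : F ≤ F ⊔ T := le_sup_left
  have a6 : T ≤ F ⊔ T := le_sup_right
  have b1 : ∀ i, T ≤ K i ⊔ T := fun i => le_sup_right
  have b2 : ∀ i, K i ⊔ T ≤ F ⊔ T := fun i => sup_le_sup_right (hK i) T
  let i2 := inc a2
  let i6 := inc a6
  let jK : ∀ i, Algebra (K i) F := fun i => inc (hK i)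
  let jM : ∀ i, Algebra ↥(K i ⊔ T) ↥(F ⊔ T) := fun i => inc (b2 i)
  let jT : ∀ i, Algebra T ↥(K i ⊔ T) := fun i => inc (b1 i)
  have t1 : IsScalarTower ℚ F ↥(F ⊔ T) := inferInstance
  have t2 : IsScalarTower ℚ T ↥(F ⊔ T) := inferInstance
  have t3 : ∀ i, IsScalarTower ℚ (K i) F := fun i => inferInstance
  have t4 : ∀ i, IsScalarTower T ↥(K i ⊔ T) ↥(F ⊔ T) :=
    fun i => IsScalarTower.of_algebraMap_eq fun x => rfl
  have htop : IntermediateField.adjoin F (Set.range (algebraMap T ↥(F ⊔ T))) = ⊤ :=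
    adj_top a2 a6 le_rfl
  refine rel_types (k := ℚ) (T := T) (F := F) (B := ↥(F ⊔ T)) hp hp2 htop hn hc
    (fun i => K i) (fun i => ↥(K i ⊔ T)) ?_ a ha0 ?_ ?_ e
  · intro i g
    have htopi : ∀ y : ↥(K i ⊔ T), ∀ s : IntermediateField ℚ ↥(F ⊔ T),
        (∀ x : K i, algebraMap F ↥(F ⊔ T) (algebraMap (K i) F x) ∈ s) →
        (∀ x : T, algebraMap T ↥(F ⊔ T) x ∈ s) → algebraMap ↥(K i ⊔ T) ↥(F ⊔ T) y ∈ s := by
      intro y s h1 h2
      have h3 : K i ⊔ T ≤ IntermediateField.lift s := by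
        refine sup_le ?_ ?_
        · intro x hx
          exact ⟨⟨x, a2 (hK i hx)⟩, h1 ⟨x, hx⟩, rfl⟩
        · intro x hx
          exact ⟨⟨x, a6 hx⟩, h2 ⟨x, hx⟩, rfl⟩
      obtain ⟨z, hz, hzy⟩ := h3 y.2
      have h4 : z = algebraMap ↥(K i ⊔ T) ↥(F ⊔ T) y := Subtype.ext hzy
      rw [← h4]
      exact hz
    constructor
    · intro h x
      exact h ⟨x, (le_sup_left : K i ≤ K i ⊔ T) x.2⟩
    · intro h x
      let s : IntermediateField ℚ ↥(F ⊔ T) :=
        IntermediateField.fixedField (Subgroup.zpowers (g.restrictScalars ℚ))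
      have hs : ∀ y, y ∈ s ↔ g y = y := by
        intro y
        rw [IntermediateField.mem_fixedField_iff]
        constructor
        · intro h1
          exact h1 _ (Subgroup.mem_zpowers _)
        · rintro h1 _ ⟨j, rfl⟩
          have h5 : g.restrictScalars ℚ ∈ MulAction.stabilizer (↥(F ⊔ T) ≃ₐ[ℚ] ↥(F ⊔ T)) y := h1
          exact (MulAction.stabilizer (↥(F ⊔ T) ≃ₐ[ℚ] ↥(F ⊔ T)) y).zpow_mem h5 j
      exact (hs _).1 (htopi x s (fun y => (hs _).2 (h y)) fun y => (hs _).2 (g.commutes y))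
  · intro w hw x
    obtain ⟨l, hl, hlw, hu⟩ := ram_below hw
    obtain ⟨g, hg, hgF⟩ := hram l hl hu
    exact rel_at (F := F) (fun i => K i) a hl hg hgF hlw x
  · intro x hx
    obtain ⟨j, hj⟩ := hx
    have h1 : Nat.card (DC F) • x = 0 := card_nsmul_eq_zero'
    rw [Pool.Agent.H515.CH.card_DC] at h1
    have hcop : (classNumber F).Coprime (p ^ j) :=
      Nat.Coprime.pow_right _ ((Nat.Prime.coprime_iff_not_dvd hp).2 hcl).symm
    have h2 : x = 0 := Pool.Agent.H515.EQ.mem_of_coprime (S := ⊥) hcop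
      (by rw [h1]; exact zero_mem _) (by rw [hj]; exact zero_mem _)
    rw [h2]
    exact zero_mem _

/-- the layers are ramified only at `p` -/
theorem ram_layer {p n : ℕ} (hp : p.Prime) {E : IntermediateField ℚ ℂ} [NumberField E]
    (hE : IsLayer p n E) {l : ℕ} (hl : l.Prime)
    (h : ∃ u : HeightOneSpectrum (𝓞 E), (l : 𝓞 E) ∈ u.asIdeal ^ 2) : l = p := by
  obtain ⟨hE1, -, -⟩ := hE
  have hN : p ^ (n + 2) ≠ 0 := pow_ne_zero _ hp.ne_zero
  obtain ⟨u, hu⟩ := h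
  have hlu : (l : 𝓞 E) ∈ u.asIdeal := Ideal.pow_le_self two_ne_zero hu
  let v := u.under (𝓞 ℚ)
  have hlv : (l : 𝓞 ℚ) ∈ v.asIdeal := mem_under.2 hlu
  have hcf : NumberField (cyc (p ^ (n + 2))) := nf (cyc_fin hN)
  have hcg : IsGalois ℚ (cyc (p ^ (n + 2))) := (cyc_ab hN).toIsGalois
  let i1 := inc hE1
  have hEg : IsGalois ℚ E := sub_gal hN hE1
  have t1 : IsScalarTower ℚ E (cyc (p ^ (n + 2))) := inferInstance
  by_contra hne
  have hpv : ((p ^ (n + 2) : ℕ) : 𝓞 ℚ) ∉ v.asIdeal := by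
    intro h1
    rw [Nat.cast_pow] at h1
    have h2 := v.isPrime.mem_of_pow_mem _ h1
    have h3 : Nat.Coprime l p := (Nat.coprime_primes hl hp).2 hne
    obtain ⟨x, y, hxy⟩ := Nat.Coprime.cast (R := 𝓞 ℚ) h3
    apply v.isPrime.ne_top
    rw [Ideal.eq_top_iff_one, ← hxy]
    exact add_mem (Ideal.mul_mem_left _ _ hlv) (Ideal.mul_mem_left _ _ h2)
  have hun : Unramified (cyc (p ^ (n + 2))) v := by
    refine unram_cyc hN ?_ hpv
    rw [eq_top_iff]
    rintro x -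
    have h1 : cyc (p ^ (n + 2)) ≤ IntermediateField.lift
        (IntermediateField.adjoin ℚ {x : cyc (p ^ (n + 2)) | x ^ (p ^ (n + 2)) = 1}) := by
      refine IntermediateField.adjoin_le_iff.2 fun y hy => ?_
      refine ⟨⟨y, IntermediateField.subset_adjoin ℚ _ hy⟩, ?_, rfl⟩
      exact IntermediateField.subset_adjoin ℚ _ (Subtype.ext hy)
    obtain ⟨z, hz, hzx⟩ := h1 x.2
    have h4 : z = x := Subtype.ext hzx
    rw [← h4]
    exact hz
  have hunE : Unramified E v := hun.sub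
  apply hunE u rfl
  rw [Ideal.map_le_iff_le_comap]
  intro x hx
  have h5 : v = u.under (𝓞 ℚ) := rfl
  obtain ⟨b, hb⟩ : ∃ b : ℤ, (b : 𝓞 ℚ) = x := by
    refine ⟨Rat.ringOfIntegersEquiv x, ?_⟩
    apply Rat.ringOfIntegersEquiv.injective
    rw [map_intCast]
    rfl
  -- `l` divides `b`
  have h6 : (l : ℤ) ∣ b := by
    by_contra hnd
    have h7 : IsCoprime (l : ℤ) b := by
      rw [Int.isCoprime_iff_gcd_eq_one]
      have := (Nat.Prime.coprime_iff_not_dvd hl (n := b.natAbs)).2 (fun h => hnd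
        (Int.natCast_dvd.2 h))
      exact this
    obtain ⟨x', y', hxy⟩ := h7
    apply v.isPrime.ne_top
    rw [Ideal.eq_top_iff_one]
    have h8 : (x' : 𝓞 ℚ) * (l : 𝓞 ℚ) + (y' : 𝓞 ℚ) * (b : 𝓞 ℚ) = 1 := by
      exact_mod_cast congrArg (Int.cast (R := 𝓞 ℚ)) hxy
    rw [← h8, hb]
    exact add_mem (Ideal.mul_mem_left _ _ hlv) (Ideal.mul_mem_left _ _ hx)
  obtain ⟨d, hd⟩ := h6
  rw [Ideal.mem_comap, ← hb, hd]
  push_cast
  exact Ideal.mul_mem_right _ _ hu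

end Pool.Agent.H515.RD
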