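import Pool.Agent.H515.RD.Asm2

/-! # Relations for Frobenius elements -/

set_option autoImplicit false
set_option linter.unusedSectionVars false
set_option linter.deprecated false

namespace Pool.Agent.H515.RD

open NumberField IsDedekindDomain Pool.Agent.Q5.BR Pool.Agent.Q92.AR Pool.Agent.Q106.AR
open Pool.Agent.TeamU (act mem_act)
open Pool.Agent.H515.CH (DC sb sb_mk eqv cls mr map_ne mem_under rat_prime_unique FrobAt)
open Pool.Agent.H515.EQ (rat ratE FrobR frobR FrobAt.exists_w)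

section
variable {G : Type} [Group G] [Finite G]

theorem rel_mono {Φ : G → ℤ} {C D : Subgroup G} (hCD : C ≤ D)
    (h : ∀ x, ∑ c ∈ DD C, Φ (x * c) = 0) (x : G) : ∑ d ∈ DD D, Φ (x * d) = 0 := by
  classical
  have h1 : ∀ c ∈ DD C, ∑ d ∈ DD D, Φ (x * d * c) = ∑ d ∈ DD D, Φ (x * d) := by
    intro c hc
    refine Finset.sum_bij (fun d _ => d * c) (fun d hd => ?_) (fun a _ b _ h => ?_)
      (fun b hb => ⟨b * c⁻¹, ?_, ?_⟩) fun d _ => ?_
    · exact mem_DD.2 (D.mul_mem (mem_DD.1 hd) (hCD (mem_DD.1 hc)))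
    · exact mul_right_cancel h
    · exact mem_DD.2 (D.mul_mem (mem_DD.1 hb) (D.inv_mem (hCD (mem_DD.1 hc))))
    · rw [inv_mul_cancel_right]
    · rw [mul_assoc]
  have h2 : ((DD C).card : ℤ) * ∑ d ∈ DD D, Φ (x * d) = 0 := by
    rw [← nsmul_eq_mul, ← Finset.sum_const, ← Finset.sum_congr rfl h1, Finset.sum_comm]
    exact Finset.sum_eq_zero fun d _ => h (x * d)
  have h3 := card_DD_pos C
  rcases mul_eq_zero.1 h2 with h4 | h4
  · exact absurd h4 (by exact_mod_cast h3.ne')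
  · exact h4

theorem rel_conj {Φ : G → ℤ} (hΦ : ∀ τ x, Φ (τ * x * τ⁻¹) = Φ x) {g : G}
    (h : ∀ x, ∑ c ∈ DD (Subgroup.zpowers g), Φ (x * c) = 0) (τ x : G) :
    ∑ c ∈ DD (Subgroup.zpowers (τ * g * τ⁻¹)), Φ (x * c) = 0 := by
  classical
  rw [← h (τ⁻¹ * x * τ)]
  symm
  refine Finset.sum_bij (fun c _ => τ * c * τ⁻¹) (fun c hc => ?_) (fun a _ b _ h => ?_)
    (fun b hb => ?_) fun c _ => ?_
  · rw [mem_DD] at hc ⊢
    obtain ⟨j, rfl⟩ := hc
    exact ⟨j, conj_zpow⟩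
  · exact mul_left_cancel (mul_right_cancel h)
  · rw [mem_DD] at hb
    obtain ⟨j, rfl⟩ := hb
    exact ⟨g ^ j, mem_DD.2 ⟨j, rfl⟩, by simp only [conj_zpow]⟩
  · rw [← hΦ τ (τ⁻¹ * x * τ * c)]
    congr 1
    group

end

section
variable {ι : Type} [Fintype ι] {F : Type} [Field F] [NumberField F] (K : ι → Type)
  [∀ i, Field (K i)] [∀ i, NumberField (K i)] (a : ι → ℤ)

/-- the number of fixed embeddings -/
noncomputable def Phi (x : F ≃ₐ[ℚ] F) : ℤ :=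
  ∑ i, a i * (Nat.card {σ : K i →ₐ[ℚ] F // ∀ y, x (σ y) = σ y} : ℤ)

theorem Phi_conj (τ x : F ≃ₐ[ℚ] F) : Phi (F := F) K a (τ * x * τ⁻¹) = Phi (F := F) K a x := by
  unfold Phi
  refine Finset.sum_congr rfl fun i _ => ?_
  congr 2
  refine Nat.card_congr ⟨fun σ => ⟨(τ.symm : F →ₐ[ℚ] F).comp σ.1, fun y => ?_⟩,
    fun σ => ⟨(τ : F →ₐ[ℚ] F).comp σ.1, fun y => ?_⟩, fun σ => ?_, fun σ => ?_⟩
  · have h1 := σ.2 y
    change τ (x (τ.symm (σ.1 y))) = σ.1 y at h1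
    change x (τ.symm (σ.1 y)) = τ.symm (σ.1 y)
    apply τ.injective
    rw [h1, AlgEquiv.apply_symm_apply]
  · have h1 := σ.2 y
    change τ (x (τ.symm (τ (σ.1 y)))) = τ (σ.1 y)
    rw [AlgEquiv.symm_apply_apply, h1]
  · apply Subtype.ext
    apply AlgHom.ext
    intro y
    exact τ.apply_symm_apply _
  · apply Subtype.ext
    apply AlgHom.ext
    intro y
    exact τ.symm_apply_apply _

theorem Phi_sum (D : Subgroup (F ≃ₐ[ℚ] F)) (x : F ≃ₐ[ℚ] F) :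
    ∑ d ∈ DD D, Phi (F := F) K a (x * d) = ∑ i, a i * (Nat.card
      {z : (K i →ₐ[ℚ] F) × (F ≃ₐ[ℚ] F) // z.2 ∈ D ∧ ∀ y, x (z.2 (z.1 y)) = z.1 y} : ℤ) := by
  classical
  unfold Phi
  rw [Finset.sum_comm]
  refine Finset.sum_congr rfl fun i _ => ?_
  rw [← Finset.mul_sum]
  congr 1
  let _ : MulAction (F ≃ₐ[ℚ] F) (K i →ₐ[ℚ] F) := embAct ℚ (K i) F
  have h1 := card_pairs (X := K i →ₐ[ℚ] F) D x
  have h2 : Nat.card {z : (K i →ₐ[ℚ] F) × (F ≃ₐ[ℚ] F) // z.2 ∈ D ∧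
      ∀ y, x (z.2 (z.1 y)) = z.1 y} =
      Nat.card {z : (K i →ₐ[ℚ] F) × (F ≃ₐ[ℚ] F) // z.2 ∈ D ∧ (x * z.2) • z.1 = z.1} := by
    refine Nat.card_congr (Equiv.subtypeEquivRight fun z => and_congr Iff.rfl ?_)
    rw [DFunLike.ext_iff]
    rfl
  rw [h2, h1, Nat.cast_sum]
  refine Finset.sum_congr rfl fun d _ => ?_
  congr 1
  refine Nat.card_congr (Equiv.subtypeEquivRight fun z => ?_)
  rw [DFunLike.ext_iff]
  rfl

/-- the relation holds modulo the powers of `g` -/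
def RelF (g : F ≃+* F) : Prop :=
  ∀ x : F ≃+* F, ∑ i, a i * (Nat.card {z : (K i →+* F) × (F ≃+* F) //
    z.2 ∈ Subgroup.zpowers g ∧ ∀ y, x (z.2 (z.1 y)) = z.1 y} : ℤ) = 0

theorem relF_iff (g : F ≃+* F) : RelF (F := F) K a g ↔
    ∀ x, ∑ c ∈ DD (Subgroup.zpowers (rat g)), Phi (F := F) K a (x * c) = 0 := by
  have key : ∀ x : F ≃+* F, ∑ c ∈ DD (Subgroup.zpowers (rat g)), Phi (F := F) K a (rat x * c) =
      ∑ i, a i * (Nat.card {z : (K i →+* F) × (F ≃+* F) //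
        z.2 ∈ Subgroup.zpowers g ∧ ∀ y, x (z.2 (z.1 y)) = z.1 y} : ℤ) := by
    intro x
    rw [Phi_sum]
    refine Finset.sum_congr rfl fun i _ => ?_
    congr 2
    refine Nat.card_congr (Equiv.subtypeEquiv
      (Equiv.prodCongr (RingHom.equivRatAlgHom (K i) F).symm (ratE F).symm.toEquiv) fun z => ?_)
    refine and_congr ?_ Iff.rfl
    change z.2 ∈ Subgroup.zpowers (rat g) ↔ (ratE F).symm z.2 ∈ Subgroup.zpowers g
    constructor
    · rintro ⟨j, hj⟩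
      refine ⟨j, ?_⟩
      rw [← hj]
      change g ^ j = (ratE F).symm ((ratE F) g ^ j)
      rw [map_zpow, MulEquiv.symm_apply_apply]
    · rintro ⟨j, hj⟩
      refine ⟨j, ?_⟩
      have h1 : (ratE F) (g ^ j) = z.2 := by
        have h2 : g ^ j = (ratE F).symm z.2 := hj
        rw [h2, MulEquiv.apply_symm_apply]
      rw [← h1, map_zpow]
      rfl
  constructor
  · intro h x
    obtain ⟨y, rfl⟩ := (ratE F).surjective x
    exact (key y).trans (h y)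
  · intro h x
    exact (key x).symm.trans (h (rat x))

theorem relF_conj {g : F ≃+* F} (h : RelF (F := F) K a g) (τ : F ≃+* F) :
    RelF (F := F) K a (τ * g * τ⁻¹) := by
  rw [relF_iff] at h ⊢
  intro x
  have h1 := rel_conj (Phi_conj (F := F) K a) h (rat τ) x
  exact h1

end

/-- `g` fixes a prime if it is a Frobenius element -/
theorem frob_act {M : Type} [Field M] [NumberField M] [IsGalois ℚ M] {p : ℕ} (hp : p.Prime)
    {g0 : M ≃+* M} (hF0 : FrobR p g0) {P : HeightOneSpectrum (𝓞 M)} (hP : (p : 𝓞 M) ∈ P.asIdeal) :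
    ∃ τ : M ≃+* M, act (rat (τ * g0 * τ⁻¹)) P = P := by
  obtain ⟨g, hgg⟩ : ∃ g, g = rat g0 := ⟨_, rfl⟩
  have hF : FrobAt p g := by rw [hgg]; exact hF0
  obtain ⟨w, hpw, hwF⟩ := FrobAt.exists_w hp hF
  have hgw : act g w = w := by
    have h1 : ∀ y ∈ w.asIdeal, RingOfIntegers.mapRingEquiv g.toRingEquiv y ∈ w.asIdeal := by
      intro y hy
      obtain ⟨z, hz, hzy⟩ := hwF y
      have h2 : RingOfIntegers.mapRingEquiv g.toRingEquiv y = z + y ^ p := by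
        apply RingOfIntegers.ext
        change g (y : M) = (z : M) + (y : M) ^ p
        rw [hzy, sub_add_cancel]
      rw [h2]
      exact add_mem hz (Ideal.pow_mem_of_mem _ hy _ hp.pos)
    have h3 : w.asIdeal ≤ (act g⁻¹ w).asIdeal := by
      intro y hy
      rw [mem_act]
      exact h1 y hy
    have h4 : act g⁻¹ w = w := by
      apply HeightOneSpectrum.ext
      have hm := w.isMaximal
      exact (hm.eq_of_le (act g⁻¹ w).isPrime.ne_top h3).symm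
    conv_lhs => rw [← h4]
    rw [← Pool.Agent.TeamU.act_mul, mul_inv_cancel, Pool.Agent.TeamU.act_one]
  have hv : P.under (𝓞 ℚ) = w.under (𝓞 ℚ) :=
    rat_prime_unique hp (mem_under.2 hP) (mem_under.2 hpw)
  obtain ⟨τ, hτ⟩ := Pool.Agent.TeamU.exists_act (k := ℚ) (P := w) (Q := P)
    (v := w.under (𝓞 ℚ)) rfl (congrArg HeightOneSpectrum.asIdeal hv)
  have h5 : act (τ * g * τ⁻¹) P = P := by
    have h6 : act τ⁻¹ P = w := by
      rw [← hτ, ← Pool.Agent.TeamU.act_mul, inv_mul_cancel, Pool.Agent.TeamU.act_one]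
    rw [Pool.Agent.TeamU.act_mul, Pool.Agent.TeamU.act_mul, h6, hgw, hτ]
  refine ⟨τ.toRingEquiv, ?_⟩
  rw [hgg] at h5
  exact h5

/-- **The relation at the primes above `p`.** -/
theorem rel_at {ι : Type} [Fintype ι] {F : Type} [Field F] [NumberField F] [IsGalois ℚ F]
    (K : ι → Type) [∀ i, Field (K i)] [∀ i, NumberField (K i)] (a : ι → ℤ) {p : ℕ} (hp : p.Prime)
    {g : F ≃+* F} (hg : RelF (F := F) K a g) (hF : FrobR p g) {w : HeightOneSpectrum (𝓞 F)}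
    (hw : (p : 𝓞 F) ∈ w.asIdeal) (x : F ≃ₐ[ℚ] F) :
    ∑ i, a i * (Nat.card {z : (K i →ₐ[ℚ] F) × (F ≃ₐ[ℚ] F) //
        act z.2 w = w ∧ ∀ y, x (z.2 (z.1 y)) = z.1 y} : ℤ) = 0 := by
  obtain ⟨τ, hτ⟩ := frob_act hp hF hw
  have h1 := (relF_iff (F := F) K a _).1 (relF_conj (F := F) K a hg τ)
  have h2 := rel_mono (D := stab (MonoidHom.id (F ≃ₐ[ℚ] F)) w)
    ((Subgroup.zpowers_le).2 hτ) h1 x
  rw [Phi_sum] at h2
  exact h2

end Pool.Agent.H515.RD
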